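import Mathlib

/-!
Directional derivative calculus on `ℂ × ℝ` for smooth functions with compact support, and the
integrated identities behind the partial Legendre transform.
-/

set_option autoImplicit false

open MeasureTheory Set Filter Topology
open scoped ContDiff

namespace Pool.MA74

/-- the model space of the variables `(z, s)`. -/
abbrev X : Type := ℂ × ℝ

instance instHaarX : (volume : Measure X).IsAddHaarMeasure :=
  Measure.prod.instIsAddHaarMeasure (volume : Measure ℂ) (volume : Measure ℝ)

/-- directional derivative of a real function on `X`. -/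
noncomputable def d (e : X) (f : X → ℝ) : X → ℝ := fun x => fderiv ℝ f x e

/-- the three directions -/
def e1 : X := (1, 0)
noncomputable def e2 : X := (Complex.I, 0)
def e3 : X := (0, 1)

theorem contDiff_d {f : X → ℝ} (hf : ContDiff ℝ ∞ f) (e : X) : ContDiff ℝ ∞ (d e f) := by
  unfold d
  exact (hf.fderiv_right (m := ∞) (by simp)).clm_apply contDiff_const

theorem cont_d {f : X → ℝ} (hf : ContDiff ℝ ∞ f) (e : X) : Continuous (d e f) :=
  (contDiff_d hf e).continuous

theorem diff_at {f : X → ℝ} (hf : ContDiff ℝ ∞ f) (x : X) : DifferentiableAt ℝ f x :=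
  (hf.differentiable (by simp)) x

theorem d_add {f g : X → ℝ} (hf : ContDiff ℝ ∞ f) (hg : ContDiff ℝ ∞ g) (e x : X) :
    d e (fun y => f y + g y) x = d e f x + d e g x := by
  unfold d
  rw [fderiv_fun_add (diff_at hf x) (diff_at hg x)]; rfl

theorem d_sub {f g : X → ℝ} (hf : ContDiff ℝ ∞ f) (hg : ContDiff ℝ ∞ g) (e x : X) :
    d e (fun y => f y - g y) x = d e f x - d e g x := by
  unfold d
  rw [fderiv_fun_sub (diff_at hf x) (diff_at hg x)]; rfl

theorem d_mul {f g : X → ℝ} (hf : ContDiff ℝ ∞ f) (hg : ContDiff ℝ ∞ g) (e x : X) :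
    d e (fun y => f y * g y) x = d e f x * g x + f x * d e g x := by
  unfold d
  rw [fderiv_fun_mul (diff_at hf x) (diff_at hg x)]
  simp [mul_comm, add_comm]

/-- symmetry of second derivatives -/
theorem d_comm {f : X → ℝ} (hf : ContDiff ℝ ∞ f) (a b x : X) :
    d a (d b f) x = d b (d a f) x := by
  have h2 : ContDiffAt ℝ 2 f x := (hf.of_le (by norm_cast)).contDiffAt
  have hs := h2.isSymmSndFDerivAt (by simp)
  have hd : DifferentiableAt ℝ (fderiv ℝ f) x :=
    ((hf.fderiv_right (m := ∞) (by simp)).differentiable (by simp)) x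
  have e : ∀ v w : X, d v (d w f) x = fderiv ℝ (fderiv ℝ f) x v w := by
    intro v w
    unfold d
    rw [fderiv_clm_apply hd (differentiableAt_const _)]
    simp
  rw [e, e]
  exact hs.eq a b

theorem integral_d_eq_zero {F : X → ℝ} (hF : ContDiff ℝ ∞ F) (hc : HasCompactSupport F) (e : X) :
    ∫ x, d e F x = 0 := by
  have h := integral_mul_fderiv_eq_neg_fderiv_mul_of_integrable (μ := (volume : Measure X))
    (f := fun _ : X => (1 : ℝ)) (g := F) (v := e) (by simp)
    (by
      simp only [one_mul]
      refine Continuous.integrable_of_hasCompactSupport (cont_d hF e) ?_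
      exact (hc.fderiv_apply (𝕜 := ℝ) e))
    (by
      simp only [one_mul]
      exact hF.continuous.integrable_of_hasCompactSupport hc)
    (fun x _ => differentiableAt_const _) (fun x _ => diff_at hF x)
  simpa [d] using h

theorem hcs_d {F : X → ℝ} (hc : HasCompactSupport F) (e : X) : HasCompactSupport (d e F) :=
  hc.fderiv_apply (𝕜 := ℝ) e

theorem integrable_of {F : X → ℝ} (hF : Continuous F) (hc : HasCompactSupport F) :
    Integrable F := hF.integrable_of_hasCompactSupport hc

theorem d_comm3 {w : X → ℝ} (hw : ContDiff ℝ ∞ w) (a b x : X) :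
    d a (d b (d b w)) x = d b (d b (d a w)) x := by
  rw [d_comm (contDiff_d hw b) a b x]
  have : d a (d b w) = d b (d a w) := funext fun y => d_comm hw a b y
  rw [this]

/-- integration by parts for the `2 × 2` minor of the Hessian in two directions. -/
theorem minor_parts {w χ : X → ℝ} (hw : ContDiff ℝ ∞ w) (hχ : ContDiff ℝ ∞ χ)
    (hc : HasCompactSupport χ) (a b : X) :
    ∫ x, χ x * (d a (d a w) x * d b (d b w) x - d b (d a w) x ^ 2) =
      ∫ x, (d b (d a χ) x * (d a w x * d b w x) - (1 / 2) * (d b (d b χ) x * d a w x ^ 2)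
        - (1 / 2) * (d a (d a χ) x * d b w x ^ 2)) := by
  have wa := contDiff_d hw a
  have wb := contDiff_d hw b
  have waa := contDiff_d wa a
  have wab := contDiff_d wa b
  have wbb := contDiff_d wb b
  have xa := contDiff_d hχ a
  have xb := contDiff_d hχ b
  have xaa := contDiff_d xa a
  have xab := contDiff_d xa b
  have xbb := contDiff_d xb b
  set G1 : X → ℝ := fun y => χ y * (d a w y * d b (d b w) y) with hG1
  set G2 : X → ℝ := fun y => χ y * (d a w y * d b (d a w) y) with hG2
  set G3 : X → ℝ := fun y => d a χ y * (d a w y * d b w y) with hG3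
  set G4 : X → ℝ := fun y => d a χ y * (d b w y * d b w y) with hG4
  set G5 : X → ℝ := fun y => d b χ y * (d a w y * d a w y) with hG5
  have cG1 : ContDiff ℝ ∞ G1 := hχ.mul (wa.mul wbb)
  have cG2 : ContDiff ℝ ∞ G2 := hχ.mul (wa.mul wab)
  have cG3 : ContDiff ℝ ∞ G3 := xa.mul (wa.mul wb)
  have cG4 : ContDiff ℝ ∞ G4 := xa.mul (wb.mul wb)
  have cG5 : ContDiff ℝ ∞ G5 := xb.mul (wa.mul wa)
  have sG1 : HasCompactSupport G1 := hc.mul_right
  have sG2 : HasCompactSupport G2 := hc.mul_right
  have sG3 : HasCompactSupport G3 := (hcs_d hc a).mul_right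
  have sG4 : HasCompactSupport G4 := (hcs_d hc a).mul_right
  have sG5 : HasCompactSupport G5 := (hcs_d hc b).mul_right
  have key : ∀ x, χ x * (d a (d a w) x * d b (d b w) x - d b (d a w) x ^ 2) =
      (d b (d a χ) x * (d a w x * d b w x) - (1 / 2) * (d b (d b χ) x * d a w x ^ 2)
        - (1 / 2) * (d a (d a χ) x * d b w x ^ 2))
      + (d a G1 x - d b G2 x - d b G3 x + (1 / 2) * d a G4 x + (1 / 2) * d b G5 x) := by
    intro x
    rw [hG1, hG2, hG3, hG4, hG5, d_mul hχ (wa.mul wbb), d_mul wa wbb, d_mul hχ (wa.mul wab),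
      d_mul wa wab, d_mul xa (wa.mul wb), d_mul wa wb, d_mul xa (wb.mul wb), d_mul wb wb,
      d_mul xb (wa.mul wa), d_mul wa wa, d_comm3 hw a b x, d_comm hw a b x]
    ring
  have I1 := integral_d_eq_zero cG1 sG1 a
  have I2 := integral_d_eq_zero cG2 sG2 b
  have I3 := integral_d_eq_zero cG3 sG3 b
  have I4 := integral_d_eq_zero cG4 sG4 a
  have I5 := integral_d_eq_zero cG5 sG5 b
  have J1 : Integrable (d a G1) := integrable_of (cont_d cG1 a) (hcs_d sG1 a)
  have J2 : Integrable (d b G2) := integrable_of (cont_d cG2 b) (hcs_d sG2 b)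
  have J3 : Integrable (d b G3) := integrable_of (cont_d cG3 b) (hcs_d sG3 b)
  have J4 : Integrable (d a G4) := integrable_of (cont_d cG4 a) (hcs_d sG4 a)
  have J5 : Integrable (d b G5) := integrable_of (cont_d cG5 b) (hcs_d sG5 b)
  have JW : Integrable (fun x => d b (d a χ) x * (d a w x * d b w x)
      - (1 / 2) * (d b (d b χ) x * d a w x ^ 2) - (1 / 2) * (d a (d a χ) x * d b w x ^ 2)) := by
    refine Integrable.sub (Integrable.sub ?_ ?_) ?_
    · exact integrable_of ((xab.mul (wa.mul wb)).continuous) ((hcs_d (hcs_d hc a) b).mul_right)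
    · exact (integrable_of ((xbb.mul (wa.pow 2)).continuous)
        ((hcs_d (hcs_d hc b) b).mul_right)).const_mul _
    · exact (integrable_of ((xaa.mul (wb.pow 2)).continuous)
        ((hcs_d (hcs_d hc a) a).mul_right)).const_mul _
  rw [integral_congr_ae (Eventually.of_forall key)]
  have e1 : Integrable (fun x => d a G1 x - d b G2 x) := J1.sub J2
  have e2 : Integrable (fun x => d a G1 x - d b G2 x - d b G3 x) := e1.sub J3
  have e3 : Integrable (fun x => d a G1 x - d b G2 x - d b G3 x + (1 / 2) * d a G4 x) :=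
    e2.add (J4.const_mul _)
  have e4 : Integrable (fun x => d a G1 x - d b G2 x - d b G3 x + (1 / 2) * d a G4 x
      + (1 / 2) * d b G5 x) := e3.add (J5.const_mul _)
  rw [integral_add JW e4, integral_add e3 (J5.const_mul _), integral_add e2 (J4.const_mul _),
    integral_sub e1 J3, integral_sub J1 J2, integral_const_mul, integral_const_mul,
    I1, I2, I3, I4, I5]
  simp

end Pool.MA74
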