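import Mathlib
import Pool.Agent.MA74.Calc

set_option autoImplicit false

open MeasureTheory Set Filter Topology
open scoped ContDiff

namespace Pool.MA74

/-- the map `(z, s) ↦ (z, ∂w/∂s (z, s))`. -/
noncomputable def Gam (w : X → ℝ) (x : X) : X := (x.1, d e3 w x)

theorem contDiff_Gam {w : X → ℝ} (hw : ContDiff ℝ ∞ w) : ContDiff ℝ ∞ (Gam w) :=
  contDiff_fst.prodMk (contDiff_d hw e3)

theorem tsupport_d_subset (f : X → ℝ) (e : X) : tsupport (d e f) ⊆ tsupport f :=
  tsupport_fderiv_apply_subset ℝ e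

theorem eq_smul_e3 (a : X) : a = (a.1, 0) + a.2 • e3 := by
  ext <;> simp [e3]

theorem d_comp_Gam {w θ : X → ℝ} (hw : ContDiff ℝ ∞ w) (hθ : ContDiff ℝ ∞ θ) (a x : X) :
    d a (fun y => θ (Gam w y)) x =
      d (a.1, 0) θ (Gam w x) + d a (d e3 w) x * d e3 θ (Gam w x) := by
  have h1 : HasFDerivAt (Gam w)
      ((ContinuousLinearMap.fst ℝ ℂ ℝ).prod (fderiv ℝ (d e3 w) x)) x := by
    have := (hasFDerivAt_fst (𝕜 := ℝ) (p := x)).prodMk (diff_at (contDiff_d hw e3) x).hasFDerivAt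
    exact this
  have h2 : HasFDerivAt (fun y => θ (Gam w y)) _ x := (diff_at hθ (Gam w x)).hasFDerivAt.comp x h1
  unfold d at *
  rw [h2.fderiv]
  simp only [ContinuousLinearMap.coe_comp, Function.comp_apply, ContinuousLinearMap.prod_apply,
    ContinuousLinearMap.coe_fst']
  rw [eq_smul_e3 ((a.1, (fderiv ℝ (fun x => fderiv ℝ w x e3) x) a) : X), map_add, map_smul]
  simp

theorem contDiff_rho {ρ0 : ℝ → ℝ} (hρ : ContDiff ℝ ∞ ρ0) : ContDiff ℝ ∞ (fun x : X => ρ0 x.2) :=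
  hρ.comp contDiff_snd

theorem d_rho {ρ0 : ℝ → ℝ} (hρ : ContDiff ℝ ∞ ρ0) (a x : X) :
    d a (fun y : X => ρ0 y.2) x = deriv ρ0 x.2 * a.2 := by
  have h2 : HasFDerivAt (fun y : X => ρ0 y.2) _ x :=
    ((hρ.differentiable (by simp)) x.2).hasDerivAt.hasFDerivAt.comp x
      (hasFDerivAt_snd (𝕜 := ℝ) (p := x))
  unfold d
  rw [h2.fderiv]
  simp [mul_comm]

theorem hcs_rho_Gam {w θ : X → ℝ} {ρ0 : ℝ → ℝ} (hθc : HasCompactSupport θ)
    (hρc : HasCompactSupport ρ0) (F : X → ℝ) :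
    HasCompactSupport (fun x : X => ρ0 x.2 * (F x * θ (Gam w x))) := by
  refine HasCompactSupport.intro
    ((hθc.image continuous_fst).prod hρc) (K := (Prod.fst '' tsupport θ) ×ˢ tsupport ρ0) ?_
  intro x hx
  by_cases h1 : x.2 ∈ tsupport ρ0
  · have h2 : Gam w x ∉ tsupport θ := by
      intro h
      exact hx ⟨⟨Gam w x, h, rfl⟩, h1⟩
    simp [image_eq_zero_of_notMem_tsupport h2]
  · simp [image_eq_zero_of_notMem_tsupport h1]

theorem d_mom {w : X → ℝ} (hw : ContDiff ℝ ∞ w) (a x : X) :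
    d a (fun y : X => w y - y.2 * d e3 w y) x =
      d a w x - (a.2 * d e3 w x + x.2 * d a (d e3 w) x) := by
  have hs : ContDiff ℝ ∞ (fun y : X => y.2) := contDiff_snd
  rw [d_sub hw (hs.mul (contDiff_d hw e3)), d_mul hs (contDiff_d hw e3)]
  have : d a (fun y : X => y.2) x = a.2 := by
    have := d_rho (ρ0 := fun t => t) contDiff_id a x
    simpa using this
  rw [this]

theorem contDiff_mom {w : X → ℝ} (hw : ContDiff ℝ ∞ w) :
    ContDiff ℝ ∞ (fun y : X => w y - y.2 * d e3 w y) :=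
  hw.sub (contDiff_snd.mul (contDiff_d hw e3))

/-- integrated identity in the `z` directions. -/
theorem legendre_a {w η : X → ℝ} {ρ0 : ℝ → ℝ} (hw : ContDiff ℝ ∞ w) (hη : ContDiff ℝ ∞ η)
    (hηc : HasCompactSupport η) (hρ : ContDiff ℝ ∞ ρ0) (hρc : HasCompactSupport ρ0)
    (hvan : ∀ x : X, deriv ρ0 x.2 ≠ 0 → Gam w x ∉ tsupport η) (a : X) (ha : a.2 = 0) :
    ∫ x : X, ρ0 x.2 * (((w x - x.2 * d e3 w x) * d e3 (d e3 w) x) * d a (d a η) (Gam w x)) =
      ∫ x : X, ρ0 x.2 * ((d a (d a w) x * d e3 (d e3 w) x - d e3 (d a w) x ^ 2)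
        * η (Gam w x)) := by
  have wa := contDiff_d hw a
  have ws := contDiff_d hw e3
  have waa := contDiff_d wa a
  have was := contDiff_d ws a
  have wss := contDiff_d ws e3
  have hm := contDiff_mom hw
  have ea := contDiff_d hη a
  have eaa := contDiff_d ea a
  have hR := contDiff_rho hρ
  have hG := contDiff_Gam hw
  have cα : ContDiff ℝ ∞ (fun y => d a η (Gam w y)) := ea.comp hG
  have cβ : ContDiff ℝ ∞ (fun y => η (Gam w y)) := hη.comp hG
  have cγ : ContDiff ℝ ∞ (fun y => d a (d a η) (Gam w y)) := eaa.comp hG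
  have haa : ((a.1, 0) : X) = a := by ext <;> simp [ha]
  set m : X → ℝ := fun y : X => w y - y.2 * d e3 w y with hmdef
  set F1 : X → ℝ := fun y => ρ0 y.2 * ((m y * d e3 (d e3 w) y) * d a η (Gam w y)) with hF1
  set F2 : X → ℝ := fun y => ρ0 y.2 * ((m y * d a (d e3 w) y) * d a η (Gam w y)) with hF2
  set F3 : X → ℝ := fun y => ρ0 y.2 * ((d a w y * d e3 (d e3 w) y) * η (Gam w y)) with hF3
  set F4 : X → ℝ := fun y => ρ0 y.2 * ((d a w y * d a (d e3 w) y) * η (Gam w y)) with hF4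
  have cF1 : ContDiff ℝ ∞ F1 := hR.mul ((hm.mul wss).mul cα)
  have cF2 : ContDiff ℝ ∞ F2 := hR.mul ((hm.mul was).mul cα)
  have cF3 : ContDiff ℝ ∞ F3 := hR.mul ((wa.mul wss).mul cβ)
  have cF4 : ContDiff ℝ ∞ F4 := hR.mul ((wa.mul was).mul cβ)
  have sF1 : HasCompactSupport F1 := hcs_rho_Gam (hcs_d hηc a) hρc _
  have sF2 : HasCompactSupport F2 := hcs_rho_Gam (hcs_d hηc a) hρc _
  have sF3 : HasCompactSupport F3 := hcs_rho_Gam hηc hρc _
  have sF4 : HasCompactSupport F4 := hcs_rho_Gam hηc hρc _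
  have key : ∀ x : X, ρ0 x.2 * ((m x * d e3 (d e3 w) x) * d a (d a η) (Gam w x)) =
      ρ0 x.2 * ((d a (d a w) x * d e3 (d e3 w) x - d e3 (d a w) x ^ 2) * η (Gam w x))
      + (d a F1 x - d e3 F2 x - d a F3 x + d e3 F4 x) := by
    intro x
    have z0 : deriv ρ0 x.2 * η (Gam w x) = 0 := by
      by_cases h : deriv ρ0 x.2 = 0
      · simp [h]
      · rw [image_eq_zero_of_notMem_tsupport (hvan x h), mul_zero]
    have z1 : deriv ρ0 x.2 * d a η (Gam w x) = 0 := by
      by_cases h : deriv ρ0 x.2 = 0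
      · simp [h]
      · rw [image_eq_zero_of_notMem_tsupport
          (fun hh => hvan x h (tsupport_d_subset η a hh)), mul_zero]
    have e3a : ((e3 : X).1, (0 : ℝ)) = (0 : X) := by simp [e3]
    have d0 : ∀ f : X → ℝ, ∀ y, d (0 : X) f y = 0 := by intro f y; simp [d]
    have hsym : d a (d e3 (d e3 w)) x = d e3 (d a (d e3 w)) x := d_comm ws a e3 x
    have hsym2 : d a (d e3 w) x = d e3 (d a w) x := d_comm hw a e3 x
    have hsym3 : d e3 (d a η) (Gam w x) = d a (d e3 η) (Gam w x) := d_comm hη e3 a _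
    have E1 : d a F1 x = ρ0 x.2 * (((d a w x - x.2 * d a (d e3 w) x) * d e3 (d e3 w) x
        + m x * d a (d e3 (d e3 w)) x) * d a η (Gam w x)
        + (m x * d e3 (d e3 w) x) * (d a (d a η) (Gam w x)
          + d a (d e3 w) x * d e3 (d a η) (Gam w x))) := by
      rw [hF1, d_mul hR ((hm.mul wss).mul cα), d_rho hρ, ha, d_mul (hm.mul wss) cα,
        d_mul hm wss, d_comp_Gam hw ea, haa, hmdef, d_mom hw, ha]
      ring
    have E2 : d e3 F2 x = ρ0 x.2 * (((- (x.2 * d e3 (d e3 w) x)) * d a (d e3 w) x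
        + m x * d e3 (d a (d e3 w)) x) * d a η (Gam w x)
        + (m x * d a (d e3 w) x) * (d e3 (d e3 w) x * d e3 (d a η) (Gam w x))) := by
      rw [hF2, d_mul hR ((hm.mul was).mul cα), d_rho hρ, d_mul (hm.mul was) cα,
        d_mul hm was, d_comp_Gam hw ea, e3a, d0, hmdef, d_mom hw]
      have : (e3 : X).2 = 1 := rfl
      rw [this]
      linear_combination ((w x - x.2 * d e3 w x) * d a (d e3 w) x) * z1
    have E3 : d a F3 x = ρ0 x.2 * ((d a (d a w) x * d e3 (d e3 w) x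
        + d a w x * d a (d e3 (d e3 w)) x) * η (Gam w x)
        + (d a w x * d e3 (d e3 w) x) * (d a η (Gam w x)
          + d a (d e3 w) x * d e3 η (Gam w x))) := by
      rw [hF3, d_mul hR ((wa.mul wss).mul cβ), d_rho hρ, ha, d_mul (wa.mul wss) cβ,
        d_mul wa wss, d_comp_Gam hw hη, haa]
      ring
    have E4 : d e3 F4 x = ρ0 x.2 * ((d e3 (d a w) x * d a (d e3 w) x
        + d a w x * d e3 (d a (d e3 w)) x) * η (Gam w x)
        + (d a w x * d a (d e3 w) x) * (d e3 (d e3 w) x * d e3 η (Gam w x))) := by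
      rw [hF4, d_mul hR ((wa.mul was).mul cβ), d_rho hρ, d_mul (wa.mul was) cβ,
        d_mul wa was, d_comp_Gam hw hη, e3a, d0]
      have : (e3 : X).2 = 1 := rfl
      rw [this]
      linear_combination (d a w x * d a (d e3 w) x) * z0
    rw [E1, E2, E3, E4, hsym, hsym2]
    ring
  have J1 : Integrable (d a F1) := integrable_of (cont_d cF1 a) (hcs_d sF1 a)
  have J2 : Integrable (d e3 F2) := integrable_of (cont_d cF2 e3) (hcs_d sF2 e3)
  have J3 : Integrable (d a F3) := integrable_of (cont_d cF3 a) (hcs_d sF3 a)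
  have J4 : Integrable (d e3 F4) := integrable_of (cont_d cF4 e3) (hcs_d sF4 e3)
  have JM : Integrable (fun x : X => ρ0 x.2 * ((d a (d a w) x * d e3 (d e3 w) x
      - d e3 (d a w) x ^ 2) * η (Gam w x))) := by
    refine integrable_of ?_ (hcs_rho_Gam hηc hρc _)
    exact (hR.mul (((waa.mul wss).sub ((contDiff_d wa e3).pow 2)).mul cβ)).continuous
  rw [integral_congr_ae (Eventually.of_forall key)]
  have e1 : Integrable (fun x => d a F1 x - d e3 F2 x) := J1.sub J2
  have e2 : Integrable (fun x => d a F1 x - d e3 F2 x - d a F3 x) := e1.sub J3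
  have e3' : Integrable (fun x => d a F1 x - d e3 F2 x - d a F3 x + d e3 F4 x) := e2.add J4
  rw [integral_add JM e3', integral_add e2 J4, integral_sub e1 J3, integral_sub J1 J2,
    integral_d_eq_zero cF1 sF1 a, integral_d_eq_zero cF2 sF2 e3, integral_d_eq_zero cF3 sF3 a,
    integral_d_eq_zero cF4 sF4 e3]
  simp

/-- integrated identity in the `s` direction. -/
theorem legendre_3 {w η : X → ℝ} {ρ0 : ℝ → ℝ} (hw : ContDiff ℝ ∞ w) (hη : ContDiff ℝ ∞ η)
    (hηc : HasCompactSupport η) (hρ : ContDiff ℝ ∞ ρ0) (hρc : HasCompactSupport ρ0)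
    (hvan : ∀ x : X, deriv ρ0 x.2 ≠ 0 → Gam w x ∉ tsupport η) :
    ∫ x : X, ρ0 x.2 * (((w x - x.2 * d e3 w x) * d e3 (d e3 w) x) * d e3 (d e3 η) (Gam w x)) =
      - ∫ x : X, ρ0 x.2 * (1 * η (Gam w x)) := by
  have ws := contDiff_d hw e3
  have wss := contDiff_d ws e3
  have hm := contDiff_mom hw
  have es := contDiff_d hη e3
  have ess := contDiff_d es e3
  have hR := contDiff_rho hρ
  have hG := contDiff_Gam hw
  have cα : ContDiff ℝ ∞ (fun y => d e3 η (Gam w y)) := es.comp hG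
  have cβ : ContDiff ℝ ∞ (fun y => η (Gam w y)) := hη.comp hG
  have hs : ContDiff ℝ ∞ (fun y : X => y.2) := contDiff_snd
  set m : X → ℝ := fun y : X => w y - y.2 * d e3 w y with hmdef
  set F1 : X → ℝ := fun y => ρ0 y.2 * (m y * d e3 η (Gam w y)) with hF1
  set F2 : X → ℝ := fun y => ρ0 y.2 * (y.2 * η (Gam w y)) with hF2
  have cF1 : ContDiff ℝ ∞ F1 := hR.mul (hm.mul cα)
  have cF2 : ContDiff ℝ ∞ F2 := hR.mul (hs.mul cβ)
  have sF1 : HasCompactSupport F1 := hcs_rho_Gam (hcs_d hηc e3) hρc _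
  have sF2 : HasCompactSupport F2 := hcs_rho_Gam hηc hρc _
  have key : ∀ x : X, ρ0 x.2 * ((m x * d e3 (d e3 w) x) * d e3 (d e3 η) (Gam w x)) =
      - (ρ0 x.2 * (1 * η (Gam w x))) + (d e3 F1 x + d e3 F2 x) := by
    intro x
    have z0 : deriv ρ0 x.2 * η (Gam w x) = 0 := by
      by_cases h : deriv ρ0 x.2 = 0
      · simp [h]
      · rw [image_eq_zero_of_notMem_tsupport (hvan x h), mul_zero]
    have z1 : deriv ρ0 x.2 * d e3 η (Gam w x) = 0 := by
      by_cases h : deriv ρ0 x.2 = 0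
      · simp [h]
      · rw [image_eq_zero_of_notMem_tsupport
          (fun hh => hvan x h (tsupport_d_subset η e3 hh)), mul_zero]
    have e3a : ((e3 : X).1, (0 : ℝ)) = (0 : X) := by simp [e3]
    have d0 : ∀ f : X → ℝ, ∀ y, d (0 : X) f y = 0 := by intro f y; simp [d]
    have h1 : (e3 : X).2 = 1 := rfl
    have hsnd : d e3 (fun y : X => y.2) x = 1 := by
      have := d_rho (ρ0 := fun t => t) contDiff_id e3 x
      simpa [h1] using this
    have E1 : d e3 F1 x = ρ0 x.2 * ((- (x.2 * d e3 (d e3 w) x)) * d e3 η (Gam w x)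
        + m x * (d e3 (d e3 w) x * d e3 (d e3 η) (Gam w x))) := by
      rw [hF1, d_mul hR (hm.mul cα), d_rho hρ, d_mul hm cα,
        d_comp_Gam hw es, e3a, d0, hmdef, d_mom hw, h1]
      linear_combination (w x - x.2 * d e3 w x) * z1
    have E2 : d e3 F2 x = ρ0 x.2 * (η (Gam w x)
        + x.2 * (d e3 (d e3 w) x * d e3 η (Gam w x))) := by
      rw [hF2, d_mul hR (hs.mul cβ), d_rho hρ, d_mul hs cβ, hsnd,
        d_comp_Gam hw hη, e3a, d0, h1]
      linear_combination x.2 * z0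
    rw [E1, E2]
    ring
  have J1 : Integrable (d e3 F1) := integrable_of (cont_d cF1 e3) (hcs_d sF1 e3)
  have J2 : Integrable (d e3 F2) := integrable_of (cont_d cF2 e3) (hcs_d sF2 e3)
  have JM : Integrable (fun x : X => ρ0 x.2 * (1 * η (Gam w x))) := by
    refine integrable_of ?_ (hcs_rho_Gam hηc hρc _)
    exact (hR.mul (contDiff_const.mul cβ)).continuous
  rw [integral_congr_ae (Eventually.of_forall key)]
  have JN : Integrable (fun x : X => - (ρ0 x.2 * (1 * η (Gam w x)))) := JM.neg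
  have JS : Integrable (fun x => d e3 F1 x + d e3 F2 x) := J1.add J2
  rw [integral_add JN JS, integral_add J1 J2,
    integral_d_eq_zero cF1 sF1 e3, integral_d_eq_zero cF2 sF2 e3, integral_neg]
  simp

end Pool.MA74
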