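import Mathlib
import Pool.Agent.MA74.Legendre

set_option autoImplicit false

open MeasureTheory Set Filter Topology
open scoped ContDiff

namespace Pool.MA74

/-- tangent line inequality from a monotone derivative. -/
theorem tangent_le {f f' : ℝ → ℝ} {a b : ℝ} (hf : ∀ s ∈ Icc a b, HasDerivAt f (f' s) s)
    (hm : MonotoneOn f' (Icc a b)) {s t : ℝ} (hs : s ∈ Icc a b) (ht : t ∈ Icc a b) :
    f s + f' s * (t - s) ≤ f t := by
  rcases lt_trichotomy s t with h | h | h
  · have hsub : Icc s t ⊆ Icc a b := fun x hx => ⟨hs.1.trans hx.1, hx.2.trans ht.2⟩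
    obtain ⟨c, hc, hc'⟩ := exists_hasDerivAt_eq_slope f f' h
      (fun x hx => (hf x (hsub hx)).continuousAt.continuousWithinAt)
      (fun x hx => hf x (hsub (Ioo_subset_Icc_self hx)))
    have h1 : f' s ≤ f' c := hm hs (hsub (Ioo_subset_Icc_self hc)) hc.1.le
    have h2 : 0 < t - s := sub_pos.2 h
    rw [eq_div_iff h2.ne'] at hc'
    nlinarith
  · subst h; simp
  · have hsub : Icc t s ⊆ Icc a b := fun x hx => ⟨ht.1.trans hx.1, hx.2.trans hs.2⟩
    obtain ⟨c, hc, hc'⟩ := exists_hasDerivAt_eq_slope f f' h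
      (fun x hx => (hf x (hsub hx)).continuousAt.continuousWithinAt)
      (fun x hx => hf x (hsub (Ioo_subset_Icc_self hx)))
    have h1 : f' c ≤ f' s := hm (hsub (Ioo_subset_Icc_self hc)) hs hc.2.le
    have h2 : 0 < s - t := sub_pos.2 h
    rw [eq_div_iff h2.ne'] at hc'
    nlinarith

/-- the partial Legendre transform (with the sign making it concave in `p`). -/
noncomputable def Psi (w : X → ℝ) (a b : ℝ) (x : X) : ℝ :=
  sInf ((fun s => w (x.1, s) - x.2 * s) '' Icc a b)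

theorem Psi_eq_of_tangent {w : X → ℝ} {a b : ℝ} {x : X} {s : ℝ} (hs : s ∈ Icc a b)
    (h : ∀ t ∈ Icc a b, w (x.1, s) + x.2 * (t - s) ≤ w (x.1, t)) :
    Psi w a b x = w (x.1, s) - x.2 * s := by
  unfold Psi
  refine IsLeast.csInf_eq ⟨⟨s, hs, rfl⟩, ?_⟩
  rintro _ ⟨t, ht, rfl⟩
  have := h t ht
  simp only
  linarith

theorem Psi_le {w : X → ℝ} {a b : ℝ} {x : X} (hc : ContinuousOn (fun s => w (x.1, s)) (Icc a b))
    {s : ℝ} (hs : s ∈ Icc a b) : Psi w a b x ≤ w (x.1, s) - x.2 * s := by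
  unfold Psi
  refine csInf_le ?_ ⟨s, hs, rfl⟩
  exact (isCompact_Icc.image_of_continuousOn (hc.sub (by fun_prop))).bddBelow

theorem Psi_exists {w : X → ℝ} {a b : ℝ} {x : X} (hab : a ≤ b)
    (hc : ContinuousOn (fun s => w (x.1, s)) (Icc a b)) :
    ∃ s ∈ Icc a b, Psi w a b x = w (x.1, s) - x.2 * s := by
  obtain ⟨s, hs, h1, h2⟩ := isCompact_Icc.exists_sInf_image_eq_and_le (nonempty_Icc.2 hab)
    (f := fun s => w (x.1, s) - x.2 * s) (hc.sub (by fun_prop))
  exact ⟨s, hs, h1⟩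

/-- comparison of the transforms of two functions. -/
theorem Psi_close {w v : X → ℝ} {a b ε : ℝ} {x : X} (hab : a ≤ b)
    (hw : ContinuousOn (fun s => w (x.1, s)) (Icc a b))
    (hv : ContinuousOn (fun s => v (x.1, s)) (Icc a b))
    (h : ∀ s ∈ Icc a b, |w (x.1, s) - v (x.1, s)| ≤ ε) :
    |Psi w a b x - Psi v a b x| ≤ ε := by
  obtain ⟨s, hs, e1⟩ := Psi_exists hab hw
  obtain ⟨t, ht, e2⟩ := Psi_exists hab hv
  have l1 := Psi_le hw ht
  have l2 := Psi_le hv hs
  have h1 := abs_le.1 (h s hs)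
  have h2 := abs_le.1 (h t ht)
  rw [abs_le]
  constructor <;> linarith

theorem continuous_Psi {w : X → ℝ} (hw : Continuous w) (a b : ℝ) : Continuous (Psi w a b) := by
  unfold Psi
  refine IsCompact.continuous_sInf isCompact_Icc (f := fun (x : X) s => w (x.1, s) - x.2 * s) ?_
  simp only [Function.HasUncurry.uncurry, id]
  fun_prop

theorem hasDerivAt_snd_slice {w : X → ℝ} {z : ℂ} {s : ℝ} (hw : DifferentiableAt ℝ w (z, s)) :
    HasDerivAt (fun t => w (z, t)) (d e3 w (z, s)) s := by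
  have h1 : HasDerivAt (fun t : ℝ => ((z, t) : X)) ((0, 1) : X) s :=
    (hasDerivAt_const s z).prodMk (hasDerivAt_id s)
  exact hw.hasFDerivAt.comp_hasDerivAt s h1

/-- monotonicity of `∂w/∂s` on a segment where `∂²w/∂s² ≥ 0`. -/
theorem mono_ds {w : X → ℝ} (hw : ContDiff ℝ ∞ w) {z : ℂ} {a b : ℝ}
    (h : ∀ s ∈ Icc a b, 0 ≤ d e3 (d e3 w) (z, s)) :
    MonotoneOn (fun s => d e3 w (z, s)) (Icc a b) := by
  have hder : ∀ s, HasDerivAt (fun s => d e3 w (z, s)) (d e3 (d e3 w) (z, s)) s := fun s =>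
    hasDerivAt_snd_slice (diff_at (contDiff_d hw e3) (z, s))
  refine monotoneOn_of_deriv_nonneg (convex_Icc a b)
    (fun s _ => (hder s).continuousAt.continuousWithinAt)
    (fun s _ => (hder s).differentiableAt.differentiableWithinAt) ?_
  intro s hs
  rw [(hder s).deriv]
  exact h s (interior_subset hs)

theorem Psi_Gam {w : X → ℝ} (hw : ContDiff ℝ ∞ w) {z : ℂ} {a b : ℝ}
    (h : ∀ s ∈ Icc a b, 0 ≤ d e3 (d e3 w) (z, s)) {s : ℝ} (hs : s ∈ Icc a b) :
    Psi w a b (Gam w (z, s)) = w (z, s) - s * d e3 w (z, s) := by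
  have hm := mono_ds hw h
  rw [Psi_eq_of_tangent hs]
  · simp [Gam, mul_comm]
  · intro t ht
    exact tangent_le (f := fun s => w (z, s)) (f' := fun s => d e3 w (z, s))
      (fun s _ => hasDerivAt_snd_slice (diff_at hw (z, s))) hm hs ht

/-- change of variables `p = ∂w/∂s` in the Legendre side integral. -/
theorem change_var {w θ : X → ℝ} {ρ0 : ℝ → ℝ} {Z : Set ℂ} {a' a b b' : ℝ}
    (hw : ContDiff ℝ ∞ w) (hθ : ContDiff ℝ ∞ θ)
    (hθc : HasCompactSupport θ) (hρ : ContDiff ℝ ∞ ρ0) (hρc : HasCompactSupport ρ0)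
    (ha : a' ≤ a) (hab : a < b) (hb : b ≤ b')
    (hρ1 : ∀ s ∈ Icc a b, ρ0 s = 1) (hρs : tsupport ρ0 ⊆ Icc a' b')
    (hconv : ∀ z ∈ Z, ∀ s ∈ Icc a' b', 0 ≤ d e3 (d e3 w) (z, s))
    (hsup : ∀ x ∈ tsupport θ, x.1 ∈ Z ∧ d e3 w (x.1, a) < x.2 ∧ x.2 < d e3 w (x.1, b)) :
    ∫ x : X, Psi w a b x * θ x =
      ∫ x : X, ρ0 x.2 * (((w x - x.2 * d e3 w x) * d e3 (d e3 w) x) * θ (Gam w x)) := by
  have ws := contDiff_d hw e3
  have wss := contDiff_d ws e3
  have hm := contDiff_mom hw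
  have hR := contDiff_rho hρ
  have hG := contDiff_Gam hw
  have cΨ := continuous_Psi hw.continuous a b
  have I1 : Integrable (fun x : X => Psi w a b x * θ x) :=
    integrable_of (cΨ.mul hθ.continuous) hθc.mul_left
  have I2 : Integrable (fun x : X =>
      ρ0 x.2 * (((w x - x.2 * d e3 w x) * d e3 (d e3 w) x) * θ (Gam w x))) :=
    integrable_of (hR.mul ((hm.mul wss).mul (hθ.comp hG))).continuous
      (hcs_rho_Gam hθc hρc _)
  have V : (volume : Measure X) = (volume : Measure ℂ).prod (volume : Measure ℝ) := rfl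
  rw [V] at I1 I2 ⊢
  rw [integral_prod _ I1, integral_prod _ I2]
  refine integral_congr_ae (Eventually.of_forall fun z => ?_)
  simp only
  by_cases hz : z ∈ Z
  · have hmono : MonotoneOn (fun s => d e3 w (z, s)) (Icc a' b') := mono_ds hw (hconv z hz)
    have hθ0 : ∀ p, p ∉ Ioo (d e3 w (z, a)) (d e3 w (z, b)) → θ (z, p) = 0 := by
      intro p hp
      by_contra hne
      have := hsup (z, p) (subset_tsupport θ hne)
      exact hp ⟨this.2.1, this.2.2⟩
    have hlt : d e3 w (z, a) ≤ d e3 w (z, b) :=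
      hmono ⟨ha, hab.le.trans hb⟩ ⟨ha.trans hab.le, hb⟩ hab.le
    -- left side
    have L : ∫ p : ℝ, Psi w a b (z, p) * θ (z, p) =
        ∫ p in (d e3 w (z, a))..(d e3 w (z, b)), Psi w a b (z, p) * θ (z, p) := by
      rw [intervalIntegral.integral_of_le hlt, setIntegral_eq_integral_of_forall_compl_eq_zero]
      intro p hp
      rw [hθ0 p (fun h => hp ⟨h.1, h.2.le⟩), mul_zero]
    have hder : ∀ s ∈ uIcc a b, HasDerivAt (fun s => d e3 w (z, s)) (d e3 (d e3 w) (z, s)) s :=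
      fun s _ => hasDerivAt_snd_slice (diff_at ws (z, s))
    have hsub := intervalIntegral.integral_comp_mul_deriv (a := a) (b := b)
      (f := fun s => d e3 w (z, s)) (f' := fun s => d e3 (d e3 w) (z, s))
      (g := fun p => Psi w a b (z, p) * θ (z, p)) hder
      ((wss.continuous.comp (by fun_prop)).continuousOn)
      ((cΨ.comp (by fun_prop)).mul (hθ.continuous.comp (by fun_prop)))
    rw [L, ← hsub, intervalIntegral.integral_of_le hab.le]
    have hz0 : ∀ s, s ∉ Ioc a b →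
        ρ0 s * (((w (z, s) - s * d e3 w (z, s)) * d e3 (d e3 w) (z, s)) * θ (Gam w (z, s))) = 0 := by
      intro s hs
      by_cases h1 : s ∈ tsupport ρ0
      · have hs' := hρs h1
        have : θ (Gam w (z, s)) = 0 := by
          refine hθ0 _ ?_
          intro hh
          rcases not_and_or.1 hs with h2 | h2
          · have := hmono hs' ⟨ha, hab.le.trans hb⟩ (not_lt.1 h2)
            exact absurd hh.1 (not_lt.2 this)
          · have := hmono ⟨ha.trans hab.le, hb⟩ hs' (not_le.1 h2).le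
            exact absurd hh.2 (not_lt.2 this)
        rw [this]; ring
      · rw [image_eq_zero_of_notMem_tsupport h1]; ring
    rw [← setIntegral_eq_integral_of_forall_compl_eq_zero (s := Ioc a b) hz0]
    refine setIntegral_congr_fun measurableSet_Ioc ?_
    intro s hs
    have hs' : s ∈ Icc a b := ⟨hs.1.le, hs.2⟩
    have hΨ := Psi_Gam hw (z := z) (a := a) (b := b)
      (fun t ht => hconv z hz t ⟨ha.trans ht.1, ht.2.trans hb⟩) hs'
    simp only [Function.comp_apply]
    rw [hρ1 s hs']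
    have : ((z, d e3 w (z, s)) : X) = Gam w (z, s) := rfl
    rw [this, hΨ]
    ring
  · have h0 : ∀ p, θ (z, p) = 0 := by
      intro p
      by_contra hne
      exact hz (hsup (z, p) (subset_tsupport θ hne)).1
    have h1 : ∀ s, θ (Gam w (z, s)) = 0 := fun s => h0 _
    simp [h0, h1]

end Pool.MA74
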