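import Mathlib
import Pool.Agent.MA74.Psi

set_option autoImplicit false

open MeasureTheory Set Filter Topology
open scoped ContDiff

namespace Pool.MA74

/-- `16` times the complex Hessian determinant of `(z, w) ↦ v (z, Re w)`. -/
noncomputable def Dop (w : X → ℝ) (x : X) : ℝ :=
  (d e1 (d e1 w) x * d e3 (d e3 w) x - d e3 (d e1 w) x ^ 2)
    + (d e2 (d e2 w) x * d e3 (d e3 w) x - d e3 (d e2 w) x ^ 2)

/-- the linear operator satisfied by the Legendre transform. -/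
noncomputable def Lop (c : ℝ) (η : X → ℝ) (x : X) : ℝ :=
  d e1 (d e1 η) x + d e2 (d e2 η) x + c * d e3 (d e3 η) x

theorem contDiff_Dop {w : X → ℝ} (hw : ContDiff ℝ ∞ w) : ContDiff ℝ ∞ (Dop w) := by
  have c2 : ∀ a b : X, ContDiff ℝ ∞ (d a (d b w)) := fun a b => contDiff_d (contDiff_d hw b) a
  exact (((c2 _ _).mul (c2 _ _)).sub ((c2 _ _).pow 2)).add
    (((c2 _ _).mul (c2 _ _)).sub ((c2 _ _).pow 2))

theorem contDiff_Lop {c : ℝ} {η : X → ℝ} (hη : ContDiff ℝ ∞ η) : ContDiff ℝ ∞ (Lop c η) := by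
  have c2 : ∀ a b : X, ContDiff ℝ ∞ (d a (d b η)) := fun a b => contDiff_d (contDiff_d hη b) a
  exact ((c2 _ _).add (c2 _ _)).add (contDiff_const.mul (c2 _ _))

theorem tsupport_dd_subset (f : X → ℝ) (a b : X) : tsupport (d a (d b f)) ⊆ tsupport f :=
  (tsupport_d_subset _ a).trans (tsupport_d_subset f b)

theorem tsupport_Lop_subset (c : ℝ) (η : X → ℝ) : tsupport (Lop c η) ⊆ tsupport η := by
  refine closure_minimal ?_ (isClosed_tsupport η)
  intro x hx
  by_contra h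
  have h1 : ∀ a b : X, d a (d b η) x = 0 := fun a b =>
    image_eq_zero_of_notMem_tsupport (fun hh => h (tsupport_dd_subset η a b hh))
  exact hx (by simp [Lop, h1])

theorem hcs_Lop {c : ℝ} {η : X → ℝ} (hη : HasCompactSupport η) : HasCompactSupport (Lop c η) :=
  hη.of_isClosed_subset (isClosed_tsupport _) (tsupport_Lop_subset c η)

theorem integral_add3 {f g h : X → ℝ} (hf : Integrable f) (hg : Integrable g)
    (hh : Integrable h) : ∫ x, (f x + g x + h x) = (∫ x, f x) + (∫ x, g x) + ∫ x, h x := by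
  have h1 : Integrable (fun x => f x + g x) := hf.add hg
  rw [integral_add h1 hh, integral_add hf hg]

theorem integral_add_sub3 {f g h : X → ℝ} (hf : Integrable f) (hg : Integrable g)
    (hh : Integrable h) : ∫ x, (f x + g x - h x) = (∫ x, f x) + (∫ x, g x) - ∫ x, h x := by
  have h1 : Integrable (fun x => f x + g x) := hf.add hg
  rw [integral_sub h1 hh, integral_add hf hg]

theorem legendre_total {w η : X → ℝ} {ρ0 : ℝ → ℝ} {Z : Set ℂ} {a' a b b' : ℝ} (c : ℝ)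
    (hw : ContDiff ℝ ∞ w) (hη : ContDiff ℝ ∞ η)
    (hηc : HasCompactSupport η) (hρ : ContDiff ℝ ∞ ρ0) (hρc : HasCompactSupport ρ0)
    (ha : a' ≤ a) (hab : a < b) (hb : b ≤ b')
    (hρ1 : ∀ s ∈ Icc a b, ρ0 s = 1) (hρs : tsupport ρ0 ⊆ Icc a' b')
    (hconv : ∀ z ∈ Z, ∀ s ∈ Icc a' b', 0 ≤ d e3 (d e3 w) (z, s))
    (hsup : ∀ x ∈ tsupport η, x.1 ∈ Z ∧ d e3 w (x.1, a) < x.2 ∧ x.2 < d e3 w (x.1, b)) :
    ∫ x : X, Psi w a b x * Lop c η x =
      ∫ x : X, ρ0 x.2 * ((Dop w x - c) * η (Gam w x)) := by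
  have ws := contDiff_d hw e3
  have wss := contDiff_d ws e3
  have hm := contDiff_mom hw
  have hR := contDiff_rho hρ
  have hG := contDiff_Gam hw
  have hsup' : ∀ x ∈ tsupport (Lop c η), x.1 ∈ Z ∧ d e3 w (x.1, a) < x.2 ∧
      x.2 < d e3 w (x.1, b) := fun x hx => hsup x (tsupport_Lop_subset c η hx)
  rw [change_var hw (contDiff_Lop hη) (hcs_Lop hηc) hρ hρc ha hab hb hρ1 hρs hconv hsup']
  have hvan : ∀ x : X, deriv ρ0 x.2 ≠ 0 → Gam w x ∉ tsupport η := by
    intro x hx hmem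
    obtain ⟨h1, h2, h3⟩ := hsup _ hmem
    simp only [Gam] at h1 h2 h3
    have hmono : MonotoneOn (fun s => d e3 w (x.1, s)) (Icc a' b') := mono_ds hw (hconv _ h1)
    have hts : x.2 ∈ tsupport ρ0 := by
      by_contra h
      apply hx
      have : ρ0 =ᶠ[𝓝 x.2] 0 := notMem_tsupport_iff_eventuallyEq.1 h
      rw [this.deriv_eq]; simp
    have hs' := hρs hts
    have hin : x.2 ∈ Ioo a b := by
      constructor
      · by_contra hh
        have := hmono hs' ⟨ha, hab.le.trans hb⟩ (not_lt.1 hh)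
        exact absurd h2 (not_lt.2 this)
      · by_contra hh
        have := hmono ⟨ha.trans hab.le, hb⟩ hs' (not_lt.1 hh)
        exact absurd h3 (not_lt.2 this)
    apply hx
    have : ρ0 =ᶠ[𝓝 x.2] fun _ => 1 := by
      filter_upwards [Ioo_mem_nhds hin.1 hin.2] with s hs
      exact hρ1 s (Ioo_subset_Icc_self hs)
    rw [this.deriv_eq]; simp
  have L1 := legendre_a hw hη hηc hρ hρc hvan e1 rfl
  have L2 := legendre_a hw hη hηc hρ hρc hvan e2 rfl
  have L3 := legendre_3 hw hη hηc hρ hρc hvan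
  have hi : ∀ θ : X → ℝ, ContDiff ℝ ∞ θ → HasCompactSupport θ → ∀ F : X → ℝ, ContDiff ℝ ∞ F →
      Integrable (fun x : X => ρ0 x.2 * (F x * θ (Gam w x))) := by
    intro θ h1 h2 F h3
    exact integrable_of (hR.mul (h3.mul (h1.comp hG))).continuous (hcs_rho_Gam h2 hρc _)
  have cdd : ∀ e : X, ContDiff ℝ ∞ (d e (d e η)) := fun e => contDiff_d (contDiff_d hη e) e
  have sdd : ∀ e : X, HasCompactSupport (d e (d e η)) := fun e => hcs_d (hcs_d hηc e) e
  have hmw : ContDiff ℝ ∞ (fun x : X => (w x - x.2 * d e3 w x) * d e3 (d e3 w) x) := hm.mul wss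
  have J1 := hi _ (cdd e1) (sdd e1) _ hmw
  have J2 := hi _ (cdd e2) (sdd e2) _ hmw
  have J3 := (hi _ (cdd e3) (sdd e3) _ hmw).const_mul c
  have eL : ∀ x : X, ρ0 x.2 * (((w x - x.2 * d e3 w x) * d e3 (d e3 w) x) * Lop c η (Gam w x)) =
      ρ0 x.2 * (((w x - x.2 * d e3 w x) * d e3 (d e3 w) x) * d e1 (d e1 η) (Gam w x))
      + ρ0 x.2 * (((w x - x.2 * d e3 w x) * d e3 (d e3 w) x) * d e2 (d e2 η) (Gam w x))
      + c * (ρ0 x.2 * (((w x - x.2 * d e3 w x) * d e3 (d e3 w) x)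
        * d e3 (d e3 η) (Gam w x))) := by
    intro x; unfold Lop; ring
  rw [integral_congr_ae (Eventually.of_forall eL), integral_add3 J1 J2 J3,
    integral_const_mul, L1, L2, L3]
  have cM : ∀ a : X, ContDiff ℝ ∞ (fun x => d a (d a w) x * d e3 (d e3 w) x
      - d e3 (d a w) x ^ 2) := fun a =>
    ((contDiff_d (contDiff_d hw a) a).mul wss).sub ((contDiff_d (contDiff_d hw a) e3).pow 2)
  have K1 := hi η hη hηc _ (cM e1)
  have K2 := hi η hη hηc _ (cM e2)
  have K3 := (hi η hη hηc (fun _ => 1) contDiff_const).const_mul c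
  have eR : ∀ x : X, ρ0 x.2 * ((Dop w x - c) * η (Gam w x)) =
      ρ0 x.2 * ((d e1 (d e1 w) x * d e3 (d e3 w) x - d e3 (d e1 w) x ^ 2) * η (Gam w x))
      + ρ0 x.2 * ((d e2 (d e2 w) x * d e3 (d e3 w) x - d e3 (d e2 w) x ^ 2) * η (Gam w x))
      - c * (ρ0 x.2 * (1 * η (Gam w x))) := by
    intro x; unfold Dop; ring
  rw [integral_congr_ae (Eventually.of_forall eR), integral_add_sub3 K1 K2 K3,
    integral_const_mul]
  ring

end Pool.MA74
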