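import Mathlib
import Pool.Agent.MA74.Total

/-!
Weyl's lemma for the operator `∂₁₁ + ∂₂₂ + c ∂₃₃` on open subsets of `ℂ × ℝ`.
-/

set_option autoImplicit false

open MeasureTheory Set Filter Topology Metric
open scoped ContDiff

namespace Pool.MA74

/-- the quadratic form of the inverse metric. -/
noncomputable def qf (c : ℝ) (x : X) : ℝ := x.1.re ^ 2 + x.1.im ^ 2 + x.2 ^ 2 / c

noncomputable def gf (t : ℝ) : ℝ := Real.smoothTransition (1 - t)
noncomputable def hf (t : ℝ) : ℝ := -2 * deriv gf t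

/-- unnormalised kernel. -/
noncomputable def Kf (c δ : ℝ) (x : X) : ℝ := (δ⁻¹) ^ 3 * hf (qf c x * (δ⁻¹) ^ 2)
noncomputable def Gf (c δ : ℝ) (x : X) : ℝ := (δ⁻¹) ^ 2 * gf (qf c x * (δ⁻¹) ^ 2)

theorem contDiff_gf : ContDiff ℝ ∞ gf :=
  Real.smoothTransition.contDiff.comp (contDiff_const.sub contDiff_id)

theorem contDiff_dgf : ContDiff ℝ ∞ (deriv gf) := by
  have : ContDiff ℝ (∞ + 1) gf := contDiff_gf
  exact (contDiff_succ_iff_deriv.1 this).2.2

theorem contDiff_hf : ContDiff ℝ ∞ hf := contDiff_const.mul contDiff_dgf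

theorem gf_zero {t : ℝ} (h : 1 ≤ t) : gf t = 0 :=
  Real.smoothTransition.zero_of_nonpos (by linarith)

theorem gf_one {t : ℝ} (h : t ≤ 0) : gf t = 1 :=
  Real.smoothTransition.one_of_one_le (by linarith)

theorem antitone_gf : Antitone gf := fun s t hst =>
  Real.smoothTransition.monotone (by linarith)

theorem hf_nonneg (t : ℝ) : 0 ≤ hf t := by
  have : deriv gf t ≤ 0 := antitone_gf.deriv_nonpos
  unfold hf; linarith

theorem hf_zero {t : ℝ} (h : 1 ≤ t) : hf t = 0 := by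
  have h1 : deriv gf t = 0 := by
    have hd : HasDerivAt gf (deriv gf t) t :=
      ((contDiff_gf.differentiable (by simp)) t).hasDerivAt
    have h2 : HasDerivWithinAt gf (deriv gf t) (Ici t) t := hd.hasDerivWithinAt
    have h3 : HasDerivWithinAt gf 0 (Ici t) t := by
      refine (hasDerivWithinAt_const t (Ici t) (0 : ℝ)).congr_of_mem ?_ (mem_Ici.2 (le_refl t))
      intro y hy
      exact gf_zero (h.trans hy)
    exact (uniqueDiffOn_Ici t t (mem_Ici.2 (le_refl t))).eq_deriv _ h2 h3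
  unfold hf; rw [h1]; simp

/-- some point where the profile is positive -/
theorem exists_hf_pos : ∃ t ∈ Ioo (0 : ℝ) 1, 0 < hf t := by
  obtain ⟨t, ht, h⟩ := exists_deriv_eq_slope gf (zero_lt_one)
    contDiff_gf.continuous.continuousOn
    (contDiff_gf.differentiable (by simp)).differentiableOn
  refine ⟨t, ht, ?_⟩
  unfold hf
  rw [h, gf_zero le_rfl, gf_one le_rfl]
  norm_num

theorem contDiff_qf (c : ℝ) : ContDiff ℝ ∞ (qf c) := by
  unfold qf
  have h1 : ContDiff ℝ ∞ (fun x : X => x.1.re) := Complex.reCLM.contDiff.comp contDiff_fst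
  have h2 : ContDiff ℝ ∞ (fun x : X => x.1.im) := Complex.imCLM.contDiff.comp contDiff_fst
  exact ((h1.pow 2).add (h2.pow 2)).add ((contDiff_snd.pow 2).div_const c)

theorem contDiff_Kf (c δ : ℝ) : ContDiff ℝ ∞ (Kf c δ) :=
  contDiff_const.mul (contDiff_hf.comp ((contDiff_qf c).mul contDiff_const))

theorem contDiff_Gf (c δ : ℝ) : ContDiff ℝ ∞ (Gf c δ) :=
  contDiff_const.mul (contDiff_gf.comp ((contDiff_qf c).mul contDiff_const))

/-- derivatives of the quadratic form. -/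
theorem d_qf (c : ℝ) (e x : X) :
    d e (qf c) x = 2 * x.1.re * e.1.re + 2 * x.1.im * e.1.im + 2 * x.2 * e.2 / c := by
  have h1 : HasFDerivAt (fun x : X => x.1.re) (Complex.reCLM.comp (ContinuousLinearMap.fst ℝ ℂ ℝ)) x :=
    (Complex.reCLM.comp (ContinuousLinearMap.fst ℝ ℂ ℝ)).hasFDerivAt
  have h2 : HasFDerivAt (fun x : X => x.1.im) (Complex.imCLM.comp (ContinuousLinearMap.fst ℝ ℂ ℝ)) x :=
    (Complex.imCLM.comp (ContinuousLinearMap.fst ℝ ℂ ℝ)).hasFDerivAt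
  have h3 : HasFDerivAt (fun x : X => x.2) (ContinuousLinearMap.snd ℝ ℂ ℝ) x :=
    (ContinuousLinearMap.snd ℝ ℂ ℝ).hasFDerivAt
  have h4 := ((h1.pow 2).add (h2.pow 2)).add ((h3.pow 2).mul_const (c⁻¹))
  have h5 := h4.congr_of_eventuallyEq (f₁ := qf c) (Eventually.of_forall fun y => by
    simp [qf, div_eq_mul_inv])
  unfold d
  rw [h5.fderiv]
  simp
  ring

theorem dd_qf (c : ℝ) (e x : X) :
    d e (d e (qf c)) x = 2 * e.1.re ^ 2 + 2 * e.1.im ^ 2 + 2 * e.2 ^ 2 / c := by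
  have hfun : d e (qf c) = fun x : X => 2 * x.1.re * e.1.re + 2 * x.1.im * e.1.im
      + 2 * x.2 * e.2 / c := funext (d_qf c e)
  have h1 : HasFDerivAt (fun x : X => x.1.re) (Complex.reCLM.comp (ContinuousLinearMap.fst ℝ ℂ ℝ)) x :=
    (Complex.reCLM.comp (ContinuousLinearMap.fst ℝ ℂ ℝ)).hasFDerivAt
  have h2 : HasFDerivAt (fun x : X => x.1.im) (Complex.imCLM.comp (ContinuousLinearMap.fst ℝ ℂ ℝ)) x :=
    (Complex.imCLM.comp (ContinuousLinearMap.fst ℝ ℂ ℝ)).hasFDerivAt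
  have h3 : HasFDerivAt (fun x : X => x.2) (ContinuousLinearMap.snd ℝ ℂ ℝ) x :=
    (ContinuousLinearMap.snd ℝ ℂ ℝ).hasFDerivAt
  have h4 := ((h1.mul_const (2 * e.1.re)).add (h2.mul_const (2 * e.1.im))).add
    (h3.mul_const (2 * e.2 / c))
  have h5 := h4.congr_of_eventuallyEq (f₁ := d e (qf c)) (Eventually.of_forall fun y => by
    rw [hfun]; simp; ring)
  rw [show d e (d e (qf c)) x = fderiv ℝ (d e (qf c)) x e from rfl, h5.fderiv]
  simp
  ring

/-- chain rule for a profile of the quadratic form. -/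
theorem d_profile {φ : ℝ → ℝ} (hφ : ContDiff ℝ ∞ φ) {q : X → ℝ} (hq : ContDiff ℝ ∞ q)
    (r : ℝ) (e x : X) :
    d e (fun y => φ (q y * r)) x = deriv φ (q x * r) * (d e q x * r) := by
  have h1 : HasFDerivAt (fun y => q y * r) (r • fderiv ℝ q x) x :=
    (diff_at hq x).hasFDerivAt.mul_const r
  have h2 := ((hφ.differentiable (by simp)) (q x * r)).hasDerivAt.comp_hasFDerivAt x h1
  unfold d
  have h3 : HasFDerivAt (fun y => φ (q y * r)) _ x := h2
  rw [h3.fderiv]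
  simp [mul_comm, mul_left_comm]

theorem contDiff_deriv {φ : ℝ → ℝ} (hφ : ContDiff ℝ ∞ φ) : ContDiff ℝ ∞ (deriv φ) := by
  have : ContDiff ℝ (∞ + 1) φ := hφ
  exact (contDiff_succ_iff_deriv.1 this).2.2

theorem dd_profile {φ : ℝ → ℝ} (hφ : ContDiff ℝ ∞ φ) {q : X → ℝ} (hq : ContDiff ℝ ∞ q)
    (A r : ℝ) (e x : X) :
    d e (d e (fun y => A * φ (q y * r))) x =
      A * (deriv (deriv φ) (q x * r) * (d e q x * r) ^ 2
        + deriv φ (q x * r) * (d e (d e q) x * r)) := by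
  have cφ : ContDiff ℝ ∞ (fun y => φ (q y * r)) := hφ.comp (hq.mul contDiff_const)
  have cφ' : ContDiff ℝ ∞ (fun y => deriv φ (q y * r)) :=
    (contDiff_deriv hφ).comp (hq.mul contDiff_const)
  have d0 : ∀ (B : ℝ) (y : X), d e (fun _ : X => B) y = 0 := by intro B y; simp [d]
  have h1 : d e (fun y => A * φ (q y * r)) =
      fun y => A * (deriv φ (q y * r) * (d e q y * r)) := by
    funext y
    rw [d_mul contDiff_const cφ, d_profile hφ hq, d0]
    ring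
  rw [h1, d_mul contDiff_const (cφ'.mul ((contDiff_d hq e).mul contDiff_const)),
    d_mul cφ' ((contDiff_d hq e).mul contDiff_const), d_profile (contDiff_deriv hφ) hq,
    d_mul (contDiff_d hq e) contDiff_const, d0, d0]
  ring

theorem Lop_Gf {c δ : ℝ} (hc : 0 < c) (x : X) :
    Lop c (Gf c δ) x = - (δ⁻¹) ^ 4 * (3 * hf (qf c x * (δ⁻¹) ^ 2)
      + 2 * (qf c x * (δ⁻¹) ^ 2) * deriv hf (qf c x * (δ⁻¹) ^ 2)) := by
  unfold Lop Gf
  rw [dd_profile contDiff_gf (contDiff_qf c), dd_profile contDiff_gf (contDiff_qf c),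
    dd_profile contDiff_gf (contDiff_qf c), d_qf, d_qf, d_qf, dd_qf, dd_qf, dd_qf]
  have hh : ∀ t, deriv hf t = -2 * deriv (deriv gf) t := by
    intro t
    unfold hf
    rw [deriv_const_mul_field']
  rw [hh]
  unfold hf qf
  generalize δ⁻¹ = r
  simp only [e1, e2, e3, Complex.one_re, Complex.one_im, Complex.I_re, Complex.I_im,
    Complex.zero_re, Complex.zero_im]
  field_simp
  ring

theorem hasDerivAt_Kf {c δ : ℝ} (hc : 0 < c) (hδ : δ ≠ 0) (x : X) :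
    HasDerivAt (fun τ => Kf c τ x) (Lop c (Gf c δ) x) δ := by
  rw [Lop_Gf hc]
  have h1 : HasDerivAt (fun τ : ℝ => τ⁻¹) (-(δ⁻¹) ^ 2) δ := by
    have := hasDerivAt_inv hδ
    simpa using this
  have h2 : HasDerivAt (fun τ : ℝ => qf c x * (τ⁻¹) ^ 2)
      (qf c x * (2 * δ⁻¹ * (-(δ⁻¹) ^ 2))) δ := by
    have := (h1.pow 2).const_mul (qf c x)
    simpa using this
  have h3 : HasDerivAt (fun τ : ℝ => hf (qf c x * (τ⁻¹) ^ 2))
      (deriv hf (qf c x * (δ⁻¹) ^ 2) * (qf c x * (2 * δ⁻¹ * (-(δ⁻¹) ^ 2)))) δ :=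
    HasDerivAt.comp δ (h₂ := hf) (((contDiff_hf.differentiable (by simp)) _).hasDerivAt) h2
  have h4 := (h1.pow 3).mul h3
  unfold Kf
  refine h4.congr_deriv ?_
  simp only [Nat.cast_ofNat, Pi.pow_apply]
  ring

/-- comparison constant between the form and the sup norm. -/
noncomputable def Cc (c : ℝ) : ℝ := max 1 (Real.sqrt c)

theorem Cc_pos (c : ℝ) : 0 < Cc c := lt_of_lt_of_le one_pos (le_max_left _ _)

theorem norm_le_of_qf {c δ : ℝ} (hc : 0 < c) (hδ : 0 < δ) {x : X} (h : qf c x ≤ δ ^ 2) :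
    ‖x‖ ≤ Cc c * δ := by
  unfold qf at h
  have h3 : 0 ≤ x.2 ^ 2 / c := by positivity
  have h1 : ‖x.1‖ ≤ δ := by
    have : ‖x.1‖ ^ 2 ≤ δ ^ 2 := by
      rw [← Complex.normSq_eq_norm_sq, Complex.normSq_apply]
      nlinarith
    exact abs_le_of_sq_le_sq' this hδ.le |>.2
  have h2 : ‖x.2‖ ≤ Real.sqrt c * δ := by
    have h4 : x.2 ^ 2 / c ≤ δ ^ 2 := by nlinarith [sq_nonneg x.1.re, sq_nonneg x.1.im]
    rw [div_le_iff₀ hc] at h4
    have h5 : x.2 ^ 2 ≤ (Real.sqrt c * δ) ^ 2 := by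
      rw [mul_pow, Real.sq_sqrt hc.le]; linarith
    rw [Real.norm_eq_abs]
    exact abs_le_of_sq_le_sq h5 (by positivity)
  rw [Prod.norm_def]
  refine max_le (h1.trans ?_) (h2.trans ?_)
  · exact le_mul_of_one_le_left hδ.le (le_max_left _ _)
  · exact mul_le_mul_of_nonneg_right (le_max_right _ _) hδ.le

theorem Kf_nonneg {c δ : ℝ} (hδ : 0 < δ) (x : X) : 0 ≤ Kf c δ x := by
  unfold Kf
  have := hf_nonneg (qf c x * δ⁻¹ ^ 2)
  positivity

theorem qf_lt_of_Kf {c δ : ℝ} (hδ : 0 < δ) {x : X} (h : Kf c δ x ≠ 0) : qf c x < δ ^ 2 := by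
  by_contra hh
  apply h
  unfold Kf
  rw [hf_zero, mul_zero]
  rw [inv_pow, ← div_eq_mul_inv, le_div_iff₀ (by positivity)]
  linarith [not_lt.1 hh]

theorem qf_lt_of_Gf {c δ : ℝ} (hδ : 0 < δ) {x : X} (h : Gf c δ x ≠ 0) : qf c x < δ ^ 2 := by
  by_contra hh
  apply h
  unfold Gf
  rw [gf_zero, mul_zero]
  rw [inv_pow, ← div_eq_mul_inv, le_div_iff₀ (by positivity)]
  linarith [not_lt.1 hh]

theorem Kf_eq_zero_of {c δ : ℝ} (hc : 0 < c) (hδ : 0 < δ) {x : X} (h : x ∉ closedBall 0 (Cc c * δ)) :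
    Kf c δ x = 0 := by
  by_contra hne
  exact h (mem_closedBall_zero_iff.2 (norm_le_of_qf hc hδ (qf_lt_of_Kf hδ hne).le))

theorem Gf_eq_zero_of {c δ : ℝ} (hc : 0 < c) (hδ : 0 < δ) {x : X} (h : x ∉ closedBall 0 (Cc c * δ)) :
    Gf c δ x = 0 := by
  by_contra hne
  exact h (mem_closedBall_zero_iff.2 (norm_le_of_qf hc hδ (qf_lt_of_Gf hδ hne).le))

theorem hcs_Kf {c δ : ℝ} (hc : 0 < c) (hδ : 0 < δ) : HasCompactSupport (Kf c δ) :=
  HasCompactSupport.intro (isCompact_closedBall 0 (Cc c * δ)) fun _ h => Kf_eq_zero_of hc hδ h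

theorem hcs_Gf {c δ : ℝ} (hc : 0 < c) (hδ : 0 < δ) : HasCompactSupport (Gf c δ) :=
  HasCompactSupport.intro (isCompact_closedBall 0 (Cc c * δ)) fun _ h => Gf_eq_zero_of hc hδ h

/-- total mass of the kernel. -/
noncomputable def Nf (c : ℝ) : ℝ := ∫ x : X, Kf c 1 x

theorem integral_Kf (c : ℝ) {δ : ℝ} (hδ : 0 < δ) : ∫ x : X, Kf c δ x = Nf c := by
  have h1 : ∀ x : X, Kf c δ x = (δ⁻¹) ^ 3 * Kf c 1 (δ⁻¹ • x) := by
    intro x
    unfold Kf qf
    simp only [Prod.smul_fst, Prod.smul_snd, Complex.real_smul, Complex.mul_re, Complex.mul_im,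
      Complex.ofReal_re, Complex.ofReal_im, smul_eq_mul]
    simp only [inv_one, one_pow, mul_one, one_mul, zero_mul, sub_zero, add_zero]
    congr 2
    ring
  have h2 := Measure.integral_comp_smul (volume : Measure X) (Kf c 1) δ⁻¹
  have h3 : Module.finrank ℝ X = 3 := by
    simp [X, Module.finrank_prod, Complex.finrank_real_complex]
  rw [integral_congr_ae (Eventually.of_forall h1), integral_const_mul, h2, h3]
  unfold Nf
  rw [smul_eq_mul, abs_of_pos (by positivity), ← mul_assoc]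
  have : (δ⁻¹) ^ 3 * ((δ⁻¹) ^ 3)⁻¹ = 1 := mul_inv_cancel₀ (by positivity)
  rw [this, one_mul]

theorem Nf_pos {c : ℝ} (hc : 0 < c) : 0 < Nf c := by
  obtain ⟨t, ht, hpos⟩ := exists_hf_pos
  unfold Nf
  refine (contDiff_Kf c 1).continuous.integral_pos_of_hasCompactSupport_nonneg_nonzero
    (hcs_Kf hc one_pos) (fun x => Kf_nonneg one_pos x) (x := (((Real.sqrt t : ℝ) : ℂ), 0)) ?_
  unfold Kf qf
  have : ((((Real.sqrt t : ℝ) : ℂ)).re ^ 2 + (((Real.sqrt t : ℝ) : ℂ)).im ^ 2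
      + (0 : ℝ) ^ 2 / c) * (1⁻¹ : ℝ) ^ 2 = t := by
    simp [Real.sq_sqrt ht.1.le]
  rw [this]
  simp [hpos.ne']

end Pool.MA74
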