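import Mathlib
import Pool.Agent.MA74.Weyl

set_option autoImplicit false

open MeasureTheory Set Filter Topology Metric
open scoped ContDiff

namespace Pool.MA74

/-- weak solutions on an open set. -/
def Weak (c : ℝ) (O : Set X) (Ψ : X → ℝ) : Prop :=
  ∀ η : X → ℝ, ContDiff ℝ ∞ η → HasCompactSupport η → tsupport η ⊆ O →
    ∫ x, Ψ x * Lop c η x = 0

theorem d_translate {f : X → ℝ} (e x y : X) :
    d e (fun y => f (y - x)) y = d e f (y - x) := by
  unfold d
  rw [fderiv_comp_sub]

theorem dd_translate {f : X → ℝ} (e x y : X) :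
    d e (d e (fun y => f (y - x))) y = d e (d e f) (y - x) := by
  have h : d e (fun y => f (y - x)) = fun y => d e f (y - x) := funext fun y => d_translate e x y
  rw [h, d_translate]

theorem Lop_translate {c : ℝ} {f : X → ℝ} (x y : X) :
    Lop c (fun y => f (y - x)) y = Lop c f (y - x) := by
  unfold Lop
  rw [dd_translate, dd_translate, dd_translate]

theorem cont_mul {O : Set X} (hO : IsOpen O) {Ψ φ : X → ℝ} (hΨ : ContinuousOn Ψ O)
    (hφ : Continuous φ) (hs : tsupport φ ⊆ O) : Continuous (fun y => Ψ y * φ y) := by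
  refine (hΨ.mul hφ.continuousOn).continuous_of_tsupport_subset hO ?_
  refine (closure_minimal ?_ (isClosed_tsupport φ)).trans hs
  intro y hy
  exact subset_tsupport φ (right_ne_zero_of_mul hy)

/-- the explicit form of the derivative of the kernel. -/
noncomputable def Jf (c δ : ℝ) (x : X) : ℝ := - (δ⁻¹) ^ 4 * (3 * hf (qf c x * (δ⁻¹) ^ 2)
      + 2 * (qf c x * (δ⁻¹) ^ 2) * deriv hf (qf c x * (δ⁻¹) ^ 2))

theorem cont_Jf (c : ℝ) (x : X) :
    ContinuousOn (fun p : ℝ × X => Jf c p.1 (p.2 - x)) {p | p.1 ≠ 0} := by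
  have h1 : ContinuousOn (fun p : ℝ × X => (p.1)⁻¹) {p | p.1 ≠ 0} :=
    continuousOn_fst.inv₀ (fun p hp => hp)
  have h2 : Continuous (fun p : ℝ × X => qf c (p.2 - x)) :=
    (contDiff_qf c).continuous.comp (continuous_snd.sub continuous_const)
  have h3 : ContinuousOn (fun p : ℝ × X => qf c (p.2 - x) * ((p.1)⁻¹) ^ 2) {p | p.1 ≠ 0} :=
    h2.continuousOn.mul (h1.pow 2)
  have h4 : ContinuousOn (fun p : ℝ × X => hf (qf c (p.2 - x) * ((p.1)⁻¹) ^ 2)) {p | p.1 ≠ 0} :=
    contDiff_hf.continuous.comp_continuousOn h3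
  have h5 : ContinuousOn (fun p : ℝ × X => deriv hf (qf c (p.2 - x) * ((p.1)⁻¹) ^ 2))
      {p | p.1 ≠ 0} :=
    (contDiff_deriv contDiff_hf).continuous.comp_continuousOn h3
  unfold Jf
  exact ((h1.pow 4).neg).mul ((continuousOn_const.mul h4).add
    ((continuousOn_const.mul h3).mul h5))

theorem tsupport_Kf_sub {c δ : ℝ} (hc : 0 < c) (hδ : 0 < δ) (x : X) :
    tsupport (fun y => Kf c δ (y - x)) ⊆ closedBall x (Cc c * δ) := by
  refine closure_minimal ?_ isClosed_closedBall
  intro y hy
  by_contra h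
  apply hy
  refine Kf_eq_zero_of hc hδ ?_
  rw [mem_closedBall_zero_iff, ← dist_eq_norm]
  exact h

theorem tsupport_Gf_sub {c δ : ℝ} (hc : 0 < c) (hδ : 0 < δ) (x : X) :
    tsupport (fun y => Gf c δ (y - x)) ⊆ closedBall x (Cc c * δ) := by
  refine closure_minimal ?_ isClosed_closedBall
  intro y hy
  by_contra h
  apply hy
  refine Gf_eq_zero_of hc hδ ?_
  rw [mem_closedBall_zero_iff, ← dist_eq_norm]
  exact h

theorem hcs_sub {f : X → ℝ} (x : X) {R : ℝ} (h : tsupport (fun y => f (y - x)) ⊆ closedBall x R) :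
    HasCompactSupport (fun y => f (y - x)) :=
  (isCompact_closedBall x R).of_isClosed_subset (isClosed_tsupport _) h

theorem contDiff_sub {f : X → ℝ} (hf : ContDiff ℝ ∞ f) (x : X) :
    ContDiff ℝ ∞ (fun y => f (y - x)) := hf.comp (contDiff_id.sub contDiff_const)

/-- mean value property of weak solutions. -/
theorem weyl_mean {c : ℝ} (hc : 0 < c) {O : Set X} (hO : IsOpen O) {Ψ : X → ℝ}
    (hΨ : ContinuousOn Ψ O) (hw : Weak c O Ψ) {x : X} {δ0 : ℝ}
    (hball : closedBall x (Cc c * δ0) ⊆ O) {δ : ℝ} (hδ : 0 < δ) (hδ' : δ < δ0) :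
    ∫ y, Ψ y * Kf c δ (y - x) = Nf c * Ψ x := by
  have hCc := Cc_pos c
  have hsub : ∀ τ, τ ≤ δ0 → closedBall x (Cc c * τ) ⊆ O := fun τ hτ =>
    (closedBall_subset_closedBall (mul_le_mul_of_nonneg_left hτ hCc.le)).trans hball
  have hδ0 : 0 < δ0 := hδ.trans hδ'
  set F : ℝ → ℝ := fun τ => ∫ y, Ψ y * Kf c τ (y - x) with hF
  have hcontF : ∀ τ, 0 < τ → τ ≤ δ0 → Continuous (fun y => Ψ y * Kf c τ (y - x)) :=
    fun τ h1 h2 => cont_mul hO hΨ (contDiff_sub (contDiff_Kf c τ) x).continuous
      ((tsupport_Kf_sub hc h1 x).trans (hsub τ h2))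
  have hcsF : ∀ τ, 0 < τ → HasCompactSupport (fun y => Ψ y * Kf c τ (y - x)) :=
    fun τ h1 => (hcs_sub x (tsupport_Kf_sub hc h1 x)).mul_left
  have hder : ∀ τ ∈ Ioo 0 δ0, HasDerivAt F 0 τ := by
    intro τ hτ
    set α := τ / 2 with hα
    set β := (τ + δ0) / 2 with hβ
    have hα0 : 0 < α := by have := hτ.1; positivity
    have hατ : α < τ := by linarith [hτ.1]
    have hτβ : τ < β := by linarith [hτ.2]
    have hβ0 : β < δ0 := by linarith [hτ.2]
    have hcomp : IsCompact (Icc α β ×ˢ closedBall x (Cc c * δ0)) :=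
      isCompact_Icc.prod (isCompact_closedBall _ _)
    obtain ⟨M, hM⟩ := hcomp.exists_bound_of_continuousOn
      (f := fun p : ℝ × X => Ψ p.2 * Jf c p.1 (p.2 - x)) (by
        refine ContinuousOn.mul ?_ ?_
        · exact hΨ.comp continuousOn_snd (fun p hp => hball hp.2)
        · exact (cont_Jf c x).mono (fun p hp => (hα0.trans_le hp.1.1).ne'))
    have hkey := hasDerivAt_integral_of_dominated_loc_of_deriv_le
      (μ := (volume : Measure X)) (F := fun τ y => Ψ y * Kf c τ (y - x))
      (F' := fun τ y => Ψ y * Lop c (Gf c τ) (y - x))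
      (bound := indicator (closedBall x (Cc c * δ0)) (fun _ => M)) (x₀ := τ)
      (s := Ioo α β) (Ioo_mem_nhds hατ hτβ)
      (by
        filter_upwards [Ioo_mem_nhds hατ hτβ] with t ht
        exact (hcontF t (hα0.trans ht.1) (ht.2.trans hβ0).le).aestronglyMeasurable)
      ((hcontF τ hτ.1 hτ.2.le).integrable_of_hasCompactSupport (hcsF τ hτ.1))
      (by
        have : Continuous (fun y => Ψ y * Lop c (Gf c τ) (y - x)) := by
          refine cont_mul hO hΨ (contDiff_sub (contDiff_Lop (contDiff_Gf c τ)) x).continuous ?_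
          have h1 : (fun y => Lop c (Gf c τ) (y - x)) = Lop c (fun y => Gf c τ (y - x)) :=
            funext fun y => (Lop_translate x y).symm
          rw [h1]
          exact (tsupport_Lop_subset c _).trans
            ((tsupport_Gf_sub hc hτ.1 x).trans (hsub τ hτ.2.le))
        exact this.aestronglyMeasurable)
      (by
        refine Eventually.of_forall fun y t ht => ?_
        have ht0 : 0 < t := hα0.trans ht.1
        by_cases hy : y ∈ closedBall x (Cc c * δ0)
        · rw [indicator_of_mem hy]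
          have := hM (t, y) ⟨⟨ht.1.le, ht.2.le⟩, hy⟩
          rw [Lop_Gf hc]
          exact this
        · rw [indicator_of_notMem hy, ← Lop_translate]
          have h1 : y ∉ tsupport (fun y => Gf c t (y - x)) := fun h =>
            hy ((closedBall_subset_closedBall
              (mul_le_mul_of_nonneg_left (ht.2.trans hβ0).le hCc.le))
                (tsupport_Gf_sub hc ht0 x h))
          rw [image_eq_zero_of_notMem_tsupport (fun h => h1 (tsupport_Lop_subset c _ h))]
          simp)
      ((integrable_indicator_iff isClosed_closedBall.measurableSet).2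
        (integrableOn_const (isCompact_closedBall _ _).measure_lt_top.ne))
      (by
        refine Eventually.of_forall fun y t ht => ?_
        exact (hasDerivAt_Kf hc (hα0.trans ht.1).ne' (y - x)).const_mul (Ψ y))
    have hzero : ∫ y, Ψ y * Lop c (Gf c τ) (y - x) = 0 := by
      have h1 : ∀ y, Ψ y * Lop c (Gf c τ) (y - x) =
          Ψ y * Lop c (fun y => Gf c τ (y - x)) y := fun y => by rw [Lop_translate]
      rw [integral_congr_ae (Eventually.of_forall h1)]
      exact hw _ (contDiff_sub (contDiff_Gf c τ) x) (hcs_sub x (tsupport_Gf_sub hc hτ.1 x))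
        ((tsupport_Gf_sub hc hτ.1 x).trans (hsub τ hτ.2.le))
    have := hkey.2
    rw [hzero] at this
    exact this
  -- `F` is constant
  have hconst : ∀ τ ∈ Ioo 0 δ0, F τ = F δ := by
    intro τ hτ
    have hd : DifferentiableOn ℝ F (Ioo 0 δ0) := fun t ht =>
      (hder t ht).differentiableAt.differentiableWithinAt
    refine (convex_Ioo (0:ℝ) δ0).is_const_of_fderivWithin_eq_zero (𝕜 := ℝ) hd ?_ hτ ⟨hδ, hδ'⟩
    intro t ht
    rw [(hder t ht).hasFDerivAt.hasFDerivWithinAt.fderivWithin
      (isOpen_Ioo.uniqueDiffWithinAt ht)]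
    ext; simp
  -- limit
  have hx : x ∈ O := hball (mem_closedBall_self (by positivity))
  have hNpos := Nf_pos hc
  refine eq_of_forall_dist_le fun ε hε => ?_
  have hε' : 0 < ε / Nf c := by positivity
  obtain ⟨r, hr, hrb⟩ := Metric.continuousAt_iff.1 (hΨ.continuousAt (hO.mem_nhds hx)) _ hε'
  set τ := min (δ0 / 2) (r / (2 * Cc c)) with hτdef
  have hτ0 : 0 < τ := lt_min (by positivity) (by positivity)
  have hτδ : τ < δ0 := (min_le_left _ _).trans_lt (by linarith)
  have hτr : Cc c * τ < r := by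
    have : τ ≤ r / (2 * Cc c) := min_le_right _ _
    calc Cc c * τ ≤ Cc c * (r / (2 * Cc c)) := mul_le_mul_of_nonneg_left this hCc.le
      _ = r / 2 := by field_simp
      _ < r := by linarith
  have e1 : ∫ y, Ψ y * Kf c δ (y - x) = F τ := (hconst τ ⟨hτ0, hτδ⟩).symm
  have iK : Integrable (fun y => Kf c τ (y - x)) :=
    (contDiff_sub (contDiff_Kf c τ) x).continuous.integrable_of_hasCompactSupport
      (hcs_sub x (tsupport_Kf_sub hc hτ0 x))
  have iF : Integrable (fun y => Ψ y * Kf c τ (y - x)) :=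
    (hcontF τ hτ0 hτδ.le).integrable_of_hasCompactSupport (hcsF τ hτ0)
  have e2 : Nf c * Ψ x = ∫ y, Ψ x * Kf c τ (y - x) := by
    rw [integral_const_mul, integral_sub_right_eq_self (fun y => Kf c τ y) x,
      integral_Kf c hτ0, mul_comm]
  rw [e1, e2, hF, Real.dist_eq, ← integral_sub iF (iK.const_mul _)]
  calc |∫ y, (Ψ y * Kf c τ (y - x) - Ψ x * Kf c τ (y - x))|
      ≤ ∫ y, |Ψ y * Kf c τ (y - x) - Ψ x * Kf c τ (y - x)| := abs_integral_le_integral_abs
    _ ≤ ∫ y, (ε / Nf c) * Kf c τ (y - x) := by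
        refine integral_mono (iF.sub (iK.const_mul _)).abs (iK.const_mul _) ?_
        intro y
        simp only
        rw [← sub_mul, abs_mul, abs_of_nonneg (Kf_nonneg hτ0 _)]
        by_cases hy : Kf c τ (y - x) = 0
        · rw [hy]; simp
        · refine mul_le_mul_of_nonneg_right ?_ (Kf_nonneg hτ0 _)
          have h1 := norm_le_of_qf hc hτ0 (qf_lt_of_Kf hτ0 hy).le
          have h2 : dist y x < r := by rw [dist_eq_norm]; linarith
          have := hrb h2
          rw [Real.dist_eq] at this
          exact this.le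
    _ = ε := by
        rw [integral_const_mul, integral_sub_right_eq_self (fun y => Kf c τ y) x,
          integral_Kf c hτ0]
        field_simp

theorem Kf_even (c δ : ℝ) (x y : X) : Kf c δ (y - x) = Kf c δ (x - y) := by
  unfold Kf
  have : qf c (y - x) = qf c (x - y) := by
    unfold qf
    simp only [Prod.fst_sub, Prod.snd_sub, Complex.sub_re, Complex.sub_im]
    ring
  rw [this]

/-- Weyl's lemma. -/
theorem weyl_smooth {c : ℝ} (hc : 0 < c) {O : Set X} (hO : IsOpen O) {Ψ : X → ℝ}
    (hΨ : ContinuousOn Ψ O) (hw : Weak c O Ψ) : ContDiffOn ℝ ∞ Ψ O := by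
  intro x0 hx0
  have hCc := Cc_pos c
  obtain ⟨R0, hR0, hRb⟩ := Metric.isOpen_iff.1 hO x0 hx0
  set R := R0 / 3 with hRdef
  have hR : 0 < R := by positivity
  have hball : closedBall x0 (2 * R) ⊆ O :=
    (closedBall_subset_ball (by rw [hRdef]; linarith)).trans hRb
  set δ0 := R / Cc c with hδ0
  have hδ0p : 0 < δ0 := by positivity
  set δ := δ0 / 2 with hδdef
  have hδ : 0 < δ := by positivity
  have hδ' : δ < δ0 := by rw [hδdef]; linarith
  have hCδ0 : Cc c * δ0 = R := by rw [hδ0]; field_simp
  set g : X → ℝ := indicator (closedBall x0 (2 * R)) Ψ with hg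
  have hgint : Integrable g := by
    rw [hg, integrable_indicator_iff isClosed_closedBall.measurableSet]
    exact (hΨ.mono hball).integrableOn_compact (isCompact_closedBall _ _)
  have hconv : ContDiff ℝ ∞ (MeasureTheory.convolution g (Kf c δ)
      (ContinuousLinearMap.lsmul ℝ ℝ) volume) :=
    (hcs_Kf hc hδ).contDiff_convolution_right _ hgint.locallyIntegrable (contDiff_Kf c δ)
  have hEq : ∀ x ∈ ball x0 R, Ψ x = (Nf c)⁻¹ *
      (MeasureTheory.convolution g (Kf c δ) (ContinuousLinearMap.lsmul ℝ ℝ) volume) x := by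
    intro x hx
    have hsub : closedBall x (Cc c * δ0) ⊆ closedBall x0 (2 * R) := by
      rw [hCδ0]
      refine closedBall_subset_closedBall' ?_
      have := mem_ball.1 hx
      linarith
    have hmean := weyl_mean hc hO hΨ hw (hsub.trans hball) hδ hδ'
    have hcv : (MeasureTheory.convolution g (Kf c δ) (ContinuousLinearMap.lsmul ℝ ℝ) volume) x
        = ∫ y, Ψ y * Kf c δ (y - x) := by
      unfold MeasureTheory.convolution
      refine integral_congr_ae (Eventually.of_forall fun y => ?_)
      simp only [ContinuousLinearMap.lsmul_apply, smul_eq_mul]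
      rw [Kf_even c δ x y]
      by_cases hy : y ∈ closedBall x0 (2 * R)
      · rw [hg, indicator_of_mem hy]
      · rw [hg, indicator_of_notMem hy]
        have h1 : Kf c δ (x - y) = 0 := by
          rw [← Kf_even]
          by_contra hne
          apply hy
          apply hsub
          refine (closedBall_subset_closedBall
            (mul_le_mul_of_nonneg_left hδ'.le hCc.le)) ?_
          exact tsupport_Kf_sub hc hδ x (subset_tsupport _ hne)
        rw [h1]; simp
    rw [hcv, hmean]
    have := (Nf_pos hc).ne'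
    field_simp
  have hat : ContDiffAt ℝ ∞ Ψ x0 := by
    refine ((contDiff_const.mul hconv).contDiffAt).congr_of_eventuallyEq
      (f := fun x => (Nf c)⁻¹ * (MeasureTheory.convolution g (Kf c δ)
        (ContinuousLinearMap.lsmul ℝ ℝ) volume) x) ?_
    filter_upwards [ball_mem_nhds x0 hR] with x hx
    exact hEq x hx
  exact hat.contDiffWithinAt

/-- strong minimum principle. -/
theorem weyl_strong {c : ℝ} (hc : 0 < c) {O : Set X} (hO : IsOpen O) {Φ : X → ℝ}
    (hΦ : ContinuousOn Φ O) (hw : Weak c O Φ) (hpos : ∀ x ∈ O, 0 ≤ Φ x) {x : X} (hx : x ∈ O)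
    (h0 : Φ x = 0) : ∀ᶠ y in 𝓝 x, Φ y = 0 := by
  have hCc := Cc_pos c
  obtain ⟨R0, hR0, hRb⟩ := Metric.isOpen_iff.1 hO x hx
  set δ0 := R0 / (2 * Cc c) with hδ0
  have hδ0p : 0 < δ0 := by positivity
  have hCδ0 : Cc c * δ0 = R0 / 2 := by rw [hδ0]; field_simp
  have hball : closedBall x (Cc c * δ0) ⊆ O :=
    (closedBall_subset_ball (by rw [hCδ0]; linarith)).trans hRb
  obtain ⟨t, ht, hpos'⟩ := exists_hf_pos
  have hcq : Continuous (fun y : X => qf c (y - x)) := (contDiff_sub (contDiff_qf c) x).continuous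
  have hev : ∀ᶠ y in 𝓝 x, qf c (y - x) < δ0 ^ 2 * t := by
    refine (hcq.tendsto x).eventually_lt_const ?_
    have : qf c (x - x) = 0 := by simp [qf]
    rw [this]
    have := ht.1
    positivity
  filter_upwards [hev] with y hy
  by_cases hq : qf c (y - x) = 0
  · have : y = x := by
      have h1 : ‖y - x‖ ≤ 0 := by
        refine le_of_forall_pos_le_add fun ε hε => ?_
        have := norm_le_of_qf (δ := ε / Cc c) hc (by positivity) (x := y - x)
          (by rw [hq]; positivity)
        have h2 : Cc c * (ε / Cc c) = ε := by field_simp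
        linarith
      exact sub_eq_zero.1 (norm_le_zero_iff.1 h1)
    rw [this, h0]
  · have hqn : 0 ≤ qf c (y - x) := by unfold qf; positivity
    have hqp : 0 < qf c (y - x) := lt_of_le_of_ne hqn (Ne.symm hq)
    set δ := Real.sqrt (qf c (y - x) / t) with hδdef
    have hδ2 : δ ^ 2 = qf c (y - x) / t := Real.sq_sqrt (by have := ht.1; positivity)
    have hδ : 0 < δ := Real.sqrt_pos.2 (by have := ht.1; positivity)
    have hδ' : δ < δ0 := by
      have : δ ^ 2 < δ0 ^ 2 := by
        rw [hδ2, div_lt_iff₀ ht.1]; exact hy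
      exact lt_of_pow_lt_pow_left₀ 2 hδ0p.le this
    have hmean := weyl_mean hc hO hΦ hw hball hδ hδ'
    rw [h0, mul_zero] at hmean
    have hsub : closedBall x (Cc c * δ) ⊆ O :=
      (closedBall_subset_closedBall (mul_le_mul_of_nonneg_left hδ'.le hCc.le)).trans hball
    have hcont : Continuous (fun y => Φ y * Kf c δ (y - x)) :=
      cont_mul hO hΦ (contDiff_sub (contDiff_Kf c δ) x).continuous
        ((tsupport_Kf_sub hc hδ x).trans hsub)
    have hcs : HasCompactSupport (fun y => Φ y * Kf c δ (y - x)) :=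
      (hcs_sub x (tsupport_Kf_sub hc hδ x)).mul_left
    have hK : 0 < Kf c δ (y - x) := by
      unfold Kf
      have : qf c (y - x) * δ⁻¹ ^ 2 = t := by
        rw [inv_pow, hδ2]
        field_simp
      rw [this]
      positivity
    by_contra hne
    have := hcont.integral_pos_of_hasCompactSupport_nonneg_nonzero hcs (μ := volume)
      (fun z => by
        by_cases hz : Kf c δ (z - x) = 0
        · simp [hz]
        · have hzO : z ∈ O := hsub (tsupport_Kf_sub hc hδ x (subset_tsupport _ hz))
          exact mul_nonneg (hpos z hzO) (Kf_nonneg hδ _)) (x := y)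
      (mul_ne_zero hne hK.ne')
    rw [hmean] at this
    exact lt_irrefl _ this

end Pool.MA74
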