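import Mathlib
import Pool.Agent.MA74.Weyl2

set_option autoImplicit false

open MeasureTheory Set Filter Topology Metric
open scoped ContDiff

namespace Pool.MA74

/-- Data of a `C¹` function approximated by smooth ones with controlled determinants. -/
structure Appr (c : ℝ) (Z : Set ℂ) (S : Set ℝ) (v : X → ℝ) (w : ℕ → X → ℝ) : Prop where
  openZ : IsOpen Z
  openS : IsOpen S
  convS : S.OrdConnected
  smooth : ∀ k, ContDiff ℝ ∞ (w k)
  c1 : ContDiffOn ℝ 1 v (Z ×ˢ S)
  conv : ∀ k, ∀ x ∈ Z ×ˢ S, 0 ≤ d e3 (d e3 (w k)) x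
  det : ∀ k, ∀ x ∈ Z ×ˢ S, 0 ≤ Dop (w k) x
  lim0 : TendstoLocallyUniformlyOn w v atTop (Z ×ˢ S)
  lim1 : ∀ e : X, TendstoLocallyUniformlyOn (fun k => d e (w k)) (d e v) atTop (Z ×ˢ S)
  ma : ∀ χ : X → ℝ, ContDiff ℝ ∞ χ → HasCompactSupport χ → tsupport χ ⊆ Z ×ˢ S →
    Tendsto (fun k => ∫ x, χ x * Dop (w k) x) atTop (𝓝 (c * ∫ x, χ x))

namespace Appr

variable {c : ℝ} {Z : Set ℂ} {S : Set ℝ} {v : X → ℝ} {w : ℕ → X → ℝ}

theorem isOpen (h : Appr c Z S v w) : IsOpen (Z ×ˢ S) := h.openZ.prod h.openS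

theorem diffAt (h : Appr c Z S v w) {x : X} (hx : x ∈ Z ×ˢ S) : DifferentiableAt ℝ v x :=
  (h.c1.contDiffAt (h.isOpen.mem_nhds hx)).differentiableAt (by simp)

theorem cont (h : Appr c Z S v w) : ContinuousOn v (Z ×ˢ S) := h.c1.continuousOn

theorem cont_d (h : Appr c Z S v w) (e : X) : ContinuousOn (d e v) (Z ×ˢ S) := by
  have h1 : ContinuousOn (fderiv ℝ v) (Z ×ˢ S) := h.c1.continuousOn_fderiv_of_isOpen h.isOpen (by simp)
  exact h1.clm_apply continuousOn_const

theorem hasDeriv (h : Appr c Z S v w) {z : ℂ} {s : ℝ} (hz : z ∈ Z) (hs : s ∈ S) :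
    HasDerivAt (fun t => v (z, t)) (d e3 v (z, s)) s :=
  hasDerivAt_snd_slice (h.diffAt ⟨hz, hs⟩)

theorem mono (h : Appr c Z S v w) {z : ℂ} (hz : z ∈ Z) :
    MonotoneOn (fun s => d e3 v (z, s)) S := by
  intro s hs t ht hst
  have hsub : Icc s t ⊆ S := h.convS.out hs ht
  have h1 : ∀ k, d e3 (w k) (z, s) ≤ d e3 (w k) (z, t) := fun k =>
    mono_ds (h.smooth k) (z := z) (a := s) (b := t)
      (fun r hr => h.conv k _ ⟨hz, hsub hr⟩) (left_mem_Icc.2 hst) (right_mem_Icc.2 hst) hst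
  have l1 : Tendsto (fun k => d e3 (w k) (z, s)) atTop (𝓝 (d e3 v (z, s))) :=
    (h.lim1 e3).tendsto_at ⟨hz, hs⟩
  have l2 : Tendsto (fun k => d e3 (w k) (z, t)) atTop (𝓝 (d e3 v (z, t))) :=
    (h.lim1 e3).tendsto_at ⟨hz, ht⟩
  exact le_of_tendsto_of_tendsto' l1 l2 h1

end Appr

/-- local uniform convergence gives eventual uniform bounds on compact sets. -/
theorem ev_bound {U K : Set X} {f : ℕ → X → ℝ} {g : X → ℝ} (hK : IsCompact K) (hKU : K ⊆ U)
    (hf : TendstoLocallyUniformlyOn f g atTop U) (hg : ContinuousOn g U) :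
    ∃ M : ℝ, 0 ≤ M ∧ ∀ᶠ k in atTop, ∀ x ∈ K, |f k x| ≤ M := by
  obtain ⟨M, hM⟩ := hK.exists_bound_of_continuousOn (hg.mono hKU)
  have hu : TendstoUniformlyOn f g atTop K :=
    (tendstoLocallyUniformlyOn_iff_tendstoUniformlyOn_of_compact hK).1 (hf.mono hKU)
  have := Metric.tendstoUniformlyOn_iff.1 hu 1 one_pos
  refine ⟨|M| + 1, by positivity, ?_⟩
  filter_upwards [this] with k hk x hx
  have h1 := hk x hx
  have h2 := hM x hx
  rw [Real.dist_eq] at h1
  rw [Real.norm_eq_abs] at h2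
  have h3 : |f k x| ≤ |g x| + |g x - f k x| := by
    have := abs_sub_abs_le_abs_sub (f k x) (g x)
    rw [abs_sub_comm (f k x)] at this
    linarith
  linarith [le_abs_self M]

/-- the quadratic first order expression of the minor in direction `a`, with `s`-slope `α`. -/
noncomputable def Wint (α : ℝ) (v χ : X → ℝ) (a x : X) : ℝ :=
  d e3 (d a χ) x * (d a v x * (d e3 v x - α)) - (1 / 2) * (d e3 (d e3 χ) x * d a v x ^ 2)
    - (1 / 2) * (d a (d a χ) x * (d e3 v x - α) ^ 2)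

theorem tendsto_Wint {c : ℝ} {Z : Set ℂ} {S : Set ℝ} {v : X → ℝ} {w : ℕ → X → ℝ}
    (h : Appr c Z S v w) (α : ℝ) {χ : X → ℝ} (hχ : ContDiff ℝ ∞ χ) (hc : HasCompactSupport χ)
    (hs : tsupport χ ⊆ Z ×ˢ S) (a : X) :
    Tendsto (fun k => ∫ x, Wint α (w k) χ a x) atTop (𝓝 (∫ x, Wint α v χ a x)) := by
  obtain ⟨M1, hM1, b1⟩ := ev_bound hc hs (h.lim1 a) (h.cont_d a)
  obtain ⟨M3, hM3, b3⟩ := ev_bound hc hs (h.lim1 e3) (h.cont_d e3)
  have x3a := contDiff_d (contDiff_d hχ a) e3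
  have x33 := contDiff_d (contDiff_d hχ e3) e3
  have xaa := contDiff_d (contDiff_d hχ a) a
  have z : ∀ (p q x : X), x ∉ tsupport χ → d p (d q χ) x = 0 := fun p q x hx =>
    image_eq_zero_of_notMem_tsupport (fun hh => hx (tsupport_dd_subset χ p q hh))
  refine tendsto_integral_filter_of_dominated_convergence
    (fun x => |d e3 (d a χ) x| * (M1 * (M3 + |α|)) + |d e3 (d e3 χ) x| * M1 ^ 2
      + |d a (d a χ) x| * (M3 + |α|) ^ 2) ?_ ?_ ?_ ?_
  · refine Eventually.of_forall fun k => ?_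
    have wa := contDiff_d (h.smooth k) a
    have ws := contDiff_d (h.smooth k) e3
    have : ContDiff ℝ ∞ (Wint α (w k) χ a) := by
      unfold Wint
      exact ((x3a.mul (wa.mul (ws.sub contDiff_const))).sub
        (contDiff_const.mul (x33.mul (wa.pow 2)))).sub
        (contDiff_const.mul (xaa.mul ((ws.sub contDiff_const).pow 2)))
    exact this.continuous.aestronglyMeasurable
  · filter_upwards [b1, b3] with k h1 h3
    refine Eventually.of_forall fun x => ?_
    by_cases hx : x ∈ tsupport χ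
    · have k1 := h1 x hx
      have k3 : |d e3 (w k) x - α| ≤ M3 + |α| := (abs_sub _ _).trans (by linarith [h3 x hx])
      unfold Wint
      rw [Real.norm_eq_abs]
      have t1 : |d e3 (d a χ) x * (d a (w k) x * (d e3 (w k) x - α))| ≤
          |d e3 (d a χ) x| * (M1 * (M3 + |α|)) := by
        rw [abs_mul, abs_mul]
        gcongr
      have t2 : |(1 / 2) * (d e3 (d e3 χ) x * d a (w k) x ^ 2)| ≤ |d e3 (d e3 χ) x| * M1 ^ 2 := by
        rw [abs_mul, abs_mul, abs_pow]
        have : |d a (w k) x| ^ 2 ≤ M1 ^ 2 := by gcongr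
        have h5 : |d e3 (d e3 χ) x| * |d a (w k) x| ^ 2 ≤ |d e3 (d e3 χ) x| * M1 ^ 2 := by gcongr
        have h6 : 0 ≤ |d e3 (d e3 χ) x| * |d a (w k) x| ^ 2 := by positivity
        have h7 : |(1 / 2 : ℝ)| = 1 / 2 := by norm_num
        rw [h7]; linarith
      have t3 : |(1 / 2) * (d a (d a χ) x * (d e3 (w k) x - α) ^ 2)| ≤
          |d a (d a χ) x| * (M3 + |α|) ^ 2 := by
        rw [abs_mul, abs_mul, abs_pow]
        have h5 : |d a (d a χ) x| * |d e3 (w k) x - α| ^ 2 ≤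
            |d a (d a χ) x| * (M3 + |α|) ^ 2 := by gcongr
        have h6 : 0 ≤ |d a (d a χ) x| * |d e3 (w k) x - α| ^ 2 := by positivity
        have h7 : |(1 / 2 : ℝ)| = 1 / 2 := by norm_num
        rw [h7]; linarith
      refine (abs_sub _ _).trans ?_
      refine add_le_add ((abs_sub _ _).trans (add_le_add t1 t2)) t3
    · unfold Wint
      rw [z _ _ _ hx, z _ _ _ hx, z _ _ _ hx]
      simp
  · refine (Integrable.add ?_ ?_).add ?_
    · exact ((integrable_of x3a.continuous (hcs_d (hcs_d hc a) e3)).abs).mul_const _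
    · exact ((integrable_of x33.continuous (hcs_d (hcs_d hc e3) e3)).abs).mul_const _
    · exact ((integrable_of xaa.continuous (hcs_d (hcs_d hc a) a)).abs).mul_const _
  · refine Eventually.of_forall fun x => ?_
    by_cases hx : x ∈ tsupport χ
    · have l1 : Tendsto (fun k => d a (w k) x) atTop (𝓝 (d a v x)) :=
        (h.lim1 a).tendsto_at (hs hx)
      have l3 : Tendsto (fun k => d e3 (w k) x) atTop (𝓝 (d e3 v x)) :=
        (h.lim1 e3).tendsto_at (hs hx)
      unfold Wint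
      exact (((l1.mul (l3.sub_const α)).const_mul _).sub
        (((l1.pow 2).const_mul _).const_mul _)).sub
        ((((l3.sub_const α).pow 2).const_mul _).const_mul _)
    · unfold Wint
      rw [z _ _ _ hx, z _ _ _ hx, z _ _ _ hx]
      simp

theorem minor_alpha {w χ : X → ℝ} (hw : ContDiff ℝ ∞ w) (hχ : ContDiff ℝ ∞ χ)
    (hc : HasCompactSupport χ) (α : ℝ) (a : X) (ha : a.2 = 0) :
    ∫ x, χ x * (d a (d a w) x * d e3 (d e3 w) x - d e3 (d a w) x ^ 2) =
      ∫ x, Wint α w χ a x := by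
  set w' : X → ℝ := fun x => w x - α * x.2 with hw'
  have hs : ContDiff ℝ ∞ (fun y : X => α * y.2) := contDiff_const.mul contDiff_snd
  have cw' : ContDiff ℝ ∞ w' := hw.sub hs
  have hd : ∀ e x : X, d e (fun y : X => α * y.2) x = α * e.2 := by
    intro e x
    have := d_rho (ρ0 := fun t => α * t) (contDiff_const.mul contDiff_id) e x
    rw [this]
    congr 1
    simp
  have da : d a w' = d a w := by
    funext x; rw [hw', d_sub hw hs, hd, ha]; ring
  have d3 : d e3 w' = fun x => d e3 w x - α := by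
    funext x; rw [hw', d_sub hw hs, hd]; simp [e3]
  have d0 : ∀ (B : ℝ) (e y : X), d e (fun _ : X => B) y = 0 := by intro B e y; simp [d]
  have d33 : d e3 (d e3 w') = d e3 (d e3 w) := by
    funext x; rw [d3, d_sub (contDiff_d hw e3) contDiff_const, d0]; ring
  have := minor_parts cw' hχ hc a e3
  rw [da, d33, d3] at this
  exact this

/-- first order weak form of the equation. -/
theorem weak_first_order {c : ℝ} {Z : Set ℂ} {S : Set ℝ} {v : X → ℝ} {w : ℕ → X → ℝ}
    (h : Appr c Z S v w) (α : ℝ) {χ : X → ℝ} (hχ : ContDiff ℝ ∞ χ) (hc : HasCompactSupport χ)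
    (hs : tsupport χ ⊆ Z ×ˢ S) :
    c * ∫ x, χ x = (∫ x, Wint α v χ e1 x) + ∫ x, Wint α v χ e2 x := by
  have l1 := tendsto_Wint h α hχ hc hs e1
  have l2 := tendsto_Wint h α hχ hc hs e2
  refine tendsto_nhds_unique (h.ma χ hχ hc hs) ?_
  refine (l1.add l2).congr ?_
  intro k
  have hw := h.smooth k
  rw [← minor_alpha hw hχ hc α e1 rfl, ← minor_alpha hw hχ hc α e2 rfl]
  have cM : ∀ a : X, ContDiff ℝ ∞ (fun x => d a (d a (w k)) x * d e3 (d e3 (w k)) x
      - d e3 (d a (w k)) x ^ 2) := fun a =>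
    ((contDiff_d (contDiff_d hw a) a).mul (contDiff_d (contDiff_d hw e3) e3)).sub
      ((contDiff_d (contDiff_d hw a) e3).pow 2)
  rw [← integral_add]
  · refine integral_congr_ae (Eventually.of_forall fun x => ?_)
    simp only [Dop]; ring
  · exact integrable_of (hχ.mul (cM e1)).continuous hc.mul_right
  · exact integrable_of (hχ.mul (cM e2)).continuous hc.mul_right

end Pool.MA74
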