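import Mathlib
import Pool.Agent.MA74.Limit

set_option autoImplicit false

open MeasureTheory Set Filter Topology Metric
open scoped ContDiff

namespace Pool.MA74

theorem affine_of_convex_concave {g : ℝ → ℝ} {p q : ℝ} (hpq : p < q)
    (h1 : ConvexOn ℝ (Ioo p q) g) (h2 : ConcaveOn ℝ (Ioo p q) g) :
    ∃ A B : ℝ, ∀ s ∈ Ioo p q, g s = A + B * s := by
  have key : ∀ x ∈ Ioo p q, ∀ y ∈ Ioo p q, ∀ t ∈ Icc (0:ℝ) 1,
      g ((1 - t) * x + t * y) = (1 - t) * g x + t * g y := by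
    intro x hx y hy t ht
    have a1 : g ((1 - t) • x + t • y) ≤ (1 - t) • g x + t • g y :=
      h1.2 hx hy (by linarith [ht.2]) ht.1 (by ring)
    have a2 : (1 - t) • g x + t • g y ≤ g ((1 - t) • x + t • y) :=
      h2.2 hx hy (by linarith [ht.2]) ht.1 (by ring)
    simp only [smul_eq_mul] at a1 a2
    exact le_antisymm a1 a2
  set x0 := (2 * p + q) / 3 with hx0
  set x1 := (p + 2 * q) / 3 with hx1
  have m0 : x0 ∈ Ioo p q := ⟨by rw [hx0]; linarith, by rw [hx0]; linarith⟩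
  have m1 : x1 ∈ Ioo p q := ⟨by rw [hx1]; linarith, by rw [hx1]; linarith⟩
  have hlt : 0 < x1 - x0 := by rw [hx0, hx1]; linarith
  refine ⟨g x0 - (g x1 - g x0) / (x1 - x0) * x0, (g x1 - g x0) / (x1 - x0), ?_⟩
  intro s hs
  have goal_iff : g s = g x0 - (g x1 - g x0) / (x1 - x0) * x0 + (g x1 - g x0) / (x1 - x0) * s ↔
      (g s - g x0) * (x1 - x0) = (g x1 - g x0) * (s - x0) := by
    constructor
    · intro h
      rw [h]; field_simp; ring
    · intro h
      have : g s - g x0 = (g x1 - g x0) * (s - x0) / (x1 - x0) := by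
        rw [eq_div_iff hlt.ne']; exact h
      have h' : g s = g x0 + (g x1 - g x0) * (s - x0) / (x1 - x0) := by linarith
      rw [h']; field_simp; ring
  rw [goal_iff]
  rcases le_total s x0 with hc | hc
  · -- x0 between s and x1
    have hp : 0 < x1 - s := by linarith
    have := key s hs x1 m1 ((x0 - s) / (x1 - s))
      ⟨by apply div_nonneg <;> linarith, by rw [div_le_one hp]; linarith⟩
    have e : (1 - (x0 - s) / (x1 - s)) * s + (x0 - s) / (x1 - s) * x1 = x0 := by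
      field_simp; ring
    rw [e] at this
    field_simp at this
    linear_combination -this
  · rcases le_total s x1 with hc2 | hc2
    · have := key x0 m0 x1 m1 ((s - x0) / (x1 - x0))
        ⟨by apply div_nonneg <;> linarith, by rw [div_le_one hlt]; linarith⟩
      have e : (1 - (s - x0) / (x1 - x0)) * x0 + (s - x0) / (x1 - x0) * x1 = s := by
        field_simp; ring
      rw [e] at this
      field_simp at this
      linear_combination this
    · have hp : 0 < s - x0 := by linarith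
      have := key x0 m0 s hs ((x1 - x0) / (s - x0))
        ⟨by apply div_nonneg <;> linarith, by rw [div_le_one hp]; linarith⟩
      have e : (1 - (x1 - x0) / (s - x0)) * x0 + (x1 - x0) / (s - x0) * s = x1 := by
        field_simp; ring
      rw [e] at this
      field_simp at this
      linear_combination -this

/-- difference quotient in the `z` direction. -/
noncomputable def fl (v : X → ℝ) (z1 : ℂ) (l : ℝ) (z : ℂ) (s : ℝ) : ℝ :=
  (v (z1 + l • z, s) - v (z1, s)) / l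

theorem fl_tendsto {v : X → ℝ} {z1 : ℂ} {s : ℝ} (hv : DifferentiableAt ℝ v (z1, s)) (z : ℂ) :
    Tendsto (fun l => fl v z1 l z s) (𝓝[>] 0) (𝓝 (d (z, 0) v (z1, s))) := by
  have h := (hv.hasFDerivAt.hasLineDerivAt ((z, 0) : X)).tendsto_slope_zero_right
  refine h.congr fun l => ?_
  unfold fl
  simp only [smul_eq_mul]
  rw [div_eq_inv_mul]
  congr 2
  simp

theorem fl_hasDeriv {c : ℝ} {Z : Set ℂ} {S : Set ℝ} {v : X → ℝ} {w : ℕ → X → ℝ}
    (h : Appr c Z S v w) {z1 z : ℂ} (hz1 : z1 ∈ Z) {l : ℝ} (hz : z1 + l • z ∈ Z) {s : ℝ}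
    (hs : s ∈ S) : HasDerivAt (fl v z1 l z) ((d e3 v (z1 + l • z, s) - d e3 v (z1, s)) / l) s :=
  ((h.hasDeriv hz hs).sub (h.hasDeriv hz1 hs)).div_const l

theorem fl_tangent {c : ℝ} {Z : Set ℂ} {S : Set ℝ} {v : X → ℝ} {w : ℕ → X → ℝ}
    (h : Appr c Z S v w) {z1 z : ℂ} (hz1 : z1 ∈ Z) {l : ℝ} (hl : 0 < l) (hz : z1 + l • z ∈ Z)
    {p q α : ℝ} (hpq : Icc p q ⊆ S) (hα : ∀ s ∈ Icc p q, d e3 v (z1, s) = α) {s t : ℝ}
    (hs : s ∈ Icc p q) (ht : t ∈ Icc p q) :
    fl v z1 l z s + (d e3 v (z1 + l • z, s) - α) / l * (t - s) ≤ fl v z1 l z t := by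
  refine tangent_le (f := fl v z1 l z) (f' := fun s => (d e3 v (z1 + l • z, s) - α) / l)
    (a := p) (b := q) ?_ ?_ hs ht
  · intro r hr
    have := fl_hasDeriv h hz1 hz (hpq hr)
    rw [hα r hr] at this
    exact this
  · intro a ha b hb hab
    have := h.mono hz (hpq ha) (hpq hb) hab
    simp only at this ⊢
    gcongr

theorem ev_mem {Z : Set ℂ} (hZ : IsOpen Z) {z1 : ℂ} (hz1 : z1 ∈ Z) (z : ℂ) :
    ∀ᶠ l : ℝ in 𝓝[>] 0, z1 + l • z ∈ Z := by
  have hc : Continuous (fun l : ℝ => z1 + l • z) := by fun_prop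
  have : ∀ᶠ l : ℝ in 𝓝 0, z1 + l • z ∈ Z := by
    have h0 : z1 + (0 : ℝ) • z ∈ Z := by simpa using hz1
    exact hc.continuousAt.eventually_mem (hZ.mem_nhds h0)
  exact this.filter_mono nhdsWithin_le_nhds

theorem slice_convex {c : ℝ} {Z : Set ℂ} {S : Set ℝ} {v : X → ℝ} {w : ℕ → X → ℝ}
    (h : Appr c Z S v w) {z1 : ℂ} (hz1 : z1 ∈ Z) {p q α : ℝ} (hpq : Icc p q ⊆ S)
    (hα : ∀ s ∈ Icc p q, d e3 v (z1, s) = α) (z : ℂ) :
    ConvexOn ℝ (Ioo p q) (fun s => d (z, 0) v (z1, s)) := by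
  refine ⟨convex_Ioo p q, ?_⟩
  intro x hx y hy a b ha hb hab
  have hx' := Ioo_subset_Icc_self hx
  have hy' := Ioo_subset_Icc_self hy
  have hm : a • x + b • y ∈ Icc p q := convex_Icc p q hx' hy' ha hb hab
  have lx := fl_tendsto (h.diffAt ⟨hz1, hpq hx'⟩) z
  have ly := fl_tendsto (h.diffAt ⟨hz1, hpq hy'⟩) z
  have lm := fl_tendsto (h.diffAt ⟨hz1, hpq hm⟩) z
  refine le_of_tendsto_of_tendsto lm ((lx.const_smul a).add (ly.const_smul b)) ?_
  filter_upwards [ev_mem h.openZ hz1 z, self_mem_nhdsWithin] with l hl hl0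
  have t1 := fl_tangent h hz1 hl0 hl hpq hα hm hx'
  have t2 := fl_tangent h hz1 hl0 hl hpq hα hm hy'
  simp only [smul_eq_mul] at t1 t2 ⊢
  set D := (d e3 v (z1 + l • z, a * x + b * y) - α) / l
  have e1 := mul_le_mul_of_nonneg_left t1 ha
  have e2 := mul_le_mul_of_nonneg_left t2 hb
  have e3 : a * D * (x - (a * x + b * y)) + b * D * (y - (a * x + b * y)) = 0 := by
    have : b = 1 - a := by linarith
    subst this; ring
  have e4 : fl v z1 l z (a * x + b * y) =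
      a * fl v z1 l z (a * x + b * y) + b * fl v z1 l z (a * x + b * y) := by
    rw [← add_mul, hab, one_mul]
  rw [e4]
  nlinarith

theorem slice_neg {v : X → ℝ} (z : ℂ) (x : X) : d (-z, 0) v x = - d (z, 0) v x := by
  unfold d
  have : ((-z, 0) : X) = -((z, 0) : X) := by simp
  rw [this, map_neg]

theorem slice_affine {c : ℝ} {Z : Set ℂ} {S : Set ℝ} {v : X → ℝ} {w : ℕ → X → ℝ}
    (h : Appr c Z S v w) {z1 : ℂ} (hz1 : z1 ∈ Z) {p q α : ℝ} (hlt : p < q) (hpq : Icc p q ⊆ S)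
    (hα : ∀ s ∈ Icc p q, d e3 v (z1, s) = α) (z : ℂ) :
    ∃ A B : ℝ, ∀ s ∈ Ioo p q, d (z, 0) v (z1, s) = A + B * s := by
  refine affine_of_convex_concave hlt (slice_convex h hz1 hpq hα z) ?_
  have h2 := (slice_convex h hz1 hpq hα (-z)).neg
  refine h2.congr ?_
  intro s _
  simp [slice_neg]

theorem slice_lin {v : X → ℝ} (z : ℂ) (x : X) :
    d (z, 0) v x = z.re * d e1 v x + z.im * d e2 v x := by
  unfold d e1 e2
  have : ((z, 0) : X) = z.re • ((1, 0) : X) + z.im • ((Complex.I, 0) : X) := by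
    ext
    · simp
    · simp
  rw [this, map_add, map_smul, map_smul]
  simp

/-- convergence of the rescaled `s`-derivative. -/
theorem deriv_tendsto {c : ℝ} {Z : Set ℂ} {S : Set ℝ} {v : X → ℝ} {w : ℕ → X → ℝ}
    (h : Appr c Z S v w) {z1 : ℂ} (hz1 : z1 ∈ Z) {p q α : ℝ} (hpq : Icc p q ⊆ S)
    (hα : ∀ s ∈ Icc p q, d e3 v (z1, s) = α) {z : ℂ} {A B : ℝ}
    (hAB : ∀ s ∈ Ioo p q, d (z, 0) v (z1, s) = A + B * s) {s : ℝ} (hs : s ∈ Ioo p q) :
    Tendsto (fun l => (d e3 v (z1 + l • z, s) - α) / l) (𝓝[>] 0) (𝓝 B) := by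
  obtain ⟨r, hr, hr1, hr2⟩ : ∃ r : ℝ, 0 < r ∧ s - r ∈ Ioo p q ∧ s + r ∈ Ioo p q := by
    refine ⟨min (s - p) (q - s) / 2, ?_, ⟨?_, ?_⟩, ⟨?_, ?_⟩⟩
    · have := hs.1; have := hs.2
      have : 0 < min (s - p) (q - s) := lt_min (by linarith) (by linarith)
      positivity
    · have := min_le_left (s - p) (q - s); have := hs.1; linarith
    · have : 0 < min (s - p) (q - s) := lt_min (by linarith [hs.1]) (by linarith [hs.2])
      linarith [hs.2]
    · have : 0 < min (s - p) (q - s) := lt_min (by linarith [hs.1]) (by linarith [hs.2])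
      linarith [hs.1]
    · have := min_le_right (s - p) (q - s); have := hs.2; linarith
  have hs' := Ioo_subset_Icc_self hs
  have ls := fl_tendsto (h.diffAt ⟨hz1, hpq hs'⟩) z
  have lm := fl_tendsto (h.diffAt ⟨hz1, hpq (Ioo_subset_Icc_self hr1)⟩) z
  have lp := fl_tendsto (h.diffAt ⟨hz1, hpq (Ioo_subset_Icc_self hr2)⟩) z
  rw [hAB _ hs] at ls
  rw [hAB _ hr1] at lm
  rw [hAB _ hr2] at lp
  have L1 : Tendsto (fun l => (fl v z1 l z s - fl v z1 l z (s - r)) / r) (𝓝[>] 0) (𝓝 B) := by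
    have := (ls.sub lm).div_const r
    have e : (A + B * s - (A + B * (s - r))) / r = B := by field_simp; ring
    rwa [e] at this
  have L2 : Tendsto (fun l => (fl v z1 l z (s + r) - fl v z1 l z s) / r) (𝓝[>] 0) (𝓝 B) := by
    have := (lp.sub ls).div_const r
    have e : (A + B * (s + r) - (A + B * s)) / r = B := by field_simp; ring
    rwa [e] at this
  refine tendsto_of_tendsto_of_tendsto_of_le_of_le' L1 L2 ?_ ?_
  · filter_upwards [ev_mem h.openZ hz1 z, self_mem_nhdsWithin] with l hl hl0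
    have t := fl_tangent h hz1 hl0 hl hpq hα hs' (Ioo_subset_Icc_self hr1)
    rw [div_le_iff₀ hr]
    linarith
  · filter_upwards [ev_mem h.openZ hz1 z, self_mem_nhdsWithin] with l hl hl0
    have t := fl_tangent h hz1 hl0 hl hpq hα hs' (Ioo_subset_Icc_self hr2)
    rw [le_div_iff₀ hr]
    linarith

/-- the rescaling map. -/
noncomputable def Tl (z1 : ℂ) (l : ℝ) (x : X) : X := (l⁻¹ • (x.1 - z1), x.2)
noncomputable def Ti (z1 : ℂ) (l : ℝ) (y : X) : X := (z1 + l • y.1, y.2)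

theorem Tl_Ti {z1 : ℂ} {l : ℝ} (hl : l ≠ 0) (y : X) : Tl z1 l (Ti z1 l y) = y := by
  unfold Tl Ti
  ext <;> simp [hl]

theorem Ti_Tl {z1 : ℂ} {l : ℝ} (hl : l ≠ 0) (y : X) : Ti z1 l (Tl z1 l y) = y := by
  unfold Tl Ti
  ext <;> simp [hl]

theorem contDiff_Tl (z1 : ℂ) (l : ℝ) : ContDiff ℝ ∞ (Tl z1 l) :=
  ((contDiff_fst.sub contDiff_const).const_smul _).prodMk contDiff_snd

theorem contDiff_Ti (z1 : ℂ) (l : ℝ) : ContDiff ℝ ∞ (Ti z1 l) :=
  (contDiff_const.add (contDiff_fst.const_smul _)).prodMk contDiff_snd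

theorem d_comp_Tl {χ : X → ℝ} (hχ : ContDiff ℝ ∞ χ) (z1 : ℂ) (l : ℝ) (e x : X) :
    d e (fun y => χ (Tl z1 l y)) x = d (l⁻¹ • e.1, e.2) χ (Tl z1 l x) := by
  have h1 : HasFDerivAt (Tl z1 l)
      ((l⁻¹ • ContinuousLinearMap.fst ℝ ℂ ℝ).prod (ContinuousLinearMap.snd ℝ ℂ ℝ)) x := by
    refine HasFDerivAt.prodMk ?_ hasFDerivAt_snd
    exact (hasFDerivAt_fst.sub_const z1).const_smul l⁻¹
  have h2 : HasFDerivAt (fun y => χ (Tl z1 l y)) _ x :=
    (diff_at hχ (Tl z1 l x)).hasFDerivAt.comp x h1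
  unfold d
  rw [h2.fderiv]
  simp

theorem d_smul_dir (l : ℝ) (z : ℂ) (χ : X → ℝ) (x : X) :
    d (l • z, 0) χ x = l * d (z, 0) χ x := by
  unfold d
  have : ((l • z, 0) : X) = l • ((z, 0) : X) := by simp
  rw [this, map_smul, smul_eq_mul]

theorem d_a_Tl {χ : X → ℝ} (hχ : ContDiff ℝ ∞ χ) (z1 : ℂ) (l : ℝ) (z : ℂ) :
    d (z, 0) (fun y => χ (Tl z1 l y)) = fun x => l⁻¹ * d (z, 0) χ (Tl z1 l x) := by
  funext x
  rw [d_comp_Tl hχ]
  exact d_smul_dir _ _ _ _

theorem d_3_Tl {χ : X → ℝ} (hχ : ContDiff ℝ ∞ χ) (z1 : ℂ) (l : ℝ) :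
    d e3 (fun y => χ (Tl z1 l y)) = fun x => d e3 χ (Tl z1 l x) := by
  funext x
  rw [d_comp_Tl hχ]
  simp [e3]

theorem d_const_mul {χ : X → ℝ} (hχ : ContDiff ℝ ∞ χ) (l : ℝ) (e : X) :
    d e (fun y => l * χ y) = fun y => l * d e χ y := by
  funext x
  rw [d_mul contDiff_const hχ]
  have : d e (fun _ : X => l) x = 0 := by simp [d]
  rw [this]; ring

theorem Wint_scaled {v χ : X → ℝ} (hχ : ContDiff ℝ ∞ χ) (z1 : ℂ) {l : ℝ} (hl : l ≠ 0) (α : ℝ)
    (z : ℂ) (y : X) :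
    Wint α v (fun x => χ (Tl z1 l x)) (z, 0) (Ti z1 l y) =
      d e3 (d (z, 0) χ) y * (d (z, 0) v (Ti z1 l y) * ((d e3 v (Ti z1 l y) - α) / l))
      - (1 / 2) * (d e3 (d e3 χ) y * d (z, 0) v (Ti z1 l y) ^ 2)
      - (1 / 2) * (d (z, 0) (d (z, 0) χ) y * ((d e3 v (Ti z1 l y) - α) / l) ^ 2) := by
  have ca := contDiff_d hχ (z, 0)
  have c3 := contDiff_d hχ e3
  have cT := contDiff_Tl z1 l
  unfold Wint
  rw [d_a_Tl hχ, d_3_Tl hχ, d_3_Tl c3,
    d_const_mul (χ := fun x => d (z, 0) χ (Tl z1 l x)) (ca.comp cT),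
    d_const_mul (χ := fun x => d (z, 0) χ (Tl z1 l x)) (ca.comp cT), d_a_Tl ca, d_3_Tl ca]
  simp only [Tl_Ti hl]
  field_simp

/-- change of variables for the anisotropic rescaling. -/
theorem integral_Ti {F : X → ℝ} (hF : Continuous F) (hc : HasCompactSupport F) (z1 : ℂ) {l : ℝ}
    (hl : 0 < l) : ∫ x, F x = l ^ 2 * ∫ y, F (Ti z1 l y) := by
  have hcT : Continuous (Ti z1 l) := (contDiff_Ti z1 l).continuous
  have hFT : Continuous (fun y => F (Ti z1 l y)) := hF.comp hcT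
  have hcT' : HasCompactSupport (fun y => F (Ti z1 l y)) := by
    refine HasCompactSupport.intro (K := Tl z1 l '' tsupport F)
      (hc.image (contDiff_Tl z1 l).continuous) ?_
    intro y hy
    by_contra hne
    exact hy ⟨Ti z1 l y, subset_tsupport F hne, Tl_Ti hl.ne' y⟩
  have i1 := integrable_of hF hc
  have i2 := integrable_of hFT hcT'
  have V : (volume : Measure X) = (volume : Measure ℂ).prod (volume : Measure ℝ) := rfl
  rw [V] at i1 i2 ⊢
  rw [integral_prod_symm _ i1, integral_prod_symm _ i2, ← integral_const_mul]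
  refine integral_congr_ae (Eventually.of_forall fun s => ?_)
  simp only [Ti]
  have h1 := Measure.integral_comp_smul (volume : Measure ℂ) (fun z => F (z1 + z, s)) l
  have h2 : Module.finrank ℝ ℂ = 2 := Complex.finrank_real_complex
  rw [h2] at h1
  rw [h1, smul_eq_mul, abs_of_pos (by positivity), ← mul_assoc, mul_inv_cancel₀ (by positivity),
    one_mul]
  exact (integral_add_left_eq_self (fun z => F (z, s)) z1).symm

end Pool.MA74
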