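import Mathlib
import Pool.Agent.MA74.NoAffine

set_option autoImplicit false

open MeasureTheory Set Filter Topology Metric
open scoped ContDiff

namespace Pool.MA74

theorem cont_Wint {c : ℝ} {Z : Set ℂ} {S : Set ℝ} {v : X → ℝ} {w : ℕ → X → ℝ}
    (h : Appr c Z S v w) (α : ℝ) {χ : X → ℝ} (hχ : ContDiff ℝ ∞ χ)
    (hs : tsupport χ ⊆ Z ×ˢ S) (a : X) : Continuous (Wint α v χ a) := by
  have x3a := contDiff_d (contDiff_d hχ a) e3
  have x33 := contDiff_d (contDiff_d hχ e3) e3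
  have xaa := contDiff_d (contDiff_d hχ a) a
  have ca := h.cont_d a
  have c3 := h.cont_d e3
  have t : ∀ p q : X, tsupport (d p (d q χ)) ⊆ Z ×ˢ S := fun p q =>
    (tsupport_dd_subset χ p q).trans hs
  have k1 := cont_mul h.isOpen (ca.mul (c3.sub (continuousOn_const (c := α)))) x3a.continuous (t _ _)
  have k2 := cont_mul h.isOpen (ca.pow 2) x33.continuous (t _ _)
  have k3 := cont_mul h.isOpen ((c3.sub (continuousOn_const (c := α))).pow 2) xaa.continuous (t _ _)
  refine ((k1.sub (k2.const_mul (1 / 2))).sub (k3.const_mul (1 / 2))).congr ?_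
  intro x
  simp only [Wint, Pi.sub_apply, Pi.mul_apply, Pi.pow_apply]
  ring

theorem hcs_Wint (α : ℝ) (v : X → ℝ) {χ : X → ℝ} (hc : HasCompactSupport χ) (a : X) :
    HasCompactSupport (Wint α v χ a) := by
  refine HasCompactSupport.intro hc ?_
  intro x hx
  have z : ∀ (p q : X), d p (d q χ) x = 0 := fun p q =>
    image_eq_zero_of_notMem_tsupport (fun hh => hx (tsupport_dd_subset χ p q hh))
  unfold Wint
  rw [z, z, z]; simp

/-- the blow-up limit. -/
noncomputable def Wsm (A1 B1 A2 B2 : ℝ) (x : X) : ℝ :=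
  (A1 + B1 * x.2) * x.1.re + (A2 + B2 * x.2) * x.1.im

theorem contDiff_Wsm (A1 B1 A2 B2 : ℝ) : ContDiff ℝ ∞ (Wsm A1 B1 A2 B2) := by
  unfold Wsm
  have h1 : ContDiff ℝ ∞ (fun x : X => x.1.re) := Complex.reCLM.contDiff.comp contDiff_fst
  have h2 : ContDiff ℝ ∞ (fun x : X => x.1.im) := Complex.imCLM.contDiff.comp contDiff_fst
  have h3 : ContDiff ℝ ∞ (fun x : X => x.2) := contDiff_snd
  exact ((contDiff_const.add (contDiff_const.mul h3)).mul h1).add
    ((contDiff_const.add (contDiff_const.mul h3)).mul h2)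

theorem d_Wsm (A1 B1 A2 B2 : ℝ) (e x : X) :
    d e (Wsm A1 B1 A2 B2) x = (A1 + B1 * x.2) * e.1.re + B1 * e.2 * x.1.re
      + (A2 + B2 * x.2) * e.1.im + B2 * e.2 * x.1.im := by
  have h1 : HasFDerivAt (fun x : X => x.1.re) (Complex.reCLM.comp (ContinuousLinearMap.fst ℝ ℂ ℝ)) x :=
    (Complex.reCLM.comp (ContinuousLinearMap.fst ℝ ℂ ℝ)).hasFDerivAt
  have h2 : HasFDerivAt (fun x : X => x.1.im) (Complex.imCLM.comp (ContinuousLinearMap.fst ℝ ℂ ℝ)) x :=
    (Complex.imCLM.comp (ContinuousLinearMap.fst ℝ ℂ ℝ)).hasFDerivAt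
  have h3 : HasFDerivAt (fun x : X => x.2) (ContinuousLinearMap.snd ℝ ℂ ℝ) x :=
    (ContinuousLinearMap.snd ℝ ℂ ℝ).hasFDerivAt
  have h4 := (((h3.const_mul B1).const_add A1).mul h1).add (((h3.const_mul B2).const_add A2).mul h2)
  have h5 := h4.congr_of_eventuallyEq (f₁ := Wsm A1 B1 A2 B2)
    (Eventually.of_forall fun y => by simp [Wsm])
  unfold d
  rw [h5.fderiv]
  simp
  ring

/-- no segment on which `v (z1, ·)` is affine. -/
theorem Appr.strict {c : ℝ} (hc : 0 < c) {Z : Set ℂ} {S : Set ℝ} {v : X → ℝ} {w : ℕ → X → ℝ}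
    (h : Appr c Z S v w) {z1 : ℂ} (hz1 : z1 ∈ Z) :
    StrictMonoOn (fun s => d e3 v (z1, s)) S := by
  intro p hp q hq hlt
  refine lt_of_le_of_ne (h.mono hz1 hp hq hlt.le) ?_
  intro heq
  simp only at heq
  have hpq : Icc p q ⊆ S := h.convS.out hp hq
  set α := d e3 v (z1, p) with hαdef
  have hα : ∀ s ∈ Icc p q, d e3 v (z1, s) = α := by
    intro s hs
    have l1 := h.mono hz1 hp (hpq hs) hs.1
    have l2 := h.mono hz1 (hpq hs) hq hs.2
    simp only at l1 l2
    exact le_antisymm (l2.trans heq.symm.le) l1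
  obtain ⟨A1, B1, hAB1⟩ := slice_affine h hz1 hlt hpq hα 1
  obtain ⟨A2, B2, hAB2⟩ := slice_affine h hz1 hlt hpq hα Complex.I
  have hABz : ∀ z : ℂ, ∀ s ∈ Ioo p q, d (z, 0) v (z1, s) =
      (A1 * z.re + A2 * z.im) + (B1 * z.re + B2 * z.im) * s := by
    intro z s hs
    rw [slice_lin]
    have k1 : d e1 v (z1, s) = A1 + B1 * s := hAB1 s hs
    have k2 : d e2 v (z1, s) = A2 + B2 * s := hAB2 s hs
    rw [k1, k2]; ring
  -- radii
  obtain ⟨l0, hl0, hl0b⟩ : ∃ l0 : ℝ, 0 < l0 ∧ closedBall z1 l0 ⊆ Z := by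
    obtain ⟨R, hR, hb⟩ := Metric.isOpen_iff.1 h.openZ z1 hz1
    exact ⟨R / 2, by positivity, (closedBall_subset_ball (by linarith)).trans hb⟩
  set m := (p + q) / 2 with hm
  set r := min 1 ((q - p) / 4) with hr
  have hr0 : 0 < r := lt_min one_pos (by linarith)
  have hr1 : r ≤ 1 := min_le_left _ _
  have hr2 : r ≤ (q - p) / 4 := min_le_right _ _
  -- the bump
  let B : ContDiffBump ((0, m) : X) := ⟨r / 2, r, by positivity, by linarith⟩
  set χ : X → ℝ := fun x => B x with hχdef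
  have hχ : ContDiff ℝ ∞ χ := B.contDiff
  have hχc : HasCompactSupport χ := B.hasCompactSupport
  have hχs : tsupport χ ⊆ closedBall ((0, m) : X) r := by
    rw [hχdef]; exact B.tsupport_eq.subset
  have hχpos : 0 < ∫ x, χ x := B.integral_pos
  have hsup : ∀ y ∈ tsupport χ, ‖y.1‖ ≤ 1 ∧ y.2 - r ∈ Icc p q ∧ y.2 + r ∈ Icc p q ∧
      y.2 ∈ Ioo p q := by
    intro y hy
    have h1 := mem_closedBall.1 (hχs hy)
    rw [Prod.dist_eq] at h1
    have h2 : dist y.1 0 ≤ r := (le_max_left _ _).trans h1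
    have h3 : dist y.2 m ≤ r := (le_max_right _ _).trans h1
    rw [dist_zero_right] at h2
    rw [Real.dist_eq, abs_le] at h3
    refine ⟨h2.trans hr1, ⟨?_, ?_⟩, ⟨?_, ?_⟩, ⟨?_, ?_⟩⟩ <;> (rw [hm] at h3; linarith [h3.1, h3.2])
  have hTi : ∀ l : ℝ, 0 < l → l ≤ l0 → ∀ y ∈ tsupport χ, Ti z1 l y ∈ closedBall z1 l0 ×ˢ Icc p q := by
    intro l h1 h2 y hy
    obtain ⟨k1, -, -, k4⟩ := hsup y hy
    refine ⟨?_, Ioo_subset_Icc_self k4⟩
    simp only [Ti, mem_closedBall, dist_self_add_left, norm_smul, Real.norm_eq_abs,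
      abs_of_pos h1]
    nlinarith [norm_nonneg y.1]
  have hcompact : IsCompact (closedBall z1 l0 ×ˢ Icc p q) :=
    (isCompact_closedBall _ _).prod isCompact_Icc
  have hsubU : closedBall z1 l0 ×ˢ Icc p q ⊆ Z ×ˢ S := prod_mono hl0b hpq
  -- bound of the derivative
  obtain ⟨M, hM⟩ := hcompact.exists_bound_of_continuousOn (f := fderiv ℝ v)
    ((h.c1.continuousOn_fderiv_of_isOpen h.isOpen (by simp)).mono hsubU)
  have hM0 : 0 ≤ M := (norm_nonneg _).trans
    (hM (z1, p) ⟨mem_closedBall_self hl0.le, left_mem_Icc.2 hlt.le⟩)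
  have hfl : ∀ l : ℝ, 0 < l → l ≤ l0 → ∀ z : ℂ, ‖z‖ ≤ 1 → ∀ s ∈ Icc p q,
      |fl v z1 l z s| ≤ M := by
    intro l h1 h2 z hz s hs
    have hconv : Convex ℝ (closedBall z1 l0 ×ˢ Icc p q) :=
      (convex_closedBall z1 l0).prod (convex_Icc p q)
    have hz' : z1 + l • z ∈ closedBall z1 l0 := by
      simp only [mem_closedBall, dist_self_add_left, norm_smul, Real.norm_eq_abs, abs_of_pos h1]
      nlinarith [norm_nonneg z]
    have hmv := hconv.norm_image_sub_le_of_norm_fderiv_le (𝕜 := ℝ) (f := v) (C := M)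
      (x := (z1, s)) (y := (z1 + l • z, s))
      (fun x hx => h.diffAt (hsubU hx)) (fun x hx => hM x hx)
      ⟨mem_closedBall_self hl0.le, hs⟩ ⟨hz', hs⟩
    have hn : ‖((z1 + l • z, s) : X) - (z1, s)‖ = l * ‖z‖ := by
      have : ((z1 + l • z, s) : X) - (z1, s) = (l • z, 0) := by simp
      rw [this, Prod.norm_def]
      simp [abs_of_pos h1]
      positivity
    rw [hn, Real.norm_eq_abs] at hmv
    unfold fl
    rw [abs_div, abs_of_pos h1, div_le_iff₀ h1]
    calc |v (z1 + l • z, s) - v (z1, s)| ≤ M * (l * ‖z‖) := hmv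
      _ ≤ M * (l * 1) := by gcongr
      _ = M * l := by ring
  have hD : ∀ l : ℝ, 0 < l → l ≤ l0 → ∀ y ∈ tsupport χ,
      |(d e3 v (Ti z1 l y) - α) / l| ≤ 2 * M / r := by
    intro l h1 h2 y hy
    obtain ⟨k1, k2, k3, k4⟩ := hsup y hy
    have hz' : z1 + l • y.1 ∈ Z := hl0b (hTi l h1 h2 y hy).1
    have k4' := Ioo_subset_Icc_self k4
    have t1 := fl_tangent h hz1 h1 hz' hpq hα k4' k2
    have t2 := fl_tangent h hz1 h1 hz' hpq hα k4' k3
    have f0 := abs_le.1 (hfl l h1 h2 y.1 k1 y.2 k4')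
    have f1 := abs_le.1 (hfl l h1 h2 y.1 k1 _ k2)
    have f2 := abs_le.1 (hfl l h1 h2 y.1 k1 _ k3)
    have hE : (d e3 v (Ti z1 l y) - α) / l = (d e3 v (z1 + l • y.1, y.2) - α) / l := rfl
    rw [hE, abs_le]
    constructor
    · rw [neg_le_iff_add_nonneg, ← sub_nonneg]
      have : 0 ≤ ((d e3 v (z1 + l • y.1, y.2) - α) / l * r + 2 * M) / r := by
        apply div_nonneg _ hr0.le
        nlinarith
      have e : (d e3 v (z1 + l • y.1, y.2) - α) / l + 2 * M / r - 0 =
        ((d e3 v (z1 + l • y.1, y.2) - α) / l * r + 2 * M) / r := by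
        field_simp
        ring
      rw [e]; exact this
    · rw [le_div_iff₀ hr0]
      nlinarith
  -- the sequence
  set ln : ℕ → ℝ := fun n => l0 / (n + 1) with hln
  have hlnpos : ∀ n, 0 < ln n := fun n => by rw [hln]; positivity
  have hlnle : ∀ n, ln n ≤ l0 := fun n => by
    rw [hln]; exact div_le_self hl0.le (by have : (0:ℝ) ≤ n := Nat.cast_nonneg n; linarith)
  have hlnlim : Tendsto ln atTop (𝓝[>] 0) := by
    rw [tendsto_nhdsWithin_iff]
    refine ⟨?_, Eventually.of_forall fun n => hlnpos n⟩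
    exact (tendsto_const_div_atTop_nhds_zero_nat l0).comp (tendsto_add_atTop_nat 1) |>.congr
      (fun n => by simp [hln])
  -- the scaled equation
  have hscaled : ∀ n, c * ∫ x, χ x =
      (∫ y, Wint α v (fun x => χ (Tl z1 (ln n) x)) e1 (Ti z1 (ln n) y)) +
      ∫ y, Wint α v (fun x => χ (Tl z1 (ln n) x)) e2 (Ti z1 (ln n) y) := by
    intro n
    have hl := hlnpos n
    set l := ln n with hl'
    set χl : X → ℝ := fun x => χ (Tl z1 l x) with hχl
    have cχl : ContDiff ℝ ∞ χl := hχ.comp (contDiff_Tl z1 l)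
    have hKc : IsCompact (Ti z1 l '' tsupport χ) := hχc.image (contDiff_Ti z1 l).continuous
    have hts : tsupport χl ⊆ Ti z1 l '' tsupport χ := by
      refine closure_minimal ?_ hKc.isClosed
      intro x hx
      exact ⟨Tl z1 l x, subset_tsupport χ hx, Ti_Tl hl.ne' x⟩
    have hsc : HasCompactSupport χl := hKc.of_isClosed_subset (isClosed_tsupport _) hts
    have hsU : tsupport χl ⊆ Z ×ˢ S := by
      refine hts.trans ?_
      rintro _ ⟨y, hy, rfl⟩
      exact hsubU (hTi l hl (hlnle n) y hy)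
    have hwf := weak_first_order h α cχl hsc hsU
    rw [integral_Ti cχl.continuous hsc z1 hl,
      integral_Ti (cont_Wint h α cχl hsU e1) (hcs_Wint α v hsc e1) z1 hl,
      integral_Ti (cont_Wint h α cχl hsU e2) (hcs_Wint α v hsc e2) z1 hl] at hwf
    have e0 : ∀ y, χl (Ti z1 l y) = χ y := fun y => by rw [hχl]; simp only [Tl_Ti hl.ne']
    rw [integral_congr_ae (Eventually.of_forall e0)] at hwf
    have hl2 : l ^ 2 ≠ 0 := by positivity
    have : l ^ 2 * (c * ∫ x, χ x) = l ^ 2 * ((∫ y, Wint α v χl e1 (Ti z1 l y)) +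
      ∫ y, Wint α v χl e2 (Ti z1 l y)) := by linarith
    exact mul_left_cancel₀ hl2 this
  -- the limit
  have hlimit : ∀ z : ℂ, ‖z‖ ≤ 1 → Tendsto (fun n =>
      ∫ y, Wint α v (fun x => χ (Tl z1 (ln n) x)) (z, 0) (Ti z1 (ln n) y)) atTop
      (𝓝 (∫ y, Wint 0 (Wsm A1 B1 A2 B2) χ (z, 0) y)) := by
    intro z hz
    have x3a := contDiff_d (contDiff_d hχ (z, 0)) e3
    have x33 := contDiff_d (contDiff_d hχ e3) e3
    have xaa := contDiff_d (contDiff_d hχ (z, 0)) (z, 0)
    have zz : ∀ (p q x : X), x ∉ tsupport χ → d p (d q χ) x = 0 := fun p q x hx =>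
      image_eq_zero_of_notMem_tsupport (fun hh => hx (tsupport_dd_subset χ p q hh))
    set N := 2 * M / r with hN
    have hN0 : 0 ≤ N := by positivity
    refine tendsto_integral_of_dominated_convergence
      (fun x => |d e3 (d (z, 0) χ) x| * (M * N) + |d e3 (d e3 χ) x| * M ^ 2
        + |d (z, 0) (d (z, 0) χ) x| * N ^ 2) ?_ ?_ ?_ ?_
    · intro n
      have hl := hlnpos n
      set l := ln n with hl'
      have cχl : ContDiff ℝ ∞ (fun x => χ (Tl z1 l x)) := hχ.comp (contDiff_Tl z1 l)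
      have hKc : IsCompact (Ti z1 l '' tsupport χ) := hχc.image (contDiff_Ti z1 l).continuous
      have hts : tsupport (fun x => χ (Tl z1 l x)) ⊆ Ti z1 l '' tsupport χ := by
        refine closure_minimal ?_ hKc.isClosed
        intro x hx
        exact ⟨Tl z1 l x, subset_tsupport χ hx, Ti_Tl hl.ne' x⟩
      have hsU : tsupport (fun x => χ (Tl z1 l x)) ⊆ Z ×ˢ S := by
        refine hts.trans ?_
        rintro _ ⟨y, hy, rfl⟩
        exact hsubU (hTi l hl (hlnle n) y hy)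
      exact ((cont_Wint h α cχl hsU (z, 0)).comp (contDiff_Ti z1 l).continuous).aestronglyMeasurable
    · refine (Integrable.add ?_ ?_).add ?_
      · exact ((integrable_of x3a.continuous (hcs_d (hcs_d hχc _) e3)).abs).mul_const _
      · exact ((integrable_of x33.continuous (hcs_d (hcs_d hχc e3) e3)).abs).mul_const _
      · exact ((integrable_of xaa.continuous (hcs_d (hcs_d hχc _) _)).abs).mul_const _
    · intro n
      refine Eventually.of_forall fun y => ?_
      have hl := hlnpos n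
      rw [Wint_scaled hχ z1 hl.ne' α z y, Real.norm_eq_abs]
      by_cases hy : y ∈ tsupport χ
      · have k3 := hD (ln n) hl (hlnle n) y hy
        have k1 : |d (z, 0) v (Ti z1 (ln n) y)| ≤ M := by
          unfold d
          rw [← Real.norm_eq_abs]
          refine ((fderiv ℝ v _).le_opNorm _).trans ?_
          have h1 := hM _ (hTi (ln n) hl (hlnle n) y hy)
          have h2 : ‖((z, 0) : X)‖ ≤ 1 := by
            rw [Prod.norm_def]; simpa using hz
          calc ‖fderiv ℝ v (Ti z1 (ln n) y)‖ * ‖((z, 0) : X)‖ ≤ M * 1 := by gcongr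
            _ = M := mul_one M
        have t1 : |d e3 (d (z, 0) χ) y * (d (z, 0) v (Ti z1 (ln n) y) *
            ((d e3 v (Ti z1 (ln n) y) - α) / ln n))| ≤ |d e3 (d (z, 0) χ) y| * (M * N) := by
          rw [abs_mul, abs_mul]
          gcongr
        have t2 : |(1 / 2) * (d e3 (d e3 χ) y * d (z, 0) v (Ti z1 (ln n) y) ^ 2)| ≤
            |d e3 (d e3 χ) y| * M ^ 2 := by
          rw [abs_mul, abs_mul, abs_pow]
          have h5 : |d e3 (d e3 χ) y| * |d (z, 0) v (Ti z1 (ln n) y)| ^ 2 ≤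
            |d e3 (d e3 χ) y| * M ^ 2 := by gcongr
          have h6 : 0 ≤ |d e3 (d e3 χ) y| * |d (z, 0) v (Ti z1 (ln n) y)| ^ 2 := by positivity
          have h7 : |(1 / 2 : ℝ)| = 1 / 2 := by norm_num
          rw [h7]; linarith
        have t3 : |(1 / 2) * (d (z, 0) (d (z, 0) χ) y *
            ((d e3 v (Ti z1 (ln n) y) - α) / ln n) ^ 2)| ≤
            |d (z, 0) (d (z, 0) χ) y| * N ^ 2 := by
          rw [abs_mul, abs_mul, abs_pow]
          have h5 : |d (z, 0) (d (z, 0) χ) y| * |(d e3 v (Ti z1 (ln n) y) - α) / ln n| ^ 2 ≤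
            |d (z, 0) (d (z, 0) χ) y| * N ^ 2 := by gcongr
          have h6 : 0 ≤ |d (z, 0) (d (z, 0) χ) y| * |(d e3 v (Ti z1 (ln n) y) - α) / ln n| ^ 2 := by
            positivity
          have h7 : |(1 / 2 : ℝ)| = 1 / 2 := by norm_num
          rw [h7]; linarith
        refine (abs_sub _ _).trans ?_
        exact add_le_add ((abs_sub _ _).trans (add_le_add t1 t2)) t3
      · rw [zz _ _ _ hy, zz _ _ _ hy, zz _ _ _ hy]
        simp
    · refine Eventually.of_forall fun y => ?_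
      by_cases hy : y ∈ tsupport χ
      · obtain ⟨k1, k2, k3, k4⟩ := hsup y hy
        have k4' := Ioo_subset_Icc_self k4
        have L3 : Tendsto (fun n => (d e3 v (Ti z1 (ln n) y) - α) / ln n) atTop
            (𝓝 (B1 * y.1.re + B2 * y.1.im)) :=
          (deriv_tendsto h hz1 hpq hα (hABz y.1) k4).comp hlnlim
        have L1 : Tendsto (fun n => d (z, 0) v (Ti z1 (ln n) y)) atTop
            (𝓝 (d (z, 0) v (z1, y.2))) := by
          have hca : ContinuousAt (d (z, 0) v) (z1, y.2) :=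
            (h.cont_d (z, 0)).continuousAt (h.isOpen.mem_nhds ⟨hz1, hpq k4'⟩)
          have hT : Tendsto (fun n => Ti z1 (ln n) y) atTop (𝓝 (z1, y.2)) := by
            have h0 : Tendsto ln atTop (𝓝 0) := hlnlim.mono_right nhdsWithin_le_nhds
            have : Tendsto (fun n => ((z1 + ln n • y.1, y.2) : X)) atTop
                (𝓝 (z1 + (0 : ℝ) • y.1, y.2)) :=
              ((h0.smul_const y.1).const_add z1).prodMk_nhds tendsto_const_nhds
            rw [zero_smul, add_zero] at this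
            exact this
          exact hca.tendsto.comp hT
        rw [hABz z _ k4] at L1
        have hfun : ∀ n, Wint α v (fun x => χ (Tl z1 (ln n) x)) (z, 0) (Ti z1 (ln n) y) = _ :=
          fun n => Wint_scaled hχ z1 (hlnpos n).ne' α z y
        simp only [hfun]
        have hlim : Wint 0 (Wsm A1 B1 A2 B2) χ (z, 0) y =
            d e3 (d (z, 0) χ) y * (((A1 * z.re + A2 * z.im) + (B1 * z.re + B2 * z.im) * y.2)
              * (B1 * y.1.re + B2 * y.1.im))
            - (1 / 2) * (d e3 (d e3 χ) y *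
              ((A1 * z.re + A2 * z.im) + (B1 * z.re + B2 * z.im) * y.2) ^ 2)
            - (1 / 2) * (d (z, 0) (d (z, 0) χ) y * (B1 * y.1.re + B2 * y.1.im) ^ 2) := by
          unfold Wint
          rw [d_Wsm, d_Wsm]
          simp only [e3, Complex.zero_re, Complex.zero_im]
          ring
        rw [hlim]
        exact ((((L1.mul L3).const_mul _)).sub (((L1.pow 2).const_mul _).const_mul _)).sub
          (((L3.pow 2).const_mul _).const_mul _)
      · have hfun : ∀ n, Wint α v (fun x => χ (Tl z1 (ln n) x)) (z, 0) (Ti z1 (ln n) y) = _ :=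
          fun n => Wint_scaled hχ z1 (hlnpos n).ne' α z y
        simp only [hfun]
        unfold Wint
        rw [zz _ _ _ hy, zz _ _ _ hy, zz _ _ _ hy]
        simp
  have l1 := hlimit 1 (by simp)
  have l2 := hlimit Complex.I (by simp)
  have hfin : c * ∫ x, χ x = (∫ y, Wint 0 (Wsm A1 B1 A2 B2) χ (1, 0) y) +
      ∫ y, Wint 0 (Wsm A1 B1 A2 B2) χ (Complex.I, 0) y :=
    tendsto_nhds_unique (tendsto_const_nhds.congr hscaled) (l1.add l2)
  have hW := contDiff_Wsm A1 B1 A2 B2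
  rw [← minor_alpha hW hχ hχc 0 (1, 0) rfl, ← minor_alpha hW hχ hχc 0 (Complex.I, 0) rfl] at hfin
  have hda : ∀ e : X, d e (Wsm A1 B1 A2 B2) = fun x => (A1 + B1 * x.2) * e.1.re
      + B1 * e.2 * x.1.re + (A2 + B2 * x.2) * e.1.im + B2 * e.2 * x.1.im := fun e =>
    funext (d_Wsm A1 B1 A2 B2 e)
  have hminor : ∀ z : ℂ, ∀ x : X, d (z, 0) (d (z, 0) (Wsm A1 B1 A2 B2)) x *
      d e3 (d e3 (Wsm A1 B1 A2 B2)) x - d e3 (d (z, 0) (Wsm A1 B1 A2 B2)) x ^ 2 =
      - (B1 * z.re + B2 * z.im) ^ 2 := by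
    intro z x
    have g1 : d (z, 0) (Wsm A1 B1 A2 B2) = Wsm 0 0 0 0 + fun x : X =>
        (A1 * z.re + A2 * z.im) + (B1 * z.re + B2 * z.im) * x.2 := by
      funext x; rw [hda]; simp [Wsm]; ring
    have g3 : d e3 (Wsm A1 B1 A2 B2) = Wsm B1 0 B2 0 := by
      funext x; rw [hda]; simp [Wsm, e3]
    have g33 : d e3 (d e3 (Wsm A1 B1 A2 B2)) x = 0 := by
      rw [g3, d_Wsm]; simp [e3]
    have g3a : d e3 (d (z, 0) (Wsm A1 B1 A2 B2)) x = B1 * z.re + B2 * z.im := by
      rw [d_comm hW e3 (z, 0) x, g3, d_Wsm]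
      simp
    rw [g33, g3a]; ring
  have I1 : ∫ x, χ x * (d (1, 0) (d (1, 0) (Wsm A1 B1 A2 B2)) x *
      d e3 (d e3 (Wsm A1 B1 A2 B2)) x - d e3 (d (1, 0) (Wsm A1 B1 A2 B2)) x ^ 2) =
      - B1 ^ 2 * ∫ x, χ x := by
    rw [← integral_const_mul]
    refine integral_congr_ae (Eventually.of_forall fun x => ?_)
    simp only [hminor 1 x]
    simp [mul_comm]
  have I2 : ∫ x, χ x * (d (Complex.I, 0) (d (Complex.I, 0) (Wsm A1 B1 A2 B2)) x *
      d e3 (d e3 (Wsm A1 B1 A2 B2)) x - d e3 (d (Complex.I, 0) (Wsm A1 B1 A2 B2)) x ^ 2) =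
      - B2 ^ 2 * ∫ x, χ x := by
    rw [← integral_const_mul]
    refine integral_congr_ae (Eventually.of_forall fun x => ?_)
    simp only [hminor Complex.I x]
    simp [mul_comm]
  rw [I1, I2] at hfin
  have : (c + B1 ^ 2 + B2 ^ 2) * ∫ x, χ x = 0 := by linarith
  have h0 : 0 < c + B1 ^ 2 + B2 ^ 2 := by positivity
  have := mul_pos h0 hχpos
  linarith

end Pool.MA74
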