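import Mathlib
import Pool.Agent.MA74.Strict

set_option autoImplicit false

open MeasureTheory Set Filter Topology Metric
open scoped ContDiff Manifold

namespace Pool.MA74

/-- smooth cutoff equal to one on a compact set. -/
theorem exists_cutoff {E : Type*} [NormedAddCommGroup E] [NormedSpace ℝ E] [FiniteDimensional ℝ E]
    {K U : Set E} (hK : IsCompact K) (hU : IsOpen U) (hKU : K ⊆ U) :
    ∃ χ : E → ℝ, ContDiff ℝ ∞ χ ∧ HasCompactSupport χ ∧ tsupport χ ⊆ U ∧
      (∀ x ∈ K, χ x = 1) ∧ (∀ x, χ x ∈ Icc (0 : ℝ) 1) := by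
  obtain ⟨L, hL, hKL, hLU⟩ := exists_compact_between hK hU hKU
  obtain ⟨f, h1, h2, h3⟩ := exists_contMDiffMap_one_nhds_of_subset_interior (n := ⊤)
    (𝓘(ℝ, E)) hK.isClosed hKL
  have hts : tsupport (f : E → ℝ) ⊆ L := by
    refine closure_minimal ?_ hL.isClosed
    intro x hx
    by_contra h
    exact hx (h2 x h)
  refine ⟨f, f.contMDiff.contDiff, hL.of_isClosed_subset (isClosed_tsupport _) hts,
    hts.trans hLU, ?_, h3⟩
  intro x hx
  exact h1.self_of_nhdsSet x hx

/-- the domain of the Legendre transform. -/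
def Odom (v : X → ℝ) (Z : Set ℂ) (a b : ℝ) : Set X :=
  {x | x.1 ∈ Z ∧ d e3 v (x.1, a) < x.2 ∧ x.2 < d e3 v (x.1, b)}

theorem slice_cont {c : ℝ} {Z : Set ℂ} {S : Set ℝ} {v : X → ℝ} {w : ℕ → X → ℝ}
    (h : Appr c Z S v w) {a : ℝ} (ha : a ∈ S) :
    ContinuousOn (fun x : X => d e3 v (x.1, a)) {x | x.1 ∈ Z} :=
  (h.cont_d e3).comp (by fun_prop) (fun x hx => ⟨hx, ha⟩)

theorem isOpen_Odom {c : ℝ} {Z : Set ℂ} {S : Set ℝ} {v : X → ℝ} {w : ℕ → X → ℝ}
    (h : Appr c Z S v w) {a b : ℝ} (ha : a ∈ S) (hb : b ∈ S) : IsOpen (Odom v Z a b) := by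
  have hZ : IsOpen {x : X | x.1 ∈ Z} := h.openZ.preimage continuous_fst
  have h1 := ((slice_cont h ha).sub continuousOn_snd (g := fun x : X => x.2)).isOpen_inter_preimage
    hZ (isOpen_Iio (a := (0 : ℝ)))
  have h2 := ((continuousOn_snd (s := {x : X | x.1 ∈ Z})).sub
    (slice_cont h hb)).isOpen_inter_preimage hZ (isOpen_Iio (a := (0 : ℝ)))
  convert h1.inter h2 using 1
  ext x
  simp only [Odom, mem_ofPred_eq, mem_inter_iff, mem_preimage, mem_Iio, Pi.sub_apply]
  constructor
  · rintro ⟨k1, k2, k3⟩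
    exact ⟨⟨k1, by linarith⟩, ⟨k1, by linarith⟩⟩
  · rintro ⟨⟨k1, k2⟩, ⟨-, k3⟩⟩
    exact ⟨k1, by linarith, by linarith⟩

theorem Psi_unif {c : ℝ} {Z : Set ℂ} {S : Set ℝ} {v : X → ℝ} {w : ℕ → X → ℝ}
    (h : Appr c Z S v w) {a b : ℝ} (hab : a ≤ b) (hS : Icc a b ⊆ S) {K : Set ℂ} (hK : IsCompact K)
    (hKZ : K ⊆ Z) {ε : ℝ} (hε : 0 < ε) :
    ∀ᶠ k in atTop, ∀ x : X, x.1 ∈ K → |Psi (w k) a b x - Psi v a b x| ≤ ε := by
  have hu : TendstoUniformlyOn w v atTop (K ×ˢ Icc a b) :=
    (tendstoLocallyUniformlyOn_iff_tendstoUniformlyOn_of_compact (hK.prod isCompact_Icc)).1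
      (h.lim0.mono (prod_mono hKZ hS))
  filter_upwards [Metric.tendstoUniformlyOn_iff.1 hu ε hε] with k hk x hx
  refine Psi_close hab ?_ ?_ ?_
  · exact ((h.smooth k).continuous.comp (by fun_prop)).continuousOn
  · exact h.cont.comp (by fun_prop) (fun s hs => ⟨hKZ hx, hS hs⟩)
  · intro s hs
    have := hk (x.1, s) ⟨hx, hs⟩
    rw [Real.dist_eq, abs_sub_comm] at this
    exact this.le

theorem cont_Psi {c : ℝ} {Z : Set ℂ} {S : Set ℝ} {v : X → ℝ} {w : ℕ → X → ℝ}
    (h : Appr c Z S v w) {a b : ℝ} (hab : a ≤ b) (hS : Icc a b ⊆ S) :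
    ContinuousOn (Psi v a b) {x | x.1 ∈ Z} := by
  have hlim : TendstoLocallyUniformlyOn (fun k => Psi (w k) a b) (Psi v a b) atTop
      {x : X | x.1 ∈ Z} := by
    rw [Metric.tendstoLocallyUniformlyOn_iff]
    intro ε hε x hx
    obtain ⟨r, hr, hb⟩ := Metric.isOpen_iff.1 h.openZ x.1 hx
    have hK : closedBall x.1 (r / 2) ⊆ Z := (closedBall_subset_ball (by linarith)).trans hb
    refine ⟨{y : X | y.1 ∈ closedBall x.1 (r / 2)}, ?_, ?_⟩
    · refine mem_nhdsWithin_of_mem_nhds ?_
      exact (continuous_fst.continuousAt (x := x)).preimage_mem_nhds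
        (closedBall_mem_nhds x.1 (by positivity))
    · filter_upwards [Psi_unif h hab hS (isCompact_closedBall x.1 (r / 2)) hK (half_pos hε)]
        with k hk y hy
      have := hk y hy
      rw [Real.dist_eq, abs_sub_comm]
      linarith
  exact hlim.continuousOn (Frequently.of_forall fun k =>
    (continuous_Psi (h.smooth k).continuous a b).continuousOn)

/-- the Legendre transform solves the linear equation weakly. -/
theorem weak_Psi {c : ℝ} (hc : 0 < c) {Z : Set ℂ} {S : Set ℝ} {v : X → ℝ} {w : ℕ → X → ℝ}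
    (h : Appr c Z S v w) {a b κ : ℝ} (hab : a < b) (hκ : 0 < κ)
    (hS : Icc (a - κ) (b + κ) ⊆ S) : Weak c (Odom v Z a b) (Psi v a b) := by
  intro η hη hηc hηs
  have hSab : Icc a b ⊆ S := (Icc_subset_Icc (by linarith) (by linarith)).trans hS
  have haS : a ∈ S := hSab (left_mem_Icc.2 hab.le)
  have hbS : b ∈ S := hSab (right_mem_Icc.2 hab.le)
  -- cutoff in `s`
  let ρb : ContDiffBump ((a + b) / 2 : ℝ) := ⟨(b - a) / 2, (b - a) / 2 + κ, by linarith, by linarith⟩
  set ρ0 : ℝ → ℝ := fun s => ρb s with hρ0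
  have cρ : ContDiff ℝ ∞ ρ0 := ρb.contDiff
  have sρ : HasCompactSupport ρ0 := ρb.hasCompactSupport
  have hρ1 : ∀ s ∈ Icc a b, ρ0 s = 1 := by
    intro s hs
    refine ρb.one_of_mem_closedBall ?_
    have e : ρb.rIn = (b - a) / 2 := rfl
    rw [mem_closedBall, Real.dist_eq, abs_le, e]
    constructor
    · linarith [hs.1]
    · linarith [hs.2]
  have hρs : tsupport ρ0 ⊆ Icc (a - κ) (b + κ) := by
    rw [hρ0]
    intro s hs
    rw [ρb.tsupport_eq, mem_closedBall, Real.dist_eq, abs_le] at hs
    have e : ρb.rOut = (b - a) / 2 + κ := rfl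
    rw [e] at hs
    constructor <;> linarith [hs.1, hs.2]
  have hρle : ∀ s, |ρ0 s| ≤ 1 := by
    intro s
    rw [abs_of_nonneg ρb.nonneg]
    exact ρb.le_one
  -- compact sets
  have hKz : IsCompact (Prod.fst '' tsupport η) := hηc.image continuous_fst
  have hKzZ : Prod.fst '' tsupport η ⊆ Z := by
    rintro _ ⟨x, hx, rfl⟩; exact (hηs hx).1
  set K : Set X := (Prod.fst '' tsupport η) ×ˢ Icc (a - κ) (b + κ) with hKdef
  have hK : IsCompact K := hKz.prod isCompact_Icc
  have hKU : K ⊆ Z ×ˢ S := prod_mono hKzZ hS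
  have hu3 : TendstoUniformlyOn (fun k => d e3 (w k)) (d e3 v) atTop K :=
    (tendstoLocallyUniformlyOn_iff_tendstoUniformlyOn_of_compact hK).1 ((h.lim1 e3).mono hKU)
  -- eventually the support condition holds
  have hsup : ∀ᶠ k in atTop, ∀ x ∈ tsupport η, x.1 ∈ Z ∧ d e3 (w k) (x.1, a) < x.2 ∧
      x.2 < d e3 (w k) (x.1, b) := by
    rcases (tsupport η).eq_empty_or_nonempty with hemp | hne
    · refine Eventually.of_forall fun k x hx => ?_
      rw [hemp] at hx; exact absurd hx (notMem_empty x)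
    · have c1 : ContinuousOn (fun x : X => x.2 - d e3 v (x.1, a)) (tsupport η) :=
        continuousOn_snd.sub ((slice_cont h haS).mono (fun x hx => (hηs hx).1))
      have c2 : ContinuousOn (fun x : X => d e3 v (x.1, b) - x.2) (tsupport η) :=
        ((slice_cont h hbS).mono (fun x hx => (hηs hx).1)).sub continuousOn_snd
      obtain ⟨x1, hx1, m1⟩ := hηc.isCompact.exists_isMinOn hne c1
      obtain ⟨x2, hx2, m2⟩ := hηc.isCompact.exists_isMinOn hne c2
      have p1 : 0 < x1.2 - d e3 v (x1.1, a) := by linarith [(hηs hx1).2.1]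
      have p2 : 0 < d e3 v (x2.1, b) - x2.2 := by linarith [(hηs hx2).2.2]
      filter_upwards [Metric.tendstoUniformlyOn_iff.1 hu3 _ (lt_min p1 p2)] with k hk x hx
      have kz : x.1 ∈ Prod.fst '' tsupport η := ⟨x, hx, rfl⟩
      have k1 := hk (x.1, a) ⟨kz, ⟨by linarith, by linarith⟩⟩
      have k2 := hk (x.1, b) ⟨kz, ⟨by linarith, by linarith⟩⟩
      rw [Real.dist_eq, abs_lt] at k1 k2
      have q1 := m1 hx
      have q2 := m2 hx
      simp only [mem_ofPred_eq] at q1 q2
      have r1 := min_le_left (x1.2 - d e3 v (x1.1, a)) (d e3 v (x2.1, b) - x2.2)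
      have r2 := min_le_right (x1.2 - d e3 v (x1.1, a)) (d e3 v (x2.1, b) - x2.2)
      refine ⟨(hηs hx).1, ?_, ?_⟩
      · linarith [k1.1]
      · linarith [k2.2]
  -- the left side converges
  have hlopc := (contDiff_Lop (c := c) hη).continuous
  have hlops := hcs_Lop (c := c) hηc
  have hlop0 : ∀ x : X, x.1 ∉ Prod.fst '' tsupport η → Lop c η x = 0 := by
    intro x hx
    exact image_eq_zero_of_notMem_tsupport
      (fun hh => hx ⟨x, tsupport_Lop_subset c η hh, rfl⟩)
  have hleft : Tendsto (fun k => ∫ x, Psi (w k) a b x * Lop c η x) atTop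
      (𝓝 (∫ x, Psi v a b x * Lop c η x)) := by
    have iL : Integrable (fun x => |Lop c η x|) := (integrable_of hlopc hlops).abs
    have iv : Integrable (fun x => Psi v a b x * Lop c η x) := by
      refine (cont_mul (isOpen_Odom h haS hbS) ((cont_Psi h hab.le hSab).mono
        (fun x hx => hx.1)) hlopc ((tsupport_Lop_subset c η).trans hηs)).integrable_of_hasCompactSupport
        hlops.mul_left
    rw [Metric.tendsto_atTop']
    intro ε hε
    set I := ∫ x, |Lop c η x| with hI
    have hI0 : 0 ≤ I := integral_nonneg fun x => abs_nonneg _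
    have hε' : 0 < ε / (I + 1) := by positivity
    have hev := Psi_unif h hab.le hSab hKz hKzZ hε'
    obtain ⟨N, hN⟩ := eventually_atTop.1 hev
    refine ⟨N, fun k hk => ?_⟩
    have hk' := hN k hk.le
    have iw : Integrable (fun x => Psi (w k) a b x * Lop c η x) :=
      integrable_of ((continuous_Psi (h.smooth k).continuous a b).mul hlopc) hlops.mul_left
    rw [Real.dist_eq, ← integral_sub iw iv]
    calc |∫ x, (Psi (w k) a b x * Lop c η x - Psi v a b x * Lop c η x)|
        ≤ ∫ x, |Psi (w k) a b x * Lop c η x - Psi v a b x * Lop c η x| :=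
          abs_integral_le_integral_abs
      _ ≤ ∫ x, (ε / (I + 1)) * |Lop c η x| := by
          refine integral_mono (iw.sub iv).abs (iL.const_mul _) fun x => ?_
          simp only
          rw [← sub_mul, abs_mul]
          by_cases hx : x.1 ∈ Prod.fst '' tsupport η
          · exact mul_le_mul_of_nonneg_right (hk' x hx) (abs_nonneg _)
          · rw [hlop0 x hx]; simp
      _ = (ε / (I + 1)) * I := by rw [integral_const_mul]
      _ < ε := by
          rw [div_mul_eq_mul_div, div_lt_iff₀ (by positivity)]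
          nlinarith
  -- the right side tends to zero
  set β : ℕ → X → ℝ := fun k x => ρ0 x.2 * η (Gam (w k) x) with hβ
  have cβ : ∀ k, ContDiff ℝ ∞ (β k) := fun k =>
    (contDiff_rho cρ).mul (hη.comp (contDiff_Gam (h.smooth k)))
  have β0 : ∀ k, ∀ x ∉ K, β k x = 0 := by
    intro k x hx
    by_cases h1 : x.2 ∈ tsupport ρ0
    · have h2 : Gam (w k) x ∉ tsupport η := by
        intro hh
        exact hx ⟨⟨Gam (w k) x, hh, rfl⟩, hρs h1⟩
      rw [hβ]; simp [image_eq_zero_of_notMem_tsupport h2]
    · rw [hβ]; simp [image_eq_zero_of_notMem_tsupport h1]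
  have tβ : ∀ k, tsupport (β k) ⊆ K := fun k => by
    refine closure_minimal ?_ hK.isClosed
    intro x hx
    by_contra hh
    exact hx (β0 k x hh)
  have sβ : ∀ k, HasCompactSupport (β k) := fun k =>
    hK.of_isClosed_subset (isClosed_tsupport _) (tβ k)
  obtain ⟨χ0, cχ0, sχ0, tχ0, hχ1, hχI⟩ := exists_cutoff hK h.isOpen hKU
  have hright : Tendsto (fun k => ∫ x, β k x * (Dop (w k) x - c)) atTop (𝓝 0) := by
    rw [Metric.tendsto_atTop]
    intro ε hε
    set J := ∫ x, χ0 x with hJ
    have hJ0 : 0 ≤ J := integral_nonneg fun x => (hχI x).1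
    -- choose the accuracy
    set ε1 := ε / (4 * (2 * c * J + 1)) with hε1
    have hε1p : 0 < ε1 := by positivity
    have huc : UniformContinuous η := hηc.uniformContinuous_of_continuous hη.continuous
    obtain ⟨δ, hδ, hδη⟩ := Metric.uniformContinuous_iff.1 huc ε1 hε1p
    have hu3' := Metric.tendstoUniformlyOn_iff.1 hu3 (δ / 2) (half_pos hδ)
    obtain ⟨N1, hN1⟩ := eventually_atTop.1 hu3'
    have hclose : ∀ j ≥ N1, ∀ k ≥ N1, ∀ x, |β j x - β k x| ≤ ε1 * χ0 x := by
      intro j hj k hk x
      by_cases hx : x ∈ K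
      · rw [hχ1 x hx, mul_one, hβ]
        simp only
        rw [← mul_sub, abs_mul]
        have hd : dist (Gam (w j) x) (Gam (w k) x) < δ := by
          have d1 := hN1 j hj x hx
          have d2 := hN1 k hk x hx
          rw [Prod.dist_eq]
          simp only [Gam, dist_self]
          refine max_lt hδ ?_
          calc dist (d e3 (w j) x) (d e3 (w k) x)
              ≤ dist (d e3 (w j) x) (d e3 v x) + dist (d e3 v x) (d e3 (w k) x) :=
                dist_triangle _ _ _
            _ < δ / 2 + δ / 2 := add_lt_add (by rw [dist_comm]; exact d1) d2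
            _ = δ := by ring
        have he := (hδη hd).le
        rw [Real.dist_eq] at he
        calc |ρ0 x.2| * |η (Gam (w j) x) - η (Gam (w k) x)| ≤ 1 * ε1 := by
              gcongr
              exact hρle _
          _ = ε1 := one_mul _
      · rw [β0 j x hx, β0 k x hx]
        simp only [sub_self, abs_zero]
        exact mul_nonneg hε1p.le (hχI x).1
    -- fixed test functions
    have m1 := h.ma (β N1) (cβ N1) (sβ N1) ((tβ N1).trans hKU)
    have m0 := h.ma χ0 cχ0 sχ0 tχ0
    have m1' : Tendsto (fun k => (∫ x, β N1 x * Dop (w k) x) - c * ∫ x, β N1 x) atTop (𝓝 0) := by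
      have := m1.sub_const (c * ∫ x, β N1 x)
      simpa using this
    have m0' : ∀ᶠ k in atTop, ∫ x, χ0 x * Dop (w k) x < c * J + 1 :=
      m0.eventually_lt_const (by linarith)
    have m1'' : ∀ᶠ k in atTop, |(∫ x, β N1 x * Dop (w k) x) - c * ∫ x, β N1 x| < ε / 2 := by
      have := (Metric.tendsto_atTop'.1 m1' (ε / 2) (half_pos hε))
      obtain ⟨N, hN⟩ := this
      filter_upwards [eventually_gt_atTop N] with k hk
      have := hN k hk
      rwa [Real.dist_eq, sub_zero] at this
    obtain ⟨N2, hN2⟩ := eventually_atTop.1 (m0'.and m1'')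
    refine ⟨max N1 N2, fun k hk => ?_⟩
    obtain ⟨q0, q1⟩ := hN2 k ((le_max_right _ _).trans hk)
    have hkN1 : N1 ≤ k := (le_max_left _ _).trans hk
    have cD := (contDiff_Dop (h.smooth k))
    have iβk : Integrable (fun x => β k x * (Dop (w k) x - c)) :=
      integrable_of ((cβ k).mul (cD.sub contDiff_const)).continuous (sβ k).mul_right
    have iβN : Integrable (fun x => β N1 x * (Dop (w k) x - c)) :=
      integrable_of ((cβ N1).mul (cD.sub contDiff_const)).continuous (sβ N1).mul_right
    have iβND : Integrable (fun x => β N1 x * Dop (w k) x) :=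
      integrable_of ((cβ N1).mul cD).continuous (sβ N1).mul_right
    have iβN0 : Integrable (fun x => β N1 x * c) :=
      (integrable_of (cβ N1).continuous (sβ N1)).mul_const c
    have iχD : Integrable (fun x => χ0 x * Dop (w k) x) :=
      integrable_of (cχ0.mul cD).continuous sχ0.mul_right
    have iχ : Integrable χ0 := integrable_of cχ0.continuous sχ0
    have e1 : ∫ x, β N1 x * (Dop (w k) x - c) =
        (∫ x, β N1 x * Dop (w k) x) - c * ∫ x, β N1 x := by
      have : ∀ x, β N1 x * (Dop (w k) x - c) = β N1 x * Dop (w k) x - β N1 x * c := fun x => by ring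
      rw [integral_congr_ae (Eventually.of_forall this), integral_sub iβND iβN0,
        integral_mul_const]
      ring
    have e2 : |∫ x, (β k x * (Dop (w k) x - c) - β N1 x * (Dop (w k) x - c))| ≤
        ε1 * ((∫ x, χ0 x * Dop (w k) x) + c * J) := by
      calc |∫ x, (β k x * (Dop (w k) x - c) - β N1 x * (Dop (w k) x - c))|
          ≤ ∫ x, |β k x * (Dop (w k) x - c) - β N1 x * (Dop (w k) x - c)| :=
            abs_integral_le_integral_abs
        _ ≤ ∫ x, (ε1 * (χ0 x * Dop (w k) x) + ε1 * (c * χ0 x)) := by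
            refine integral_mono (iβk.sub iβN).abs
              ((iχD.const_mul _).add ((iχ.const_mul _).const_mul _)) fun x => ?_
            simp only
            rw [← sub_mul, abs_mul]
            by_cases hx : x ∈ K
            · have hD := h.det k x (hKU hx)
              have h1 : |Dop (w k) x - c| ≤ Dop (w k) x + c := by
                rw [abs_le]; constructor <;> linarith
              have h2 := hclose k hkN1 N1 le_rfl x
              have h3 : 0 ≤ ε1 * χ0 x := mul_nonneg hε1p.le (hχI x).1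
              calc |β k x - β N1 x| * |Dop (w k) x - c| ≤ (ε1 * χ0 x) * (Dop (w k) x + c) :=
                    mul_le_mul h2 h1 (abs_nonneg _) h3
                _ = _ := by ring
            · rw [β0 k x hx, β0 N1 x hx]
              simp only [sub_self, abs_zero, zero_mul]
              by_cases hx2 : x ∈ tsupport χ0
              · have hD := h.det k x (tχ0 hx2)
                have := (hχI x).1
                positivity
              · rw [image_eq_zero_of_notMem_tsupport hx2]; simp
        _ = ε1 * ((∫ x, χ0 x * Dop (w k) x) + c * J) := by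
            rw [integral_add (iχD.const_mul _) ((iχ.const_mul _).const_mul _),
              integral_const_mul, integral_const_mul, integral_const_mul]
            ring
    rw [Real.dist_eq, sub_zero]
    have e3 : ∫ x, β k x * (Dop (w k) x - c) =
        (∫ x, (β k x * (Dop (w k) x - c) - β N1 x * (Dop (w k) x - c)))
        + ∫ x, β N1 x * (Dop (w k) x - c) := by
      rw [integral_sub iβk iβN]; ring
    rw [e3]
    refine (abs_add_le _ _).trans_lt ?_
    rw [e1]
    have e4 : ε1 * ((∫ x, χ0 x * Dop (w k) x) + c * J) ≤ ε / 4 := by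
      have : (∫ x, χ0 x * Dop (w k) x) + c * J ≤ 2 * c * J + 1 := by linarith
      calc ε1 * ((∫ x, χ0 x * Dop (w k) x) + c * J) ≤ ε1 * (2 * c * J + 1) := by gcongr
        _ = ε / 4 := by rw [hε1]; field_simp
    linarith
  -- equality of the two sides
  have heq : ∀ᶠ k in atTop, ∫ x, Psi (w k) a b x * Lop c η x =
      ∫ x, β k x * (Dop (w k) x - c) := by
    filter_upwards [hsup] with k hk
    rw [legendre_total (Z := Z) (a' := a - κ) (b' := b + κ) c (h.smooth k) hη hηc cρ sρ
      (by linarith) hab (by linarith) hρ1 hρs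
      (fun z hz s hs => h.conv k _ ⟨hz, hS hs⟩) hk]
    refine integral_congr_ae (Eventually.of_forall fun x => ?_)
    simp only [hβ]; ring
  have hleft' := hleft.congr' heq
  exact tendsto_nhds_unique hleft' hright

end Pool.MA74
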