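import Mathlib
import Pool.Agent.MA74.LimLeg

set_option autoImplicit false

open MeasureTheory Set Filter Topology Metric
open scoped ContDiff Manifold

namespace Pool.MA74

/-- product of a function smooth on an open set and a smooth function supported there. -/
theorem contDiff_mul_of_tsupport {O : Set X} (hO : IsOpen O) {f φ : X → ℝ}
    (hf : ContDiffOn ℝ ∞ f O) (hφ : ContDiff ℝ ∞ φ) (hs : tsupport φ ⊆ O) :
    ContDiff ℝ ∞ (fun x => f x * φ x) := by
  rw [contDiff_iff_contDiffAt]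
  intro x
  by_cases hx : x ∈ O
  · exact (hf.contDiffAt (hO.mem_nhds hx)).mul hφ.contDiffAt
  · have hx' : x ∉ tsupport φ := fun h => hx (hs h)
    have h0 : φ =ᶠ[𝓝 x] 0 := notMem_tsupport_iff_eventuallyEq.1 hx'
    refine (contDiffAt_const (c := (0 : ℝ))).congr_of_eventuallyEq ?_
    filter_upwards [h0] with y hy
    simp [hy]

theorem contDiffOn_d {O : Set X} (hO : IsOpen O) {f : X → ℝ} (hf : ContDiffOn ℝ ∞ f O) (e : X) :
    ContDiffOn ℝ ∞ (d e f) O := by
  have h1 : ContDiffOn ℝ ∞ (fderiv ℝ f) O := hf.fderiv_of_isOpen hO (by simp)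
  exact h1.clm_apply contDiffOn_const

/-- integration by parts against a test function. -/
theorem parts_on {O : Set X} (hO : IsOpen O) {f φ : X → ℝ}
    (hf : ContDiffOn ℝ ∞ f O) (hφ : ContDiff ℝ ∞ φ) (hc : HasCompactSupport φ)
    (hs : tsupport φ ⊆ O) (e : X) :
    ∫ x, d e f x * φ x = - ∫ x, f x * d e φ x := by
  have hp := contDiff_mul_of_tsupport hO hf hφ hs
  have hd : ContDiffOn ℝ ∞ (d e f) O := contDiffOn_d hO hf e
  have h0 := integral_d_eq_zero hp hc.mul_left e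
  have key : ∀ x, d e (fun x => f x * φ x) x = d e f x * φ x + f x * d e φ x := by
    intro x
    by_cases hx : x ∈ O
    · have h1 : DifferentiableAt ℝ f x := (hf.contDiffAt (hO.mem_nhds hx)).differentiableAt (by simp)
      unfold d
      rw [fderiv_fun_mul h1 (diff_at hφ x)]
      simp [mul_comm, add_comm]
    · have hx' : x ∉ tsupport φ := fun h => hx (hs h)
      have h1 : φ x = 0 := image_eq_zero_of_notMem_tsupport hx'
      have h2 : d e φ x = 0 := image_eq_zero_of_notMem_tsupport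
        (fun hh => hx' (tsupport_d_subset φ e hh))
      rw [h1, h2]
      have h3 : (fun x => f x * φ x) =ᶠ[𝓝 x] fun _ => 0 := by
        filter_upwards [notMem_tsupport_iff_eventuallyEq.1 hx'] with y hy
        simp [hy]
      unfold d
      rw [h3.fderiv_eq]; simp
  rw [integral_congr_ae (Eventually.of_forall key)] at h0
  have i1 : Integrable (fun x => d e f x * φ x) :=
    integrable_of (contDiff_mul_of_tsupport hO hd hφ hs).continuous hc.mul_left
  have i2 : Integrable (fun x => f x * d e φ x) :=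
    integrable_of (contDiff_mul_of_tsupport hO hf (contDiff_d hφ e)
      ((tsupport_d_subset φ e).trans hs)).continuous (hcs_d hc e).mul_left
  rw [integral_add i1 i2] at h0
  linarith

theorem d_Lop {η : X → ℝ} (hη : ContDiff ℝ ∞ η) (c : ℝ) (e : X) :
    d e (Lop c η) = Lop c (d e η) := by
  have c2 : ∀ a b : X, ContDiff ℝ ∞ (d a (d b η)) := fun a b => contDiff_d (contDiff_d hη b) a
  have hcomm : ∀ a : X, d e (d a (d a η)) = d a (d a (d e η)) := by
    intro a
    funext x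
    exact d_comm3 hη e a x
  funext x
  have h1 : Lop c η = fun x => (d e1 (d e1 η) x + d e2 (d e2 η) x) + c * d e3 (d e3 η) x := rfl
  rw [h1, d_add ((c2 _ _).add (c2 _ _)) (contDiff_const.mul (c2 _ _)),
    d_add (c2 _ _) (c2 _ _), d_const_mul (c2 _ _), hcomm, hcomm, hcomm]
  rfl

/-- second derivatives of a smooth weak solution are weak solutions. -/
theorem weak_deriv {c : ℝ} {O : Set X} (hO : IsOpen O) {Ψ : X → ℝ} (hΨ : ContDiffOn ℝ ∞ Ψ O)
    (hw : Weak c O Ψ) (e : X) : Weak c O (d e Ψ) := by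
  intro η hη hηc hηs
  have h1 := parts_on hO hΨ (contDiff_Lop (c := c) hη) (hcs_Lop hηc)
    ((tsupport_Lop_subset c η).trans hηs) e
  rw [h1, d_Lop hη, hw (d e η) (contDiff_d hη e) (hcs_d hηc e)
    ((tsupport_d_subset η e).trans hηs), neg_zero]

theorem Weak.neg {c : ℝ} {O : Set X} {Ψ : X → ℝ} (hw : Weak c O Ψ) :
    Weak c O (fun x => - Ψ x) := by
  intro η hη hηc hηs
  have h1 : ∀ x, -Ψ x * Lop c η x = - (Ψ x * Lop c η x) := fun x => by ring
  rw [integral_congr_ae (Eventually.of_forall h1), integral_neg, hw η hη hηc hηs, neg_zero]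

/-- a continuous right inverse of a smooth map with injective derivative is smooth. -/
theorem contDiffAt_of_right_inverse {T G : X → X} {x0 : X} (hT : ContDiffAt ℝ ∞ T (G x0))
    (hG : ContinuousAt G x0) (hTG : ∀ᶠ x in 𝓝 x0, T (G x) = x)
    (hinj : ∀ h : X, fderiv ℝ T (G x0) h = 0 → h = 0) : ContDiffAt ℝ ∞ G x0 := by
  have hker : (fderiv ℝ T (G x0)).ker = ⊥ := by
    rw [LinearMap.ker_eq_bot']
    intro m hm
    exact hinj m hm
  have hi : Function.Injective (fderiv ℝ T (G x0)).toLinearMap := LinearMap.ker_eq_bot.1 hker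
  have hsurj : (fderiv ℝ T (G x0)).range = ⊤ := by
    rw [LinearMap.range_eq_top]
    exact (LinearMap.injective_iff_surjective).1 hi
  set e : X ≃L[ℝ] X := ContinuousLinearEquiv.ofBijective (fderiv ℝ T (G x0)) hker hsurj with he
  have hd : HasFDerivAt T (e : X →L[ℝ] X) (G x0) := by
    rw [he, ContinuousLinearEquiv.coe_ofBijective]
    exact (hT.differentiableAt (by simp)).hasFDerivAt
  have hn : (∞ : WithTop ℕ∞) ≠ 0 := by simp
  have h1 := hT.to_localInverse hd hn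
  have h2 : T (G x0) = x0 := hTG.self_of_nhds
  rw [h2] at h1
  refine h1.congr_of_eventuallyEq ?_
  have h3 := (hT.hasStrictFDerivAt' hd hn).eventually_left_inverse
  have h4 := hG.eventually h3
  filter_upwards [hTG, h4] with x k1 k2
  rw [k1] at k2
  exact k2.symm

section L6

variable {c : ℝ} {Z : Set ℂ} {S : Set ℝ} {v : X → ℝ} {w : ℕ → X → ℝ}

theorem Psi_at (h : Appr c Z S v w) {a b : ℝ} (hab : Icc a b ⊆ S) {z : ℂ} (hz : z ∈ Z) {s : ℝ}
    (hs : s ∈ Icc a b) : Psi v a b (z, d e3 v (z, s)) = v (z, s) - d e3 v (z, s) * s := by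
  rw [Psi_eq_of_tangent hs]
  intro t ht
  exact tangent_le (f := fun s => v (z, s)) (f' := fun s => d e3 v (z, s))
    (fun s hs' => h.hasDeriv hz (hab hs')) ((h.mono hz).mono hab) hs ht

theorem mem_Odom (hc : 0 < c) (h : Appr c Z S v w) {a b : ℝ} (hab : Icc a b ⊆ S) {z : ℂ}
    (hz : z ∈ Z) {s : ℝ} (hs : s ∈ Ioo a b) : ((z, d e3 v (z, s)) : X) ∈ Odom v Z a b := by
  have hlt : a < b := hs.1.trans hs.2
  have haS : a ∈ S := hab (left_mem_Icc.2 hlt.le)
  have hbS : b ∈ S := hab (right_mem_Icc.2 hlt.le)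
  have hsS : s ∈ S := hab (Ioo_subset_Icc_self hs)
  exact ⟨hz, h.strict hc hz haS hsS hs.1, h.strict hc hz hsS hbS hs.2⟩

theorem dPsi_at (hc : 0 < c) (h : Appr c Z S v w) {a b : ℝ} (hab : Icc a b ⊆ S)
    (hΨ : ContDiffOn ℝ ∞ (Psi v a b) (Odom v Z a b)) {z : ℂ}
    (hz : z ∈ Z) {s : ℝ} (hs : s ∈ Ioo a b) : d e3 (Psi v a b) (z, d e3 v (z, s)) = -s := by
  have hlt : a < b := hs.1.trans hs.2
  have haS : a ∈ S := hab (left_mem_Icc.2 hlt.le)
  have hbS : b ∈ S := hab (right_mem_Icc.2 hlt.le)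
  have hO := isOpen_Odom h haS hbS
  have hm := mem_Odom hc h hab hz hs
  have hd : DifferentiableAt ℝ (Psi v a b) (z, d e3 v (z, s)) :=
    (hΨ.contDiffAt (hO.mem_nhds hm)).differentiableAt (by simp)
  have h1 := hasDerivAt_snd_slice hd
  have h2 : HasDerivAt (fun p : ℝ => Psi v a b (z, p) + p * s)
      (d e3 (Psi v a b) (z, d e3 v (z, s)) + 1 * s) (d e3 v (z, s)) :=
    h1.add ((hasDerivAt_id _).mul_const s)
  have hcv : ContinuousOn (fun t => v (z, t)) (Icc a b) :=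
    h.cont.comp (by fun_prop) (fun t ht => ⟨hz, hab ht⟩)
  have h3 : IsLocalMax (fun p : ℝ => Psi v a b (z, p) + p * s) (d e3 v (z, s)) := by
    refine Eventually.of_forall fun p => ?_
    have k1 : Psi v a b (z, p) ≤ v (z, s) - p * s :=
      Psi_le (x := (z, p)) hcv (Ioo_subset_Icc_self hs)
    have k2 := Psi_at h hab hz (Ioo_subset_Icc_self hs)
    simp only
    rw [k2]
    linarith
  have h4 := h3.hasDerivAt_eq_zero h2
  linarith

/-- surjectivity onto the Legendre domain -/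
theorem exists_of_mem_Odom (h : Appr c Z S v w) {a b : ℝ} (hlt : a < b)
    (hab : Icc a b ⊆ S) {x : X} (hx : x ∈ Odom v Z a b) :
    ∃ s ∈ Ioo a b, d e3 v (x.1, s) = x.2 := by
  have hcv : ContinuousOn (fun t => d e3 v (x.1, t)) (Icc a b) :=
    (h.cont_d e3).comp (by fun_prop) (fun t ht => ⟨hx.1, hab ht⟩)
  obtain ⟨s, hs, h1⟩ := intermediate_value_Ioo hlt.le hcv ⟨hx.2.1, hx.2.2⟩
  exact ⟨s, hs, h1⟩

theorem ddPsi_nonpos (hc : 0 < c) (h : Appr c Z S v w) {a b : ℝ} (hlt : a < b)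
    (hab : Icc a b ⊆ S) (hΨ : ContDiffOn ℝ ∞ (Psi v a b) (Odom v Z a b)) {x : X}
    (hx : x ∈ Odom v Z a b) : d e3 (d e3 (Psi v a b)) x ≤ 0 := by
  have haS : a ∈ S := hab (left_mem_Icc.2 hlt.le)
  have hbS : b ∈ S := hab (right_mem_Icc.2 hlt.le)
  have hO := isOpen_Odom h haS hbS
  have hanti : AntitoneOn (fun p => d e3 (Psi v a b) (x.1, p))
      (Ioo (d e3 v (x.1, a)) (d e3 v (x.1, b))) := by
    intro p hp q hq hpq
    obtain ⟨s, hs, e1⟩ := exists_of_mem_Odom h hlt hab (x := (x.1, p)) ⟨hx.1, hp.1, hp.2⟩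
    obtain ⟨t, ht, e2⟩ := exists_of_mem_Odom h hlt hab (x := (x.1, q)) ⟨hx.1, hq.1, hq.2⟩
    simp only at e1 e2 ⊢
    rw [← e1, ← e2, dPsi_at hc h hab hΨ hx.1 hs, dPsi_at hc h hab hΨ hx.1 ht]
    have : s ≤ t := by
      by_contra hst
      have := h.strict hc hx.1 (hab (Ioo_subset_Icc_self ht)) (hab (Ioo_subset_Icc_self hs))
        (not_le.1 hst)
      simp only at this
      linarith
    linarith
  have hd : DifferentiableAt ℝ (d e3 (Psi v a b)) x :=
    ((contDiffOn_d hO hΨ e3).contDiffAt (hO.mem_nhds hx)).differentiableAt (by simp)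
  have h1 : HasDerivAt (fun p => d e3 (Psi v a b) (x.1, p)) (d e3 (d e3 (Psi v a b)) x) x.2 :=
    hasDerivAt_snd_slice (z := x.1) (s := x.2) hd
  have h2 := hanti.derivWithin_nonpos (x := x.2)
  rw [derivWithin_of_isOpen isOpen_Ioo ⟨hx.2.1, hx.2.2⟩, h1.deriv] at h2
  exact h2

theorem ddPsi_neg (hc : 0 < c) (h : Appr c Z S v w) {a b : ℝ}
    (hab : Icc a b ⊆ S) (hΨ : ContDiffOn ℝ ∞ (Psi v a b) (Odom v Z a b))
    (hw : Weak c (Odom v Z a b) (Psi v a b)) {z0 : ℂ} (hz0 : z0 ∈ Z) {s0 : ℝ}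
    (hs0 : s0 ∈ Ioo a b) :
    d e3 (d e3 (Psi v a b)) (z0, d e3 v (z0, s0)) < 0 := by
  have hlt : a < b := hs0.1.trans hs0.2
  have haS : a ∈ S := hab (left_mem_Icc.2 hlt.le)
  have hbS : b ∈ S := hab (right_mem_Icc.2 hlt.le)
  have hO := isOpen_Odom h haS hbS
  have hx1 := mem_Odom hc h hab hz0 hs0
  set x1 : X := (z0, d e3 v (z0, s0)) with hx1d
  refine lt_of_le_of_ne (ddPsi_nonpos hc h hlt hab hΨ hx1) ?_
  intro heq
  have h3 := contDiffOn_d hO hΨ e3
  have h33 := contDiffOn_d hO h3 e3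
  have hwk : Weak c (Odom v Z a b) (fun x => - d e3 (d e3 (Psi v a b)) x) :=
    (weak_deriv hO h3 (weak_deriv hO hΨ hw e3) e3).neg
  have hev := weyl_strong hc hO (Φ := fun x => - d e3 (d e3 (Psi v a b)) x)
    h33.continuousOn.neg hwk
    (fun x hx => by have := ddPsi_nonpos hc h hlt hab hΨ hx; linarith) hx1
    (by rw [heq]; simp)
  -- a neighbourhood where the second derivative vanishes
  obtain ⟨ε, hε, hb⟩ := Metric.eventually_nhds_iff_ball.1 (hev.and (hO.mem_nhds hx1))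
  have hder : ∀ p ∈ ball (d e3 v (z0, s0)) ε,
      HasDerivAt (fun p => d e3 (Psi v a b) (z0, p)) 0 p := by
    intro p hp
    have hm : ((z0, p) : X) ∈ ball x1 ε := by
      rw [mem_ball, Prod.dist_eq, hx1d]
      simp only [dist_self]
      exact max_lt hε hp
    obtain ⟨k1, k2⟩ := hb _ hm
    have hd : DifferentiableAt ℝ (d e3 (Psi v a b)) (z0, p) :=
      (h3.contDiffAt (hO.mem_nhds k2)).differentiableAt (by simp)
    have := hasDerivAt_snd_slice hd
    have k3 : d e3 (d e3 (Psi v a b)) (z0, p) = 0 := by linarith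
    rwa [k3] at this
  have hconst : ∀ p ∈ ball (d e3 v (z0, s0)) ε,
      d e3 (Psi v a b) (z0, p) = d e3 (Psi v a b) (z0, d e3 v (z0, s0)) := by
    intro p hp
    refine isOpen_ball.is_const_of_deriv_eq_zero (f := fun p => d e3 (Psi v a b) (z0, p))
      (convex_ball _ _).isPreconnected
      (fun q hq => (hder q hq).differentiableAt.differentiableWithinAt)
      (fun q hq => (hder q hq).deriv) hp (mem_ball_self hε)
  -- continuity of `s ↦ v_s (z0, s)`
  have hcv : ContinuousAt (fun t => d e3 v (z0, t)) s0 := by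
    have h1 : ContinuousAt (d e3 v) (z0, s0) :=
      (h.cont_d e3).continuousAt (h.isOpen.mem_nhds ⟨hz0, hab (Ioo_subset_Icc_self hs0)⟩)
    exact h1.comp (f := fun t : ℝ => ((z0, t) : X)) (by fun_prop)
  have hev2 : ∀ᶠ t in 𝓝 s0, d e3 v (z0, t) ∈ ball (d e3 v (z0, s0)) ε :=
    hcv.preimage_mem_nhds (ball_mem_nhds _ hε)
  have hev3 : ∀ᶠ t in 𝓝[≠] s0, d e3 v (z0, t) ∈ ball (d e3 v (z0, s0)) ε ∧ t ∈ Ioo a b :=
    (hev2.and (isOpen_Ioo.mem_nhds hs0)).filter_mono nhdsWithin_le_nhds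
  obtain ⟨t, ⟨ht1, ht2⟩, ht3⟩ := (hev3.and self_mem_nhdsWithin).exists
  have k1 := hconst _ ht1
  rw [dPsi_at hc h hab hΨ hz0 ht2, dPsi_at hc h hab hΨ hz0 hs0] at k1
  exact ht3 (by simpa using k1)

theorem Appr.smooth_v (hc : 0 < c) (h : Appr c Z S v w) : ContDiffOn ℝ ∞ v (Z ×ˢ S) := by
  rintro ⟨z0, s0⟩ ⟨hz0, hs0⟩
  simp only at hz0 hs0
  refine ContDiffAt.contDiffWithinAt ?_
  obtain ⟨r, hr, hrS⟩ := Metric.isOpen_iff.1 h.openS s0 hs0
  set a := s0 - r / 4 with ha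
  set b := s0 + r / 4 with hb
  have hS : Icc (a - r / 4) (b + r / 4) ⊆ S := by
    intro t ht
    refine hrS ?_
    rw [mem_ball, Real.dist_eq, abs_lt]
    constructor <;> linarith [ht.1, ht.2]
  have hab : Icc a b ⊆ S := (Icc_subset_Icc (by linarith) (by linarith)).trans hS
  have hlt : a < b := by linarith
  have hs : s0 ∈ Ioo a b := ⟨by linarith, by linarith⟩
  have haS : a ∈ S := hab (left_mem_Icc.2 hlt.le)
  have hbS : b ∈ S := hab (right_mem_Icc.2 hlt.le)
  have hO := isOpen_Odom h haS hbS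
  have hw := weak_Psi hc h hlt (by positivity : (0 : ℝ) < r / 4) hS
  have hΨ := weyl_smooth hc hO ((cont_Psi h hlt.le hab).mono (fun x hx => hx.1)) hw
  have hneg := ddPsi_neg hc h hab hΨ hw hz0 hs
  have hx1 := mem_Odom hc h hab hz0 hs
  set G : X → X := fun x => (x.1, d e3 v x) with hG
  set T : X → X := fun x => (x.1, - d e3 (Psi v a b) x) with hT
  have h3 := contDiffOn_d hO hΨ e3
  have hGx0 : G (z0, s0) = (z0, d e3 v (z0, s0)) := rfl
  have hTs : ContDiffAt ℝ ∞ T (G (z0, s0)) :=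
    contDiffAt_fst.prodMk (h3.contDiffAt (hO.mem_nhds hx1)).neg
  have hc3 : ContinuousAt (d e3 v) (z0, s0) :=
    (h.cont_d e3).continuousAt (h.isOpen.mem_nhds ⟨hz0, hs0⟩)
  have hGc : ContinuousAt G (z0, s0) := continuousAt_fst.prodMk hc3
  have hbox : ∀ᶠ x : X in 𝓝 ((z0, s0) : X), x.1 ∈ Z ∧ x.2 ∈ Ioo a b :=
    (h.openZ.prod isOpen_Ioo).mem_nhds (x := ((z0, s0) : X)) ⟨hz0, hs⟩
  have hTG : ∀ᶠ x in 𝓝 ((z0, s0) : X), T (G x) = x := by
    filter_upwards [hbox] with x hx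
    have := dPsi_at hc h hab hΨ hx.1 hx.2
    refine Prod.ext rfl ?_
    show - d e3 (Psi v a b) (x.1, d e3 v (x.1, x.2)) = x.2
    rw [this, neg_neg]
  have hinj : ∀ k : X, fderiv ℝ T (G (z0, s0)) k = 0 → k = 0 := by
    intro k hk
    have hd3 : DifferentiableAt ℝ (d e3 (Psi v a b)) (G (z0, s0)) :=
      (h3.contDiffAt (hO.mem_nhds hx1)).differentiableAt (by simp)
    have hTd : HasFDerivAt T ((ContinuousLinearMap.fst ℝ ℂ ℝ).prod
        (- fderiv ℝ (d e3 (Psi v a b)) (G (z0, s0)))) (G (z0, s0)) :=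
      hasFDerivAt_fst.prodMk hd3.hasFDerivAt.neg
    rw [hTd.fderiv] at hk
    have k1 : k.1 = 0 := congrArg Prod.fst hk
    have k2 : - fderiv ℝ (d e3 (Psi v a b)) (G (z0, s0)) k = 0 := congrArg Prod.snd hk
    have k3 : k = k.2 • e3 := by
      refine Prod.ext ?_ ?_
      · simp [e3, k1]
      · simp [e3]
    rw [k3, map_smul] at k2
    have k4 : fderiv ℝ (d e3 (Psi v a b)) (G (z0, s0)) e3 =
        d e3 (d e3 (Psi v a b)) (z0, d e3 v (z0, s0)) := rfl
    rw [k4, neg_eq_zero, smul_eq_mul, mul_eq_zero] at k2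
    have k5 : k.2 = 0 := k2.resolve_right hneg.ne
    exact Prod.ext k1 k5
  have hGs := contDiffAt_of_right_inverse hTs hGc hTG hinj
  have hds : ContDiffAt ℝ ∞ (d e3 v) (z0, s0) := hGs.snd
  have hΨG : ContDiffAt ℝ ∞ (fun x => Psi v a b (G x)) (z0, s0) :=
    ContDiffAt.comp (g := Psi v a b) (f := G) (z0, s0) (hΨ.contDiffAt (hO.mem_nhds hx1)) hGs
  have hfin : ContDiffAt ℝ ∞ (fun x : X => Psi v a b (G x) + d e3 v x * x.2) (z0, s0) :=
    hΨG.add (hds.mul contDiffAt_snd)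
  refine hfin.congr_of_eventuallyEq ?_
  filter_upwards [hbox] with x hx
  have := Psi_at h hab hx.1 (Ioo_subset_Icc_self hx.2)
  show v x = Psi v a b (x.1, d e3 v (x.1, x.2)) + d e3 v x * x.2
  rw [this]
  ring

end L6

end Pool.MA74
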