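import Mathlib
import Pool.Agent.MA74.Final

set_option autoImplicit false

open MeasureTheory Set Filter Topology Metric
open scoped ContDiff

namespace Pool.MA74

/-- second order Taylor expansion with small remainder. -/
theorem taylor2 {E : Type*} [NormedAddCommGroup E] [NormedSpace ℝ E] {w : E → ℝ}
    (hw : ContDiff ℝ ∞ w) (x : E) {η : ℝ} (hη : 0 < η) :
    ∃ δ > 0, ∀ h : E, ‖h‖ < δ →
      |w (x + h) - w x - fderiv ℝ w x h - (1 / 2) * fderiv ℝ (fderiv ℝ w) x h h| ≤ η * ‖h‖ ^ 2 := by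
  have hd : Differentiable ℝ w := hw.differentiable (by simp)
  have hd2 : DifferentiableAt ℝ (fderiv ℝ w) x :=
    ((hw.fderiv_right (m := ∞) (by simp)).differentiable (by simp)) x
  have h2 : ContDiffAt ℝ 2 w x := (hw.of_le (by norm_cast)).contDiffAt
  have hsym := h2.isSymmSndFDerivAt (by simp)
  have ho := hd2.hasFDerivAt.isLittleO
  rw [Asymptotics.isLittleO_iff] at ho
  obtain ⟨δ, hδ, hb⟩ := Metric.eventually_nhds_iff_ball.1 (ho hη)
  refine ⟨δ, hδ, fun h hh => ?_⟩
  set G : E → ℝ := fun k => w (x + k) - w x - fderiv ℝ w x k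
    - (1 / 2) * fderiv ℝ (fderiv ℝ w) x k k with hG
  have hGd : ∀ k : E, HasFDerivAt G (fderiv ℝ w (x + k) - fderiv ℝ w x
      - fderiv ℝ (fderiv ℝ w) x k) k := by
    intro k
    have e1 : HasFDerivAt (fun k => w (x + k)) (fderiv ℝ w (x + k)) k := by
      have := (hd (x + k)).hasFDerivAt.comp k ((hasFDerivAt_id k).const_add x)
      simp only [ContinuousLinearMap.comp_id] at this
      exact this
    have e2 : HasFDerivAt (fun k => fderiv ℝ w x k) (fderiv ℝ w x) k := (fderiv ℝ w x).hasFDerivAt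
    have e3 : HasFDerivAt (fun k => fderiv ℝ (fderiv ℝ w) x k) (fderiv ℝ (fderiv ℝ w) x) k :=
      (fderiv ℝ (fderiv ℝ w) x).hasFDerivAt
    have e4 := e3.clm_apply (hasFDerivAt_id k)
    have e5 := ((e1.sub_const (w x)).sub e2).sub (e4.const_mul (1 / 2 : ℝ))
    refine e5.congr_fderiv ?_
    ext m
    simp only [id_eq, ContinuousLinearMap.comp_id, sub_apply,
      smul_apply, add_apply,
      ContinuousLinearMap.flip_apply, smul_eq_mul]
    rw [hsym.eq m k]
    ring
  have hmv := (convex_closedBall (0 : E) ‖h‖).norm_image_sub_le_of_norm_hasFDerivWithin_le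
    (f := G) (C := η * ‖h‖) (fun k _ => (hGd k).hasFDerivWithinAt) ?_
    (mem_closedBall_self (norm_nonneg h)) (mem_closedBall_zero_iff.2 le_rfl)
  · have hG0 : G 0 = 0 := by simp [hG]
    rw [hG0, sub_zero, sub_zero, Real.norm_eq_abs] at hmv
    calc _ ≤ η * ‖h‖ * ‖h‖ := hmv
      _ = η * ‖h‖ ^ 2 := by ring
  · intro k hk
    rw [mem_closedBall_zero_iff] at hk
    have hk' : x + k ∈ ball x δ := by
      rw [mem_ball, dist_eq_norm, add_sub_cancel_left]; exact hk.trans_lt hh
    have := hb _ hk'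
    rw [add_sub_cancel_left] at this
    exact this.trans (mul_le_mul_of_nonneg_left hk hη.le)

theorem second_nonneg {w : X → ℝ} (hw : ContDiff ℝ ∞ w) (x A B : X)
    (h : ∀ᶠ ε in 𝓝[>] (0 : ℝ), w x ≤ (2 * Real.pi)⁻¹ *
      ∫ θ in (0 : ℝ)..(2 * Real.pi), w (x + ε • (Real.cos θ • A + Real.sin θ • B))) :
    0 ≤ fderiv ℝ (fderiv ℝ w) x A A + fderiv ℝ (fderiv ℝ w) x B B := by
  set D := fderiv ℝ (fderiv ℝ w) x with hD
  set H := ‖A‖ + ‖B‖ + 1 with hH
  have hH0 : 0 < H := by positivity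
  have hpi := Real.pi_pos
  have key : ∀ η > 0, 0 ≤ D A A + D B B + 4 * η * H ^ 2 := by
    intro η hη
    obtain ⟨δ, hδ, hb⟩ := taylor2 hw x hη
    have hsmall : ∀ᶠ ε in 𝓝[>] (0 : ℝ), ε < δ / H :=
      nhdsWithin_le_nhds (Iio_mem_nhds (by positivity : (0 : ℝ) < δ / H))
    obtain ⟨ε, ⟨h1, h2⟩, h3⟩ := ((h.and hsmall).and self_mem_nhdsWithin).exists
    have hε : 0 < ε := h3
    set hh : ℝ → X := fun θ => ε • (Real.cos θ • A + Real.sin θ • B) with hhd
    have hnorm : ∀ θ, ‖hh θ‖ ≤ ε * H := by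
      intro θ
      rw [hhd]
      simp only
      rw [norm_smul, Real.norm_eq_abs, abs_of_pos hε]
      refine mul_le_mul_of_nonneg_left ?_ hε.le
      calc ‖Real.cos θ • A + Real.sin θ • B‖ ≤ ‖Real.cos θ • A‖ + ‖Real.sin θ • B‖ := norm_add_le _ _
        _ ≤ 1 * ‖A‖ + 1 * ‖B‖ := by
            rw [norm_smul, norm_smul, Real.norm_eq_abs, Real.norm_eq_abs]
            gcongr
            · exact Real.abs_cos_le_one θ
            · exact Real.abs_sin_le_one θ
        _ ≤ H := by rw [hH]; linarith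
    have hle : ∀ θ, w (x + hh θ) ≤ w x + ε * (Real.cos θ * fderiv ℝ w x A
        + Real.sin θ * fderiv ℝ w x B) + (1 / 2) * ε ^ 2 * (Real.cos θ ^ 2 * D A A
        + Real.sin θ * Real.cos θ * (D A B + D B A) + Real.sin θ ^ 2 * D B B)
        + η * (ε * H) ^ 2 := by
      intro θ
      have hlt : ‖hh θ‖ < δ := by
        refine (hnorm θ).trans_lt ?_
        rwa [lt_div_iff₀ hH0] at h2
      have t1 := (abs_le.1 (hb _ hlt)).2
      have t2 : ‖hh θ‖ ^ 2 ≤ (ε * H) ^ 2 := by gcongr; exact hnorm θ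
      have t3 : η * ‖hh θ‖ ^ 2 ≤ η * (ε * H) ^ 2 := mul_le_mul_of_nonneg_left t2 hη.le
      have t4 : fderiv ℝ w x (hh θ) = ε * (Real.cos θ * fderiv ℝ w x A
        + Real.sin θ * fderiv ℝ w x B) := by
        rw [hhd]; simp only [map_smul, map_add, smul_eq_mul]
      have t5 : D (hh θ) (hh θ) = ε ^ 2 * (Real.cos θ ^ 2 * D A A
        + Real.sin θ * Real.cos θ * (D A B + D B A) + Real.sin θ ^ 2 * D B B) := by
        rw [hhd]
        simp only [map_smul, map_add, smul_apply,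
          add_apply, smul_eq_mul]
        ring
      rw [← hD, t5, t4] at t1
      linarith
    have hcw : Continuous (fun θ => w (x + hh θ)) := by
      rw [hhd]
      exact hw.continuous.comp (by fun_prop)
    have hint : ∫ θ in (0 : ℝ)..(2 * Real.pi), w (x + hh θ) ≤
        ∫ θ in (0 : ℝ)..(2 * Real.pi), (w x + ε * (Real.cos θ * fderiv ℝ w x A
        + Real.sin θ * fderiv ℝ w x B) + (1 / 2) * ε ^ 2 * (Real.cos θ ^ 2 * D A A
        + Real.sin θ * Real.cos θ * (D A B + D B A) + Real.sin θ ^ 2 * D B B)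
        + η * (ε * H) ^ 2) := by
      refine intervalIntegral.integral_mono_on (by positivity) (hcw.intervalIntegrable _ _)
        (Continuous.intervalIntegrable (by fun_prop) _ _) ?_
      intro θ _
      exact hle θ
    have i1 : ∫ θ in (0 : ℝ)..(2 * Real.pi), Real.cos θ = 0 := by simp
    have i2 : ∫ θ in (0 : ℝ)..(2 * Real.pi), Real.sin θ = 0 := by simp
    have i3 : ∫ θ in (0 : ℝ)..(2 * Real.pi), Real.cos θ ^ 2 = Real.pi := by
      rw [integral_cos_sq]; simp
    have i4 : ∫ θ in (0 : ℝ)..(2 * Real.pi), Real.sin θ ^ 2 = Real.pi := by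
      rw [integral_sin_sq]; simp
    have i5 : ∫ θ in (0 : ℝ)..(2 * Real.pi), Real.sin θ * Real.cos θ = 0 := by
      rw [integral_sin_mul_cos₁]; simp
    have hval : ∫ θ in (0 : ℝ)..(2 * Real.pi), (w x + ε * (Real.cos θ * fderiv ℝ w x A
        + Real.sin θ * fderiv ℝ w x B) + (1 / 2) * ε ^ 2 * (Real.cos θ ^ 2 * D A A
        + Real.sin θ * Real.cos θ * (D A B + D B A) + Real.sin θ ^ 2 * D B B)
        + η * (ε * H) ^ 2) = 2 * Real.pi * w x + (1 / 2) * ε ^ 2 * (Real.pi * D A A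
          + Real.pi * D B B) + 2 * Real.pi * (η * (ε * H) ^ 2) := by
      have c1 : ∀ f : ℝ → ℝ, Continuous f → IntervalIntegrable f volume 0 (2 * Real.pi) :=
        fun f hf => hf.intervalIntegrable _ _
      have expand : (fun θ => w x + ε * (Real.cos θ * fderiv ℝ w x A
        + Real.sin θ * fderiv ℝ w x B) + (1 / 2) * ε ^ 2 * (Real.cos θ ^ 2 * D A A
        + Real.sin θ * Real.cos θ * (D A B + D B A) + Real.sin θ ^ 2 * D B B)
        + η * (ε * H) ^ 2) = fun θ => (w x + η * (ε * H) ^ 2)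
          + (ε * fderiv ℝ w x A) * Real.cos θ
          + (ε * fderiv ℝ w x B) * Real.sin θ
          + ((1 / 2) * ε ^ 2 * D A A) * Real.cos θ ^ 2
          + ((1 / 2) * ε ^ 2 * D B B) * Real.sin θ ^ 2
          + ((1 / 2) * ε ^ 2 * (D A B + D B A)) * (Real.sin θ * Real.cos θ) := by
        funext θ; ring
      rw [expand]
      rw [intervalIntegral.integral_add (c1 _ (by fun_prop)) (c1 _ (by fun_prop)),
        intervalIntegral.integral_add (c1 _ (by fun_prop)) (c1 _ (by fun_prop)),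
        intervalIntegral.integral_add (c1 _ (by fun_prop)) (c1 _ (by fun_prop)),
        intervalIntegral.integral_add (c1 _ (by fun_prop)) (c1 _ (by fun_prop)),
        intervalIntegral.integral_add (c1 _ (by fun_prop)) (c1 _ (by fun_prop)),
        intervalIntegral.integral_const_mul, intervalIntegral.integral_const_mul,
        intervalIntegral.integral_const_mul, intervalIntegral.integral_const_mul,
        intervalIntegral.integral_const_mul, i1, i2, i3, i4, i5,
        intervalIntegral.integral_const]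
      simp only [smul_eq_mul]
      ring
    rw [hval] at hint
    have h4 : 2 * Real.pi * w x ≤ ∫ θ in (0 : ℝ)..(2 * Real.pi), w (x + hh θ) := by
      have := mul_le_mul_of_nonneg_left h1 (by positivity : (0 : ℝ) ≤ 2 * Real.pi)
      rwa [← mul_assoc, mul_inv_cancel₀ (by positivity), one_mul] at this
    have h5 : 0 ≤ (Real.pi * ε ^ 2 / 2) * (D A A + D B B + 4 * η * H ^ 2) := by
      nlinarith
    exact nonneg_of_mul_nonneg_right h5 (by positivity)
  by_contra hneg
  push Not at hneg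
  set q := -(D A A + D B B) with hq
  have hq0 : 0 < q := by rw [hq]; linarith
  have := key (q / (8 * H ^ 2)) (by positivity)
  have e : 4 * (q / (8 * H ^ 2)) * H ^ 2 = q / 2 := by field_simp; ring
  rw [e] at this
  linarith

theorem d_d {w : X → ℝ} (hw : ContDiff ℝ ∞ w) (x a b : X) :
    d a (d b w) x = fderiv ℝ (fderiv ℝ w) x a b := by
  have hd : DifferentiableAt ℝ (fderiv ℝ w) x :=
    ((hw.fderiv_right (m := ∞) (by simp)).differentiable (by simp)) x
  unfold d
  rw [fderiv_clm_apply hd (differentiableAt_const _)]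
  simp

/-- the Levi form inequalities give the two sign conditions. -/
theorem conv_det {w : X → ℝ} (hw : ContDiff ℝ ∞ w) (x : X)
    (hQ : ∀ a b : ℂ, 0 ≤ fderiv ℝ (fderiv ℝ w) x ((a, b.re) : X) ((a, b.re) : X)
      + fderiv ℝ (fderiv ℝ w) x ((Complex.I * a, -b.im) : X) ((Complex.I * a, -b.im) : X)) :
    0 ≤ d e3 (d e3 w) x ∧ 0 ≤ Dop w x := by
  set D := fderiv ℝ (fderiv ℝ w) x with hD
  have h33 : 0 ≤ D e3 e3 := by
    have := hQ 0 1
    have e : ((Complex.I * 0, -(1 : ℂ).im) : X) = 0 := by ext <;> simp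
    rw [e] at this
    have e' : (((0 : ℂ), (1 : ℂ).re) : X) = e3 := by simp [e3]
    rw [e'] at this
    simpa using this
  have hs13 : D e3 e1 = D e1 e3 := by
    have := d_comm hw e3 e1 x
    rwa [d_d hw, d_d hw] at this
  have hs23 : D e3 e2 = D e2 e3 := by
    have := d_comm hw e3 e2 x
    rwa [d_d hw, d_d hw] at this
  have hq : ∀ b1 b2 : ℝ, 0 ≤ (D e1 e1 + D e2 e2) + 2 * b1 * D e3 e1 - 2 * b2 * D e3 e2
      + (b1 ^ 2 + b2 ^ 2) * D e3 e3 := by
    intro b1 b2
    have := hQ 1 ⟨b1, b2⟩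
    have e : (((1 : ℂ), (⟨b1, b2⟩ : ℂ).re) : X) = e1 + b1 • e3 := by
      simp [e1, e3]
    have e' : ((Complex.I * 1, -(⟨b1, b2⟩ : ℂ).im) : X) = e2 - b2 • e3 := by
      simp [e2, e3]
    rw [e, e'] at this
    simp only [map_add, map_sub, map_smul, add_apply, sub_apply, smul_apply, smul_eq_mul] at this
    rw [hs13, hs23]
    rw [hs13, hs23] at this
    linarith
  refine ⟨by rw [d_d hw]; exact h33, ?_⟩
  unfold Dop
  rw [d_d hw, d_d hw, d_d hw, d_d hw, d_d hw, ← hD]
  rcases h33.eq_or_lt with h0 | h0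
  · have k1 : D e3 e1 = 0 := by
      by_contra hne
      have := hq (-((D e1 e1 + D e2 e2) + 1) / (2 * D e3 e1)) 0
      rw [← h0] at this
      have e : 2 * (-((D e1 e1 + D e2 e2) + 1) / (2 * D e3 e1)) * D e3 e1 =
        -((D e1 e1 + D e2 e2) + 1) := by field_simp
      rw [e] at this
      linarith
    have k2 : D e3 e2 = 0 := by
      by_contra hne
      have := hq 0 (((D e1 e1 + D e2 e2) + 1) / (2 * D e3 e2))
      rw [← h0] at this
      have e : 2 * (((D e1 e1 + D e2 e2) + 1) / (2 * D e3 e2)) * D e3 e2 =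
        ((D e1 e1 + D e2 e2) + 1) := by field_simp
      rw [e] at this
      linarith
    rw [k1, k2, ← h0]; simp
  · have := hq (-(D e3 e1) / D e3 e3) (D e3 e2 / D e3 e3)
    have h1 : 0 ≤ D e3 e3 * ((D e1 e1 + D e2 e2) + 2 * (-(D e3 e1) / D e3 e3) * D e3 e1
      - 2 * (D e3 e2 / D e3 e3) * D e3 e2
      + ((-(D e3 e1) / D e3 e3) ^ 2 + (D e3 e2 / D e3 e3) ^ 2) * D e3 e3) := mul_nonneg h0.le this
    have e : D e3 e3 * ((D e1 e1 + D e2 e2) + 2 * (-(D e3 e1) / D e3 e3) * D e3 e1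
      - 2 * (D e3 e2 / D e3 e3) * D e3 e2
      + ((-(D e3 e1) / D e3 e3) ^ 2 + (D e3 e2 / D e3 e3) ^ 2) * D e3 e3) =
      (D e1 e1 * D e3 e3 - D e3 e1 ^ 2) + (D e2 e2 * D e3 e3 - D e3 e2 ^ 2) := by
      field_simp
      ring
    rw [e] at h1
    exact h1

end Pool.MA74
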