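import Mathlib
import Pool.Agent.MA74.Final

set_option autoImplicit false

open MeasureTheory Set Filter Topology Metric
open scoped ContDiff Convolution

namespace Pool.MA74

/-- mollification -/
noncomputable def moll (φ : ContDiffBump (0 : X)) (g : X → ℝ) : X → ℝ :=
  (φ.normed volume ⋆[ContinuousLinearMap.lsmul ℝ ℝ, volume] g)

theorem moll_apply (φ : ContDiffBump (0 : X)) (g : X → ℝ) (x : X) :
    moll φ g x = ∫ t, φ.normed volume t * g (x - t) := rfl

theorem contDiff_moll (φ : ContDiffBump (0 : X)) {g : X → ℝ} (hg : Continuous g) :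
    ContDiff ℝ ∞ (moll φ g) :=
  HasCompactSupport.contDiff_convolution_left (n := ⊤) _ φ.hasCompactSupport_normed
    φ.contDiff_normed hg.locallyIntegrable

theorem d_moll (φ : ContDiffBump (0 : X)) {g : X → ℝ} (hg : ContDiff ℝ 1 g)
    (hgc : HasCompactSupport g) (e : X) : d e (moll φ g) = moll φ (d e g) := by
  funext x
  have h := HasCompactSupport.hasFDerivAt_convolution_right (𝕜 := ℝ) (μ := (volume : Measure X))
    (ContinuousLinearMap.lsmul ℝ ℝ) hgc
    (φ.contDiff_normed (μ := (volume : Measure X)) (n := 0)).continuous.locallyIntegrable hg x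
  unfold d
  have h1 : fderiv ℝ (moll φ g) x = _ := h.fderiv
  rw [h1, moll_apply]
  have hint : Integrable (fun t => (((ContinuousLinearMap.lsmul ℝ ℝ).precompR X)
      (φ.normed volume t)) (fderiv ℝ g (x - t))) := by
    refine (Continuous.integrable_of_hasCompactSupport ?_ ?_)
    · have h2 : Continuous (fderiv ℝ g) := hg.continuous_fderiv (by simp)
      have h3 : Continuous (φ.normed (volume : Measure X)) :=
        (φ.contDiff_normed (μ := (volume : Measure X)) (n := 0)).continuous
      exact (ContinuousLinearMap.continuous₂ _).comp (h3.prodMk (h2.comp (by fun_prop)))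
    · refine HasCompactSupport.intro
        (φ.hasCompactSupport_normed (μ := (volume : Measure X))).isCompact ?_
      intro t ht
      rw [image_eq_zero_of_notMem_tsupport ht]
      simp
  rw [convolution_def, ContinuousLinearMap.integral_apply hint]
  rfl

theorem moll_close (φ : ContDiffBump (0 : X)) {g : X → ℝ} (hg : Continuous g) {x : X} {ε : ℝ}
    (h : ∀ y ∈ ball x φ.rOut, dist (g y) (g x) ≤ ε) : dist (moll φ g x) (g x) ≤ ε :=
  ContDiffBump.dist_normed_convolution_le hg.aestronglyMeasurable h

theorem moll_submean (φ : ContDiffBump (0 : X)) {g : X → ℝ} (hg : Continuous g) (x A B : X)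
    (h : ∀ t : X, ‖t‖ ≤ φ.rOut → g (x - t) ≤ (2 * Real.pi)⁻¹ *
      ∫ θ in (0 : ℝ)..(2 * Real.pi), g (x - t + (Real.cos θ • A + Real.sin θ • B))) :
    moll φ g x ≤ (2 * Real.pi)⁻¹ *
      ∫ θ in (0 : ℝ)..(2 * Real.pi), moll φ g (x + (Real.cos θ • A + Real.sin θ • B)) := by
  have hpi := Real.pi_pos
  set ν : X → ℝ := φ.normed volume with hν
  have cν : Continuous ν := (φ.contDiff_normed (μ := (volume : Measure X)) (n := 0)).continuous
  have sν : HasCompactSupport ν := φ.hasCompactSupport_normed
  have nν : ∀ t, 0 ≤ ν t := φ.nonneg_normed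
  have zν : ∀ t : X, φ.rOut < ‖t‖ → ν t = 0 := by
    intro t ht
    have : t ∉ tsupport ν := by
      rw [hν, φ.tsupport_normed_eq, mem_closedBall_zero_iff]
      exact not_le.2 ht
    exact image_eq_zero_of_notMem_tsupport this
  set F : ℝ → X → ℝ := fun θ t => ν t * g (x + (Real.cos θ • A + Real.sin θ • B) - t) with hF
  have cF : Continuous (fun p : ℝ × X => F p.1 p.2) := by
    rw [hF]
    exact (cν.comp continuous_snd).mul (hg.comp (by fun_prop))
  have hint : Integrable (Function.uncurry F)
      (((volume : Measure ℝ).restrict (uIoc 0 (2 * Real.pi))).prod (volume : Measure X)) := by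
    have h1 : IntegrableOn (Function.uncurry F) (Icc (0 : ℝ) (2 * Real.pi) ×ˢ closedBall (0 : X) φ.rOut)
        ((volume : Measure ℝ).prod (volume : Measure X)) :=
      cF.continuousOn.integrableOn_compact (isCompact_Icc.prod (isCompact_closedBall _ _))
    have h2 : ((volume : Measure ℝ).restrict (uIoc 0 (2 * Real.pi))).prod (volume : Measure X) =
        ((volume : Measure ℝ).prod (volume : Measure X)).restrict
          (uIoc 0 (2 * Real.pi) ×ˢ (univ : Set X)) := by
      rw [← Measure.prod_restrict, Measure.restrict_univ]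
    rw [h2]
    refine IntegrableOn.of_forall_sdiff_eq_zero (s := Icc (0 : ℝ) (2 * Real.pi) ×ˢ closedBall (0 : X) φ.rOut)
      h1 ?_ ?_
    · exact measurableSet_uIoc.prod MeasurableSet.univ
    · rintro ⟨θ, t⟩ ⟨⟨h3, -⟩, h4⟩
      rw [uIoc_of_le (by positivity)] at h3
      have : φ.rOut < ‖t‖ := by
        by_contra hh
        exact h4 ⟨⟨h3.1.le, h3.2⟩, mem_closedBall_zero_iff.2 (not_lt.1 hh)⟩
      show ν t * _ = 0
      rw [zν t this, zero_mul]
  have hswap := intervalIntegral_integral_swap (μ := (volume : Measure X)) hint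
  have e1 : ∀ θ : ℝ, moll φ g (x + (Real.cos θ • A + Real.sin θ • B)) = ∫ t, F θ t := fun θ => rfl
  simp only [e1]
  rw [hswap, ← integral_const_mul, moll_apply]
  have i2 : Integrable (fun t => ∫ θ in (0 : ℝ)..(2 * Real.pi), F θ t) := by
    have := hint.integral_prod_right
    refine this.congr (Eventually.of_forall fun t => ?_)
    simp only [Function.uncurry]
    rw [intervalIntegral.integral_of_le (by positivity), uIoc_of_le (by positivity)]
  refine integral_mono ?_ (i2.const_mul _) ?_
  · exact integrable_of (cν.mul (hg.comp (by fun_prop))) sν.mul_right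
  · intro t
    have e2 : ∫ θ in (0 : ℝ)..(2 * Real.pi), F θ t = ν t *
        ∫ θ in (0 : ℝ)..(2 * Real.pi), g (x - t + (Real.cos θ • A + Real.sin θ • B)) := by
      rw [← intervalIntegral.integral_const_mul]
      refine intervalIntegral.integral_congr fun θ _ => ?_
      simp only [hF]
      congr 2
      abel
    simp only
    rw [e2]
    by_cases ht : ‖t‖ ≤ φ.rOut
    · calc ν t * g (x - t) ≤ ν t * ((2 * Real.pi)⁻¹ *
          ∫ θ in (0 : ℝ)..(2 * Real.pi), g (x - t + (Real.cos θ • A + Real.sin θ • B))) :=
            mul_le_mul_of_nonneg_left (h t ht) (nν t)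
        _ = _ := by ring
    · show ν t * g (x - t) ≤ _
      rw [zν t (not_le.1 ht)]
      simp

end Pool.MA74
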