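import Mathlib
import Pool.Agent.MA74.Red1
import Pool.Agent.MA74.Red2

set_option autoImplicit false

open MeasureTheory Set Filter Topology Metric
open scoped ContDiff Convolution

namespace Pool.MA74

/-- uniform convergence of mollifications. -/
theorem moll_unif {g : X → ℝ} (hg : Continuous g) (hc : HasCompactSupport g)
    {φ : ℕ → ContDiffBump (0 : X)} (hφ : Tendsto (fun k => (φ k).rOut) atTop (𝓝 0)) :
    TendstoUniformly (fun k => moll (φ k) g) g atTop := by
  rw [Metric.tendstoUniformly_iff]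
  intro ε hε
  obtain ⟨δ, hδ, hδ'⟩ := Metric.uniformContinuous_iff.1 (hc.uniformContinuous_of_continuous hg)
    (ε / 2) (half_pos hε)
  filter_upwards [hφ.eventually_lt_const hδ] with k hk x
  rw [dist_comm]
  refine (moll_close (φ k) hg (x := x) (ε := ε / 2) ?_).trans_lt (by linarith)
  intro y hy
  exact (hδ' ((mem_ball.1 hy).trans hk)).le

theorem circ_eq (θ : ℝ) (a b : ℂ) :
    (Real.cos θ • ((a, b.re) : X) + Real.sin θ • ((Complex.I * a, -b.im) : X) : X) =
      (Complex.exp ((θ : ℂ) * Complex.I) * a, (Complex.exp ((θ : ℂ) * Complex.I) * b).re) := by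
  rw [Complex.exp_mul_I, ← Complex.ofReal_cos, ← Complex.ofReal_sin]
  refine Prod.ext ?_ ?_
  · simp only [Prod.fst_add, Prod.smul_fst, Complex.real_smul]
    ring
  · simp only [Prod.snd_add, Prod.smul_snd, smul_eq_mul, Complex.mul_re, Complex.add_re,
      Complex.ofReal_re, Complex.I_re, Complex.ofReal_im, Complex.I_im, Complex.add_im,
      Complex.mul_im]
    ring

/-- the box of radius `R` -/
def box (z0 : ℂ) (s0 R : ℝ) : Set X := ball z0 R ×ˢ Ioo (s0 - R) (s0 + R)

theorem mem_box {z0 : ℂ} {s0 R : ℝ} {x : X} :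
    x ∈ box z0 s0 R ↔ ‖x.1 - z0‖ < R ∧ |x.2 - s0| < R := by
  unfold box
  rw [mem_prod, mem_ball, dist_eq_norm, abs_lt, mem_Ioo]
  constructor
  · rintro ⟨h1, h2, h3⟩; exact ⟨h1, by linarith, by linarith⟩
  · rintro ⟨h1, h2, h3⟩; exact ⟨h1, by linarith, by linarith⟩

theorem isOpen_box (z0 : ℂ) (s0 R : ℝ) : IsOpen (box z0 s0 R) := isOpen_ball.prod isOpen_Ioo

theorem norm_exp_mul (θ : ℝ) (a : ℂ) : ‖Complex.exp ((θ : ℂ) * Complex.I) * a‖ = ‖a‖ := by
  rw [norm_mul, Complex.norm_exp_ofReal_mul_I, one_mul]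

/-- construction of the approximations -/
theorem exists_approx {v : X → ℝ} {z0 : ℂ} {s0 r : ℝ} (hr : 0 < r)
    (hv : ContDiffOn ℝ 1 v (box z0 s0 (4 * r)))
    (hsub : ∀ y ∈ box z0 s0 (2 * r), ∀ a b : ℂ, ‖a‖ < r → ‖b‖ < r →
      v y ≤ (2 * Real.pi)⁻¹ * ∫ θ in (0 : ℝ)..(2 * Real.pi),
        v (y + (Complex.exp ((θ : ℂ) * Complex.I) * a,
          (Complex.exp ((θ : ℂ) * Complex.I) * b).re))) :
    ∃ w : ℕ → X → ℝ, (∀ k, ContDiff ℝ ∞ (w k)) ∧
      TendstoUniformlyOn w v atTop (box z0 s0 r) ∧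
      (∀ e : X, TendstoUniformlyOn (fun k => d e (w k)) (d e v) atTop (box z0 s0 r)) ∧
      (∀ k, ∀ x ∈ box z0 s0 r, ∀ a b : ℂ,
        0 ≤ fderiv ℝ (fderiv ℝ (w k)) x ((a, b.re) : X) ((a, b.re) : X)
        + fderiv ℝ (fderiv ℝ (w k)) x ((Complex.I * a, -b.im) : X)
          ((Complex.I * a, -b.im) : X)) := by
  have hopen := isOpen_box z0 s0 (4 * r)
  set K : Set X := closedBall z0 (3 * r) ×ˢ Icc (s0 - 3 * r) (s0 + 3 * r) with hK
  have hKc : IsCompact K := (isCompact_closedBall _ _).prod isCompact_Icc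
  have hKU : K ⊆ box z0 s0 (4 * r) := by
    rintro x ⟨h1, h2⟩
    rw [mem_closedBall, dist_eq_norm] at h1
    rw [mem_box, abs_lt]
    exact ⟨by linarith, by linarith [h2.1], by linarith [h2.2]⟩
  obtain ⟨ψ, cψ, sψ, tψ, oneψ, -⟩ := exists_cutoff hKc hopen hKU
  set g : X → ℝ := fun x => v x * ψ x with hg
  have hgK : ∀ x ∈ K, g x = v x := fun x hx => by
    show v x * ψ x = v x
    rw [oneψ x hx, mul_one]
  have hboxK : box z0 s0 (3 * r) ⊆ K := by
    intro x hx
    rw [mem_box, abs_lt] at hx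
    refine ⟨?_, by constructor <;> linarith [hx.2.1, hx.2.2]⟩
    rw [mem_closedBall, dist_eq_norm]; exact hx.1.le
  have g1 : ContDiff ℝ 1 g := by
    rw [contDiff_iff_contDiffAt]
    intro x
    by_cases hx : x ∈ box z0 s0 (4 * r)
    · exact (hv.contDiffAt (hopen.mem_nhds hx)).mul (cψ.contDiffAt.of_le (by norm_cast))
    · have hx' : x ∉ tsupport ψ := fun h => hx (tψ h)
      refine (contDiffAt_const (c := (0 : ℝ))).congr_of_eventuallyEq ?_
      filter_upwards [notMem_tsupport_iff_eventuallyEq.1 hx'] with y hy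
      simp [hg, hy]
  have gc : HasCompactSupport g := sψ.mul_left
  let φ : ℕ → ContDiffBump (0 : X) := fun k =>
    ⟨r / (2 * (k + 1)), r / (k + 1), by positivity, by
      apply div_lt_div_of_pos_left hr (by positivity)
      have : (0 : ℝ) ≤ k := Nat.cast_nonneg k
      linarith⟩
  have hφ : Tendsto (fun k => (φ k).rOut) atTop (𝓝 0) := by
    have := (tendsto_one_div_add_atTop_nhds_zero_nat (𝕜 := ℝ)).const_mul r
    rw [mul_zero] at this
    refine this.congr fun k => ?_
    simp only [φ]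
    rw [mul_one_div]
  have hφr : ∀ k, (φ k).rOut ≤ r := by
    intro k
    show r / (k + 1) ≤ r
    refine div_le_self hr.le ?_
    have : (0 : ℝ) ≤ k := Nat.cast_nonneg k
    linarith
  have hsmooth : ∀ k, ContDiff ℝ ∞ (moll (φ k) g) := fun k => contDiff_moll (φ k) g1.continuous
  have hb13 : box z0 s0 r ⊆ box z0 s0 (3 * r) := by
    intro x hx
    rw [mem_box] at hx ⊢
    exact ⟨by linarith, by linarith⟩
  refine ⟨fun k => moll (φ k) g, hsmooth, ?_, ?_, ?_⟩
  · refine ((moll_unif g1.continuous gc hφ).tendstoUniformlyOn).congr_right ?_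
    intro x hx
    exact hgK x (hboxK (hb13 hx))
  · intro e
    have e1 : (fun k => d e (moll (φ k) g)) = fun k => moll (φ k) (d e g) := by
      funext k; exact d_moll (φ k) g1 gc e
    rw [e1]
    have cdg : Continuous (d e g) := (g1.continuous_fderiv (by simp)).clm_apply continuous_const
    refine ((moll_unif cdg (hcs_d gc e) hφ).tendstoUniformlyOn).congr_right ?_
    intro x hx
    have hev : g =ᶠ[𝓝 x] v := by
      filter_upwards [(isOpen_box z0 s0 (3 * r)).mem_nhds (hb13 hx)] with y hy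
      exact hgK y (hboxK hy)
    unfold d
    rw [hev.fderiv_eq]
  · intro k x hx a b
    refine second_nonneg (hsmooth k) x _ _ ?_
    have hsa : ∀ᶠ ε in 𝓝[>] (0 : ℝ), ε * ‖a‖ < r := by
      have : Tendsto (fun ε : ℝ => ε * ‖a‖) (𝓝 0) (𝓝 (0 * ‖a‖)) :=
        tendsto_id.mul_const _
      rw [zero_mul] at this
      exact nhdsWithin_le_nhds (this.eventually_lt_const hr)
    have hsb : ∀ᶠ ε in 𝓝[>] (0 : ℝ), ε * ‖b‖ < r := by
      have : Tendsto (fun ε : ℝ => ε * ‖b‖) (𝓝 0) (𝓝 (0 * ‖b‖)) :=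
        tendsto_id.mul_const _
      rw [zero_mul] at this
      exact nhdsWithin_le_nhds (this.eventually_lt_const hr)
    filter_upwards [hsa, hsb, self_mem_nhdsWithin] with ε ha hb hε
    have hε' : 0 < ε := hε
    have hpt : ∀ θ : ℝ, ε • (Real.cos θ • ((a, b.re) : X) + Real.sin θ •
        ((Complex.I * a, -b.im) : X)) = Real.cos θ • (ε • ((a, b.re) : X))
          + Real.sin θ • (ε • ((Complex.I * a, -b.im) : X)) := by
      intro θ
      rw [smul_add, smul_comm ε, smul_comm ε]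
    have hpt2 : ∀ θ : ℝ, Real.cos θ • (ε • ((a, b.re) : X))
          + Real.sin θ • (ε • ((Complex.I * a, -b.im) : X)) =
        (Complex.exp ((θ : ℂ) * Complex.I) * ((ε : ℂ) * a),
          (Complex.exp ((θ : ℂ) * Complex.I) * ((ε : ℂ) * b)).re) := by
      intro θ
      rw [← circ_eq]
      congr 2
      · refine Prod.ext ?_ ?_ <;> simp
      · refine Prod.ext ?_ ?_
        · simp; ring
        · simp
    simp_rw [hpt]
    refine moll_submean (φ k) g1.continuous x _ _ ?_
    intro t ht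
    simp_rw [hpt2]
    have ht1 : ‖t.1‖ ≤ r := (norm_fst_le t).trans (ht.trans (hφr k))
    have ht2 : |t.2| ≤ r := (norm_snd_le t).trans (ht.trans (hφr k))
    rw [mem_box] at hx
    have hy : x - t ∈ box z0 s0 (2 * r) := by
      rw [mem_box]
      constructor
      · have : (x - t).1 - z0 = (x.1 - z0) - t.1 := by rw [Prod.fst_sub]; ring
        rw [this]
        exact (norm_sub_le _ _).trans_lt (by linarith [hx.1])
      · have : (x - t).2 - s0 = (x.2 - s0) - t.2 := by rw [Prod.snd_sub]; ring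
        rw [this]
        exact (abs_sub _ _).trans_lt (by linarith [hx.2])
    have na : ‖(ε : ℂ) * a‖ < r := by
      rw [norm_mul, Complex.norm_real, Real.norm_eq_abs, abs_of_pos hε']; exact ha
    have nb : ‖(ε : ℂ) * b‖ < r := by
      rw [norm_mul, Complex.norm_real, Real.norm_eq_abs, abs_of_pos hε']; exact hb
    have h1 := hsub (x - t) hy _ _ na nb
    rw [mem_box] at hy
    have hyK : x - t ∈ K := by
      refine hboxK ?_
      rw [mem_box]
      exact ⟨by linarith [hy.1], by linarith [hy.2]⟩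
    rw [hgK _ hyK]
    refine h1.trans_eq ?_
    congr 1
    refine intervalIntegral.integral_congr fun θ _ => ?_
    refine (hgK _ (hboxK ?_)).symm
    rw [mem_box]
    constructor
    · have : (x - t + (Complex.exp ((θ : ℂ) * Complex.I) * ((ε : ℂ) * a),
          (Complex.exp ((θ : ℂ) * Complex.I) * ((ε : ℂ) * b)).re)).1 - z0 =
          ((x - t).1 - z0) + Complex.exp ((θ : ℂ) * Complex.I) * ((ε : ℂ) * a) := by
        rw [Prod.fst_add]; ring
      rw [this]
      refine (norm_add_le _ _).trans_lt ?_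
      rw [norm_exp_mul]
      linarith [hy.1]
    · have : (x - t + (Complex.exp ((θ : ℂ) * Complex.I) * ((ε : ℂ) * a),
          (Complex.exp ((θ : ℂ) * Complex.I) * ((ε : ℂ) * b)).re)).2 - s0 =
          ((x - t).2 - s0) + (Complex.exp ((θ : ℂ) * Complex.I) * ((ε : ℂ) * b)).re := by
        rw [Prod.snd_add]; ring
      rw [this]
      refine (abs_add_le _ _).trans_lt ?_
      have h3 : |(Complex.exp ((θ : ℂ) * Complex.I) * ((ε : ℂ) * b)).re| ≤ ‖(ε : ℂ) * b‖ := by
        refine (Complex.abs_re_le_norm _).trans_eq (norm_exp_mul θ _)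
      linarith [hy.2]

end Pool.MA74
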