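import Mathlib
import Pool.Agent.MA74.Red3

set_option autoImplicit false

open MeasureTheory Set Filter Topology Metric
open scoped ContDiff Convolution

namespace Pool.MA74

/-- the real linear projection `(z₁, z₂) ↦ (z₁, Re z₂)`. -/
noncomputable def Pr : (Fin 2 → ℂ) →L[ℝ] X :=
  (ContinuousLinearMap.proj (R := ℝ) (φ := fun _ : Fin 2 => ℂ) 0).prod
    (Complex.reCLM.comp (ContinuousLinearMap.proj (R := ℝ) (φ := fun _ : Fin 2 => ℂ) 1))

theorem Pr_apply (x : Fin 2 → ℂ) : Pr x = (x 0, (x 1).re) := rfl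

theorem hess_comp {w : X → ℝ} (hw : ContDiff ℝ ∞ w) (x ξ ζ : Fin 2 → ℂ) :
    fderiv ℝ (fderiv ℝ (fun x => w (Pr x))) x ξ ζ =
      fderiv ℝ (fderiv ℝ w) (Pr x) (Pr ξ) (Pr ζ) := by
  have hd : Differentiable ℝ w := hw.differentiable (by simp)
  have hd2 : Differentiable ℝ (fderiv ℝ w) :=
    (hw.fderiv_right (m := ∞) (by simp)).differentiable (by simp)
  have h1 : fderiv ℝ (fun x => w (Pr x)) = fun x => (fderiv ℝ w (Pr x)).comp Pr := by
    funext y
    exact ((hd (Pr y)).hasFDerivAt.comp y Pr.hasFDerivAt).fderiv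
  rw [h1]
  have h2 : HasFDerivAt (fun x => fderiv ℝ w (Pr x)) ((fderiv ℝ (fderiv ℝ w) (Pr x)).comp Pr) x :=
    (hd2 (Pr x)).hasFDerivAt.comp x Pr.hasFDerivAt
  have h3 := h2.clm_comp (hasFDerivAt_const Pr x)
  rw [h3.fderiv]
  simp

/-- the complex Hessian, as in the frozen statement -/
noncomputable def cHess (n : ℕ) (v : (Fin n → ℂ) → ℝ) (z : Fin n → ℂ) : Matrix (Fin n) (Fin n) ℂ :=
  Matrix.of fun j l : Fin n =>
            (1 / 4 : ℂ) *
              (((fderiv ℝ (fderiv ℝ v) z (Pi.single j (1 : ℂ) : Fin n → ℂ) (Pi.single l (1 : ℂ) : Fin n → ℂ)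
                  + fderiv ℝ (fderiv ℝ v) z (Pi.single j Complex.I : Fin n → ℂ) (Pi.single l Complex.I : Fin n → ℂ) : ℝ) : ℂ)
              + Complex.I *
                ((fderiv ℝ (fderiv ℝ v) z (Pi.single j (1 : ℂ) : Fin n → ℂ) (Pi.single l Complex.I : Fin n → ℂ)
                  - fderiv ℝ (fderiv ℝ v) z (Pi.single j Complex.I : Fin n → ℂ) (Pi.single l (1 : ℂ) : Fin n → ℂ) : ℝ) : ℂ))

theorem det_comp {w : X → ℝ} (hw : ContDiff ℝ ∞ w) (x : Fin 2 → ℂ) :
    (cHess 2 (fun x => w (Pr x)) x).det.re = (1 / 16) * Dop w (Pr x) := by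
  set D := fderiv ℝ (fderiv ℝ w) (Pr x) with hD
  have p0 : Pr (Pi.single 0 (1 : ℂ) : Fin 2 → ℂ) = e1 := by
    rw [Pr_apply]; simp [e1]
  have p1 : Pr (Pi.single 0 Complex.I : Fin 2 → ℂ) = e2 := by
    rw [Pr_apply]; simp [e2]
  have p2 : Pr (Pi.single 1 (1 : ℂ) : Fin 2 → ℂ) = e3 := by
    rw [Pr_apply]; simp [e3]
  have p3 : Pr (Pi.single 1 Complex.I : Fin 2 → ℂ) = 0 := by
    rw [Pr_apply]; simp
  have hs : ∀ a b : X, D a b = D b a := by
    intro a b
    have := d_comm hw a b (Pr x)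
    rwa [d_d hw, d_d hw] at this
  unfold cHess
  rw [Matrix.det_fin_two]
  simp only [Matrix.of_apply, hess_comp hw, p0, p1, p2, p3, ← hD, map_zero,
    zero_apply]
  unfold Dop
  simp only [d_d hw, ← hD]
  rw [hs e2 e1, hs e3 e1, hs e3 e2]
  simp only [Complex.sub_re, Complex.mul_re, Complex.mul_im, Complex.add_re, Complex.add_im,
    Complex.ofReal_re, Complex.ofReal_im, Complex.I_re, Complex.I_im]
  norm_num
  ring

/-- the Levi form, as in the frozen statement. -/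
noncomputable def levi (n : ℕ) (v : (Fin n → ℂ) → ℝ) (z ξ : Fin n → ℂ) : ℝ :=
  fderiv ℝ (fderiv ℝ v) z ξ ξ + fderiv ℝ (fderiv ℝ v) z (Complex.I • ξ) (Complex.I • ξ)

theorem levi_comp {w : X → ℝ} (hw : ContDiff ℝ ∞ w) (x ξ : Fin 2 → ℂ)
    (h : 0 ≤ fderiv ℝ (fderiv ℝ w) (Pr x) ((ξ 0, (ξ 1).re) : X) ((ξ 0, (ξ 1).re) : X)
        + fderiv ℝ (fderiv ℝ w) (Pr x) ((Complex.I * ξ 0, -(ξ 1).im) : X)
          ((Complex.I * ξ 0, -(ξ 1).im) : X)) :
    0 ≤ levi 2 (fun x => w (Pr x)) x ξ := by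
  unfold levi
  rw [hess_comp hw, hess_comp hw]
  have e1 : Pr ξ = (ξ 0, (ξ 1).re) := rfl
  have e2 : Pr (Complex.I • ξ) = (Complex.I * ξ 0, -(ξ 1).im) := by
    rw [Pr_apply]; simp
  rw [e1, e2]
  exact h

/-- factorisation of integrals. -/
theorem integral_factor (f : X → ℝ) (κ : ℝ → ℝ) :
    ∫ x : Fin 2 → ℂ, f (Pr x) * κ (x 1).im = (∫ y, f y) * ∫ t, κ t := by
  have m1 := volume_preserving_finTwoArrow ℂ
  have m2 : MeasurePreserving (Prod.map (id : ℂ → ℂ) Complex.measurableEquivRealProd)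
      ((volume : Measure ℂ).prod (volume : Measure ℂ))
      ((volume : Measure ℂ).prod ((volume : Measure ℝ).prod (volume : Measure ℝ))) :=
    (MeasurePreserving.id (volume : Measure ℂ)).prod Complex.volume_preserving_equiv_real_prod
  have m3 := (measurePreserving_prodAssoc (volume : Measure ℂ) (volume : Measure ℝ)
    (volume : Measure ℝ)).symm
  have e2 : MeasurableEmbedding (Prod.map (id : ℂ → ℂ) Complex.measurableEquivRealProd) :=
    (MeasurableEquiv.prodCongr (MeasurableEquiv.refl ℂ)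
      Complex.measurableEquivRealProd).measurableEmbedding
  have h3 : ∫ y : X × ℝ, f y.1 * κ y.2 ∂(((volume : Measure ℂ).prod (volume : Measure ℝ)).prod
      (volume : Measure ℝ)) = (∫ y, f y) * ∫ t, κ t := integral_prod_mul f κ
  rw [← h3, ← m3.integral_comp' , ← m2.integral_comp e2]
  have h4 := m1.integral_comp' (g := fun p : ℂ × ℂ => f (p.1, p.2.re) * κ p.2.im)
  exact h4

end Pool.MA74
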