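import Mathlib
import Pool.Agent.MA74.Red4

set_option autoImplicit false

open MeasureTheory Set Filter Topology Metric
open scoped ContDiff Convolution

namespace Pool.MA74

/-- the embedding at height `t`. -/
noncomputable def emb (t : ℝ) (y : X) : Fin 2 → ℂ := ![y.1, (y.2 : ℂ) + (t : ℂ) * Complex.I]

theorem Pr_emb (t : ℝ) (y : X) : Pr (emb t y) = y := by
  rw [Pr_apply]
  refine Prod.ext ?_ ?_ <;> simp [emb]

theorem emb_Pr (x : Fin 2 → ℂ) : emb (x 1).im (Pr x) = x := by
  funext i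
  fin_cases i
  · rfl
  · simp [emb, Pr_apply]

theorem emb_im (t : ℝ) (y : X) : (emb t y 1).im = t := by simp [emb]

theorem continuous_emb : Continuous (fun p : X × ℝ => emb p.2 p.1) := by
  unfold emb
  refine continuous_pi fun i => ?_
  fin_cases i
  · exact continuous_fst.comp continuous_fst
  · have : Continuous (fun p : X × ℝ => ((p.1.2 : ℝ) : ℂ) + ((p.2 : ℝ) : ℂ) * Complex.I) := by
      fun_prop
    exact this

theorem contDiff_emb (t : ℝ) : ContDiff ℝ ∞ (emb t) := by
  unfold emb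
  rw [contDiff_pi]
  intro i
  fin_cases i
  · exact contDiff_fst
  · have : ContDiff ℝ ∞ (fun y : X => ((y.2 : ℝ) : ℂ) + (t : ℂ) * Complex.I) :=
      (Complex.ofRealCLM.contDiff.comp contDiff_snd).add contDiff_const
    exact this

theorem hasDerivAt_emb (y : X) (t : ℝ) :
    HasDerivAt (fun t => emb t y) (Pi.single 1 Complex.I : Fin 2 → ℂ) t := by
  rw [hasDerivAt_pi]
  intro i
  fin_cases i
  · simpa [emb] using hasDerivAt_const t y.1
  · have h1 : HasDerivAt (fun t : ℝ => (y.2 : ℂ) + (t : ℂ) * Complex.I) (1 * Complex.I) t :=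
      ((Complex.ofRealCLM.hasDerivAt (x := t)).mul_const Complex.I).const_add _
    simpa [emb] using h1

/-- `u` does not depend on `Im z₂` on a box. -/
theorem eq_on_box {Ω : Set (Fin 2 → ℂ)} {u : (Fin 2 → ℂ) → ℝ} (hΩ : IsOpen Ω)
    (hu : ContDiffOn ℝ 1 u Ω)
    (hinv : ∀ z ∈ Ω, fderiv ℝ u z (Pi.single 1 Complex.I : Fin 2 → ℂ) = 0)
    {y : X} {a b : ℝ} (h : ∀ t ∈ Ioo a b, emb t y ∈ Ω) {s t : ℝ} (hs : s ∈ Ioo a b)
    (ht : t ∈ Ioo a b) : u (emb s y) = u (emb t y) := by
  have hd : ∀ t ∈ Ioo a b, HasDerivAt (fun t => u (emb t y)) 0 t := by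
    intro t ht
    have h1 : DifferentiableAt ℝ u (emb t y) :=
      (hu.contDiffAt (hΩ.mem_nhds (h t ht))).differentiableAt (by simp)
    have h2 := h1.hasFDerivAt.comp_hasDerivAt t (hasDerivAt_emb y t)
    rw [hinv _ (h t ht)] at h2
    exact h2
  exact isOpen_Ioo.is_const_of_deriv_eq_zero (f := fun t => u (emb t y))
    (convex_Ioo a b).isPreconnected
    (fun q hq => (hd q hq).differentiableAt.differentiableWithinAt)
    (fun q hq => (hd q hq).deriv) hs ht

theorem main {Ω : Set (Fin 2 → ℂ)} {u : (Fin 2 → ℂ) → ℝ} {c : ℝ} (hΩ : IsOpen Ω) (hc : 0 < c)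
    (hu : ContDiffOn ℝ 1 u Ω)
    (hpsh : ∀ z w : Fin 2 → ℂ, (∀ ζ : ℂ, ‖ζ‖ ≤ 1 → z + ζ • w ∈ Ω) →
      u z ≤ (2 * Real.pi)⁻¹ * ∫ θ in (0 : ℝ)..(2 * Real.pi),
        u (z + Complex.exp ((θ : ℂ) * Complex.I) • w))
    (hinv : ∀ z ∈ Ω, fderiv ℝ u z (Pi.single 1 Complex.I : Fin 2 → ℂ) = 0)
    (hMA : ∀ W ⊆ Ω, IsOpen W → ∀ φ : (Fin 2 → ℂ) → ℝ, ContDiff ℝ ∞ φ → HasCompactSupport φ →
      tsupport φ ⊆ W → ∀ v : ℕ → (Fin 2 → ℂ) → ℝ, (∀ k, ContDiffOn ℝ ∞ (v k) W) →
        (∀ k, ∀ z ∈ W, ∀ ξ : Fin 2 → ℂ, 0 ≤ levi 2 (v k) z ξ) →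
        TendstoLocallyUniformlyOn v u atTop W →
        Tendsto (fun k => ∫ z, φ z * (cHess 2 (v k) z).det.re) atTop (𝓝 (∫ z, φ z * c))) :
    ContDiffOn ℝ ∞ u Ω := by
  intro x0 hx0
  refine ContDiffAt.contDiffWithinAt ?_
  obtain ⟨R, hR, hRΩ⟩ := Metric.isOpen_iff.1 hΩ x0 hx0
  set r := R / 8 with hrd
  have hr : 0 < r := by positivity
  set z0 := x0 0 with hz0
  set s0 := (x0 1).re with hs0
  set t0 := (x0 1).im with ht0
  have hbx : ∀ x : Fin 2 → ℂ, Pr x ∈ box z0 s0 (4 * r) → |(x 1).im - t0| < 4 * r → x ∈ Ω := by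
    intro x hx hx'
    rw [mem_box, Pr_apply] at hx
    refine hRΩ ?_
    rw [mem_ball, dist_pi_lt_iff hR]
    intro i
    fin_cases i
    · show dist (x 0) (x0 0) < R
      rw [dist_eq_norm]
      have := hx.1
      simp only at this
      rw [← hz0]
      linarith
    · show dist (x 1) (x0 1) < R
      rw [dist_eq_norm]
      have h1 := hx.2
      simp only at h1
      refine (Complex.norm_le_abs_re_add_abs_im _).trans_lt ?_
      rw [Complex.sub_re, Complex.sub_im, ← hs0, ← ht0]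
      linarith
  set v : X → ℝ := fun y => u (emb t0 y) with hv
  have hemb : ∀ y ∈ box z0 s0 (4 * r), ∀ t : ℝ, |t - t0| < 4 * r → emb t y ∈ Ω := by
    intro y hy t ht
    refine hbx _ ?_ ?_
    · rw [Pr_emb]; exact hy
    · rw [emb_im]; exact ht
  have hueq : ∀ x : Fin 2 → ℂ, Pr x ∈ box z0 s0 (4 * r) → |(x 1).im - t0| < 4 * r →
      u x = v (Pr x) := by
    intro x hx hx'
    have h1 := eq_on_box hΩ hu hinv (y := Pr x) (a := t0 - 4 * r) (b := t0 + 4 * r)
      (fun t ht => hemb _ hx t (by rw [abs_lt]; constructor <;> linarith [ht.1, ht.2]))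
      (s := (x 1).im) (t := t0)
      (by rw [abs_lt] at hx'; constructor <;> linarith [hx'.1, hx'.2])
      (by constructor <;> linarith)
    rw [emb_Pr] at h1
    exact h1
  have hv1 : ContDiffOn ℝ 1 v (box z0 s0 (4 * r)) := by
    refine hu.comp ((contDiff_emb t0).of_le (by norm_cast)).contDiffOn ?_
    intro y hy
    exact hemb y hy t0 (by simp; positivity)
  have hsub : ∀ y ∈ box z0 s0 (2 * r), ∀ a b : ℂ, ‖a‖ < r → ‖b‖ < r →
      v y ≤ (2 * Real.pi)⁻¹ * ∫ θ in (0 : ℝ)..(2 * Real.pi),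
        v (y + (Complex.exp ((θ : ℂ) * Complex.I) * a,
          (Complex.exp ((θ : ℂ) * Complex.I) * b).re)) := by
    intro y hy a b ha hb
    rw [mem_box] at hy
    have key : ∀ ζ : ℂ, ‖ζ‖ ≤ 1 → Pr (emb t0 y + ζ • ![a, b]) ∈ box z0 s0 (4 * r) ∧
        |((emb t0 y + ζ • ![a, b]) 1).im - t0| < 4 * r := by
      intro ζ hζ
      have h1 : ‖ζ * a‖ < r := by
        rw [norm_mul]
        calc ‖ζ‖ * ‖a‖ ≤ 1 * ‖a‖ := mul_le_mul_of_nonneg_right hζ (norm_nonneg _)
          _ < r := by rwa [one_mul]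
      have h2 : ‖ζ * b‖ < r := by
        rw [norm_mul]
        calc ‖ζ‖ * ‖b‖ ≤ 1 * ‖b‖ := mul_le_mul_of_nonneg_right hζ (norm_nonneg _)
          _ < r := by rwa [one_mul]
      have e1 : Pr (emb t0 y + ζ • ![a, b]) = (y.1 + ζ * a, y.2 + (ζ * b).re) := by
        rw [map_add, Pr_emb, Pr_apply]
        rfl
      constructor
      · rw [e1, mem_box]
        constructor
        · have : y.1 + ζ * a - z0 = (y.1 - z0) + ζ * a := by ring
          simp only
          rw [this]
          exact (norm_add_le _ _).trans_lt (by linarith [hy.1])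
        · have : y.2 + (ζ * b).re - s0 = (y.2 - s0) + (ζ * b).re := by ring
          simp only
          rw [this]
          have h3 := Complex.abs_re_le_norm (ζ * b)
          exact (abs_add_le _ _).trans_lt (by linarith [hy.2])
      · have e2 : ((emb t0 y + ζ • ![a, b]) 1).im - t0 = (ζ * b).im := by
          simp [emb]
        rw [e2]
        have h3 := Complex.abs_im_le_norm (ζ * b)
        linarith
    have h1 := hpsh (emb t0 y) ![a, b] (fun ζ hζ => hbx _ (key ζ hζ).1 (key ζ hζ).2)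
    refine h1.trans_eq ?_
    congr 1
    refine intervalIntegral.integral_congr fun θ _ => ?_
    have hn : ‖Complex.exp ((θ : ℂ) * Complex.I)‖ ≤ 1 := (Complex.norm_exp_ofReal_mul_I θ).le
    obtain ⟨k1, k2⟩ := key _ hn
    rw [hueq _ k1 k2]
    congr 1
    rw [map_add, Pr_emb, Pr_apply]
    rfl
  obtain ⟨w, ws, wl0, wl1, wQ⟩ := exists_approx hr hv1 hsub
  have hb14 : box z0 s0 r ⊆ box z0 s0 (4 * r) := by
    intro x hx
    rw [mem_box] at hx ⊢
    exact ⟨by linarith, by linarith⟩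
  -- the open set in `ℂ²`
  set W : Set (Fin 2 → ℂ) := {x | Pr x ∈ box z0 s0 r ∧ |(x 1).im - t0| < r} with hW
  have hWo : IsOpen W := by
    have h1 : IsOpen (Pr ⁻¹' box z0 s0 r) := (isOpen_box z0 s0 r).preimage Pr.continuous
    have h2 : IsOpen {x : Fin 2 → ℂ | |(x 1).im - t0| < r} :=
      isOpen_lt (by fun_prop) continuous_const
    exact h1.inter h2
  have hWΩ : W ⊆ Ω := by
    rintro x ⟨h1, h2⟩
    exact hbx x (hb14 h1) (by linarith)
  have hWu : ∀ x ∈ W, u x = v (Pr x) := by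
    rintro x ⟨h1, h2⟩
    exact hueq x (hb14 h1) (by linarith)
  have hlim : TendstoLocallyUniformlyOn (fun k x => w k (Pr x)) u atTop W := by
    have h1 : TendstoUniformlyOn (fun k x => w k (Pr x)) (fun x => v (Pr x)) atTop
        (Pr ⁻¹' box z0 s0 r) := wl0.comp Pr
    exact ((h1.mono (fun x hx => hx.1)).congr_right
      (fun x hx => (hWu x hx).symm)).tendstoLocallyUniformlyOn
  have happr : Appr (16 * c) (ball z0 r) (Ioo (s0 - r) (s0 + r)) v w := by
    refine ⟨isOpen_ball, isOpen_Ioo, ordConnected_Ioo, ws, hv1.mono hb14, ?_, ?_,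
      wl0.tendstoLocallyUniformlyOn, fun e => (wl1 e).tendstoLocallyUniformlyOn, ?_⟩
    · intro k x hx
      exact (conv_det (ws k) x (wQ k x hx)).1
    · intro k x hx
      exact (conv_det (ws k) x (wQ k x hx)).2
    · intro χ cχ sχ tχ
      let κ : ContDiffBump t0 := ⟨r / 4, r / 2, by positivity, by linarith⟩
      have cκ : ContDiff ℝ ∞ κ := κ.contDiff
      have hκ : 0 < ∫ t, κ t := κ.integral_pos
      set φ : (Fin 2 → ℂ) → ℝ := fun x => χ (Pr x) * κ (x 1).im with hφ
      have cφ : ContDiff ℝ ∞ φ := by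
        refine (cχ.comp Pr.contDiff).mul (cκ.comp ?_)
        exact Complex.imCLM.contDiff.comp (contDiff_apply ℝ ℂ 1)
      set K : Set (Fin 2 → ℂ) := (fun p : X × ℝ => emb p.2 p.1) ''
        (tsupport χ ×ˢ closedBall t0 (r / 2)) with hKd
      have hK : IsCompact K := (sχ.prod (isCompact_closedBall t0 (r / 2))).image continuous_emb
      have hφK : ∀ x, x ∉ K → φ x = 0 := by
        intro x hx
        by_contra hne
        apply hx
        have h1 : χ (Pr x) ≠ 0 := left_ne_zero_of_mul hne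
        have h2 : κ (x 1).im ≠ 0 := right_ne_zero_of_mul hne
        refine ⟨(Pr x, (x 1).im), ⟨subset_tsupport χ h1, ?_⟩, emb_Pr x⟩
        have h3 : (x 1).im ∈ Function.support κ := h2
        rw [κ.support_eq] at h3
        exact ball_subset_closedBall h3
      have sφ : HasCompactSupport φ := HasCompactSupport.intro hK hφK
      have tφK : tsupport φ ⊆ K := by
        refine closure_minimal ?_ hK.isClosed
        intro x hx
        by_contra h
        exact hx (hφK x h)
      have hKW : K ⊆ W := by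
        rintro _ ⟨⟨y, t⟩, ⟨hy, ht⟩, rfl⟩
        constructor
        · simp only
          rw [Pr_emb]
          exact tχ hy
        · simp only
          rw [emb_im]
          rw [mem_closedBall, Real.dist_eq] at ht
          simp only at ht
          linarith
      have h1 := hMA W hWΩ hWo φ cφ sφ (tφK.trans hKW) (fun k x => w k (Pr x))
        (fun k => ((ws k).comp Pr.contDiff).contDiffOn)
        (fun k z hz ξ => levi_comp (ws k) z ξ (wQ k _ hz.1 (ξ 0) (ξ 1))) hlim
      have e1 : ∀ k, ∫ z, φ z * (cHess 2 (fun x => w k (Pr x)) z).det.re =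
          ((1 / 16) * ∫ t, κ t) * ∫ x, χ x * Dop (w k) x := by
        intro k
        have : ∀ z, φ z * (cHess 2 (fun x => w k (Pr x)) z).det.re =
            ((1 / 16) * (χ (Pr z) * Dop (w k) (Pr z))) * κ (z 1).im := by
          intro z
          rw [det_comp (ws k)]
          simp only [hφ]
          ring
        rw [integral_congr_ae (Eventually.of_forall this)]
        have h2 := integral_factor (fun y => (1 / 16) * (χ y * Dop (w k) y)) κ
        rw [h2, integral_const_mul]
        ring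
      have e2 : ∫ z, φ z * c = ((1 / 16) * ∫ t, κ t) * (16 * c * ∫ x, χ x) := by
        have : ∀ z, φ z * c = (c * χ (Pr z)) * κ (z 1).im := by
          intro z
          simp only [hφ]
          ring
        rw [integral_congr_ae (Eventually.of_forall this)]
        have h2 := integral_factor (fun y => c * χ y) κ
        rw [h2, integral_const_mul]
        ring
      simp_rw [e1] at h1
      rw [e2] at h1
      have hne : ((1 / 16) * ∫ t, κ t) ≠ 0 := by positivity
      have h2 := h1.const_mul ((1 / 16) * ∫ t, κ t)⁻¹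
      simp only [inv_mul_cancel_left₀ hne] at h2
      exact h2
  have hsm := happr.smooth_v (by positivity)
  have hx0b : Pr x0 ∈ box z0 s0 r := by
    rw [mem_box, Pr_apply]
    constructor
    · show ‖x0 0 - x0 0‖ < r
      simpa using hr
    · show |(x0 1).re - (x0 1).re| < r
      simpa using hr
  have h1 : ContDiffAt ℝ ∞ v (Pr x0) := hsm.contDiffAt ((isOpen_box z0 s0 r).mem_nhds hx0b)
  have h2 : ContDiffAt ℝ ∞ (fun x => v (Pr x)) x0 :=
    ContDiffAt.comp (g := v) (f := Pr) x0 h1 Pr.contDiff.contDiffAt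
  refine h2.congr_of_eventuallyEq ?_
  have hx0W : x0 ∈ W := ⟨hx0b, by rw [← ht0]; simpa using hr⟩
  filter_upwards [hWo.mem_nhds hx0W] with x hx
  exact hWu x hx

end Pool.MA74
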